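import Pool.Agent.N109.Slab.SD3

/-!
# Schwinger-Dyson inequality for systems: asymptotics
-/

set_option autoImplicit false
set_option linter.unusedSectionVars false
set_option linter.unusedVariables false

open MeasureTheory Finset Filter

namespace Pool.Agent.N109.SDS

open Pool.Agent.N109.Slab

noncomputable section

lemma asymG (K r : ℝ) (hK : 1 ≤ K) (hr : 0 < r) {e : ℝ} (he : 0 < e) (he2 : e ≤ 1 / 10) :
    ∃ β₀ ≥ (1 : ℝ), ∀ β ≥ β₀, ∀ y : ℝ, 0 ≤ y → y ≤ β ^ (e / 16) → ∀ δ t p0 : ℝ,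
      δ = β ^ (-1 / 2 + e) → t = β ^ (-1 / 2 - 4 * e) → p0 = Real.exp (-β ^ (e / 2)) →
      0 < t ∧ 4 * t ≤ δ ∧ δ ≤ r ∧ K * y * (β * t * δ) ≤ 1 ∧
      ((K * y * δ) * (K * y * (β * t * δ)) ^ 2 + K * y * (t * δ) +
        (K * y * δ) * (K * y * (β * (t ^ 2 + t * δ ^ 2))) +
        (β * t) * ((K * y * t) * (K * y * δ))) +
        (K * y * p0) * (2 * (K * y) + t * (K * y) + (β * t) * ((K * y) * (K * y))) ≤
        t * β ^ (-(e / 4)) ∧
      ((K * y * (β * t * δ)) ^ 2 + K * y * (β * (t ^ 2 + t * δ ^ 2))) +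
        (K * y * p0) * (2 + (β * t) * (K * y)) ≤ t * β ^ (1 / 2 - e) := by
  obtain ⟨n, hn⟩ : ∃ n : ℕ, K ≤ n := exists_nat_ge K
  have hn1 : (1 : ℝ) ≤ n := hK.trans hn
  obtain ⟨β₁, hβ₁, H⟩ := asym 1 n n (κ := K) (by linarith) he he2
  have A1 := evr (a := 0) (b := -1 / 2 + e) (1 / r) (by linarith)
  obtain ⟨β₂, hβ₂⟩ := Filter.eventually_atTop.1 A1
  refine ⟨max β₁ β₂, hβ₁.trans (le_max_left _ _), fun β hβ y hy0 hy δ t p0 hδ ht hp0 => ?_⟩
  have hβ1 : 1 ≤ β := hβ₁.trans ((le_max_left _ _).trans hβ)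
  have hβ0 : 0 < β := by linarith
  have a1 := hβ₂ β ((le_max_right _ _).trans hβ)
  rw [Real.rpow_zero, ← hδ] at a1
  obtain ⟨t0, t1, t2, t3, t4, t5, t6⟩ := H β ((le_max_left _ _).trans hβ) y hy0 hy δ t p0
    (y * (1 * n)) hδ ht hp0 (by push_cast; ring)
  have hδ0 : 0 < δ := by linarith
  have hp00 : 0 ≤ p0 := by rw [hp0]; exact (Real.exp_pos _).le
  have hCB : CB 1 n = 20 * n := by unfold CB; push_cast; ring
  have hCT : (n : ℝ) ≤ N990.CT 1 n K := by
    unfold N990.CT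
    push_cast
    have : (1 : ℝ) ≤ 48 * K + 304 := by linarith
    nlinarith
  have hn0 : (0 : ℝ) ≤ n := by linarith
  have hK0 : 0 ≤ K := by linarith
  -- comparison
  have c1 : K * y * (β * (t ^ 2 + t * δ ^ 2)) ≤ Dt.rho 1 n K β δ t y := by
    unfold Dt.rho
    rw [hCB]
    have h1 : K * y * (β * (t ^ 2 + t * δ ^ 2)) = β * (y * (K * t ^ 2 + K * (t * δ ^ 2))) := by ring
    rw [h1]
    push_cast
    have h2 : 0 ≤ t ^ 2 := by positivity
    have h3 : 0 ≤ t * δ ^ 2 := by positivity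
    refine mul_le_mul_of_nonneg_left ?_ hβ0.le
    have h4 : K * t ^ 2 ≤ 20 * n * t ^ 2 := mul_le_mul_of_nonneg_right (by linarith) h2
    have h5 : K * (t * δ ^ 2) ≤ N990.CT 1 n K * (t * δ ^ 2) :=
      mul_le_mul_of_nonneg_right (hn.trans hCT) h3
    have h6 : 0 ≤ K * t ^ 2 + K * (t * δ ^ 2) := by positivity
    calc y * (K * t ^ 2 + K * (t * δ ^ 2)) ≤ ((1 + 1) * y) * (K * t ^ 2 + K * (t * δ ^ 2)) :=
          mul_le_mul_of_nonneg_right (by linarith) h6
      _ ≤ _ := mul_le_mul_of_nonneg_left (by linarith) (by positivity)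
  have hrho0 : 0 ≤ Dt.rho 1 n K β δ t y := le_trans (by positivity) c1
  have c2 : K * y * (β * t * δ) ≤ Dt.xi 1 n K β δ t y := by
    unfold Dt.xi
    rw [hCB]
    refine le_add_of_le_of_nonneg ?_ hrho0
    have h1 : K * y * (β * t * δ) = β * t * (y * (K * δ)) := by ring
    rw [h1]
    push_cast
    refine mul_le_mul_of_nonneg_left ?_ (by positivity)
    calc y * (K * δ) ≤ ((1 + 1) * y) * (K * δ) := mul_le_mul_of_nonneg_right (by linarith)
          (by positivity)
      _ ≤ ((1 + 1) * y) * (20 * n * δ) := by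
          refine mul_le_mul_of_nonneg_left ?_ (by positivity)
          exact mul_le_mul_of_nonneg_right (by linarith) hδ0.le
  have c3 : K * y * δ ≤ y * (1 * n) * (2 * δ) := by
    have : K * y * δ ≤ n * y * δ := by gcongr
    nlinarith [mul_nonneg (mul_nonneg hn0 hy0) hδ0.le]
  have c4 : K * y * (t * δ) ≤ y * (1 * n) * ((K + 2) * δ * t) := by
    have h1 : K * y * (t * δ) ≤ n * y * (t * δ) := by gcongr
    have h2 : n * y * (t * δ) * 1 ≤ n * y * (t * δ) * (K + 2) :=
      mul_le_mul_of_nonneg_left (by linarith) (by positivity)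
    linarith
  have c5 : K * y * t ≤ y * (1 * n) * (2 * t) := by
    have : K * y * t ≤ n * y * t := by gcongr
    nlinarith [mul_nonneg (mul_nonneg hn0 hy0) t0.le]
  have c6 : K * y * δ ≤ (1 + 1) * y * (20 * n * δ) := by
    have : K * y * δ ≤ n * y * δ := by gcongr
    nlinarith [mul_nonneg (mul_nonneg hn0 hy0) hδ0.le]
  have c7 : K * y ≤ y * (1 * n) * (2 * n) := by
    have h1 : K * y ≤ n * y := by gcongr
    have h2 : n * y * 1 ≤ n * y * (2 * n) :=
      mul_le_mul_of_nonneg_left (by linarith) (by positivity)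
    linarith
  have c8 : K * y ≤ (1 + 1) * y * (20 * n * (2 * n)) := by
    have h1 : K * y ≤ n * y := by gcongr
    have h2 : n * y * 1 ≤ n * y * (80 * n) :=
      mul_le_mul_of_nonneg_left (by linarith) (by positivity)
    linarith
  have c9 : K * y * p0 ≤ (1 + 1) * ((1 + 1) * y) * (1 * n) * p0 := by
    have h1 : K * y * p0 ≤ n * y * p0 := by gcongr
    nlinarith [mul_nonneg (mul_nonneg hn0 hy0) hp00]
  have c10 : K * y ≤ y * (1 * n) := by
    have h1 : K * y ≤ n * y := by gcongr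
    linarith
  rw [hCB] at t5 t6
  push_cast at t5 t6
  refine ⟨t0, t1, ?_, c2.trans t4, ?_, ?_⟩
  · have h1 : δ = 1 / r * δ * r := by field_simp
    calc δ = 1 / r * δ * r := h1
      _ ≤ 1 * r := mul_le_mul_of_nonneg_right a1 hr.le
      _ = r := one_mul r
  · refine le_trans ?_ t5
    have hβt : 0 ≤ β * t := by positivity
    refine add_le_add (add_le_add (add_le_add (add_le_add ?_ c4) ?_) ?_) ?_
    · gcongr
    · gcongr
    · gcongr
    · gcongr
  · refine le_trans ?_ t6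
    have hβt : 0 ≤ β * t := by positivity
    refine add_le_add (add_le_add ?_ c1) ?_
    · gcongr
    · gcongr

end

end Pool.Agent.N109.SDS
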