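import Pool.Agent.N109.SDS.Asym
import Pool.Agent.N986.PB.Small

/-!
# The Schwinger-Dyson inequality for systems of the machine
-/

set_option autoImplicit false
set_option linter.unusedSectionVars false
set_option linter.unusedVariables false
set_option linter.style.haveILetI false

open MeasureTheory Finset Filter Function
open scoped ENNReal Classical

namespace Pool.Agent.N109.SDS

open Pool.Agent.N990.Mach Pool.Agent.N109.Slab

noncomputable section

variable {ι τ K W : Type*} [Group K] [MeasurableSpace K] [NormedAddCommGroup W]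
  [InnerProductSpace ℝ W] {ν : Measure K} {c : Cst}

/-- Additional properties of the system: linearisation of products, linearity of the form. -/
structure Lin (S : Sys ι τ K W W ν c) (Yb Cy : ℝ) : Prop where
  yy_bd : ∀ g, ‖S.yy g‖ ≤ Yb
  Cy0 : 0 ≤ Cy
  yy_mul : ∀ g g', ‖S.yy (g * g') - S.yy g - S.yy g'‖ ≤ Cy * (S.nrm g * S.nrm g')
  yy_ex : ∀ w : W, ‖w‖ ≤ c.r0 → S.yy (S.ex w) = w
  ex_zero : S.ex 0 = 1
  yy_meas : ∀ u : W, Measurable fun g => inner ℝ u (S.yy g)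
  b_meas : ∀ t ∈ S.T, ∀ w : ι → W, Measurable fun σ : ι → K => S.b t (fun y => S.yy (σ y)) w
  b_smul_left : ∀ t (a : ℝ) (φ w : ι → W), S.b t (a • φ) w = a * S.b t φ w
  b_add_right : ∀ t (φ w w' : ι → W), S.b t φ (w + w') = S.b t φ w + S.b t φ w'
  b_smul_right : ∀ t (a : ℝ) (φ w : ι → W), S.b t φ (a • w) = a * S.b t φ w

/-- the shift identity of a Gibbs measure of the system -/
structure Shf (S : Sys ι τ K W W ν c) (β : ℝ) (Q : Measure (ι → K)) : Prop where
  prob : IsProbabilityMeasure Q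
  shift : ∀ v : ι → K, (∀ x, x ∉ S.Lam → v x = 1) →
    ∀ F : (ι → K) → ℝ≥0∞, Measurable F → ∫⁻ σ, F σ ∂Q = ∫⁻ σ, F (v * σ) *
      ENNReal.ofReal (Real.exp (-(β * (S.H (v * σ) - S.H σ)))) ∂Q

/-- the good set: small spins in `X` -/
def Gd (S : Sys ι τ K W W ν c) (δ : ℝ) (X : Finset ι) : Set (ι → K) :=
  {σ | ∀ x ∈ X, S.nrm (σ x) ≤ δ}

/-- the sites which matter for shifts in `A` -/
def cA (S : Sys ι τ K W W ν c) (A : Finset ι) : Finset ι := cl S.T S.sp A ∪ A

/-- pairing -/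
def prS (A : Finset ι) (g φ : ι → W) : ℝ := ∑ x ∈ A, inner ℝ (g x) (φ x)

lemma Gd_meas (S : Sys ι τ K W W ν c) (δ : ℝ) (X : Finset ι) : MeasurableSet (Gd S δ X) := by
  have : Gd S δ X = ⋂ x ∈ X, {σ : ι → K | S.nrm (σ x) ≤ δ} := by
    ext σ; simp [Gd]
  rw [this]
  exact Finset.measurableSet_biInter _ fun x _ =>
    (S.nrm_meas.comp (measurable_pi_apply x)) measurableSet_Iic

lemma mulv_ms [MeasurableMul K] (v : ι → K) : Measurable fun σ : ι → K => v * σ := by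
  refine measurable_pi_lambda _ fun x => ?_
  show Measurable fun σ : ι → K => v x * σ x
  exact (measurable_pi_apply x).const_mul _

/-- the shift identity for real functions on a good set -/
lemma Shf.set [MeasurableMul K] {S : Sys ι τ K W W ν c} {β : ℝ} {Q : Measure (ι → K)}
    (h : Shf S β Q) {v : ι → K} (hv : ∀ x, x ∉ S.Lam → v x = 1) {F : (ι → K) → ℝ}
    (mF : Measurable F) {Gs : Set (ι → K)} (hG : MeasurableSet Gs) :
    ∫ σ in {σ | v⁻¹ * σ ∈ Gs}, F σ ∂Q = ∫ σ in Gs, F (v * σ) *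
      Real.exp (-(β * (S.H (v * σ) - S.H σ))) ∂Q := by
  set X : (ι → K) → ℝ := fun σ => β * (S.H (v * σ) - S.H σ) with hXd
  have mX : Measurable X := ((S.H_meas.comp (mulv_ms v)).sub S.H_meas).const_mul β
  set ρ : (ι → K) → ℝ≥0∞ := fun σ => ENNReal.ofReal (Real.exp (-X σ)) with hρ
  have mρ : Measurable ρ := ENNReal.measurable_ofReal.comp (Real.measurable_exp.comp mX.neg)
  have hmap : Q = (Q.withDensity ρ).map (fun σ => v * σ) := by
    refine Measure.ext_of_lintegral _ fun f hf => ?_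
    have mfv : Measurable fun σ => f (v * σ) := hf.comp (mulv_ms v)
    rw [lintegral_map hf (mulv_ms v), lintegral_withDensity_eq_lintegral_mul _ mρ mfv,
      h.shift v hv f hf]
    refine lintegral_congr fun σ => ?_
    simp only [Pi.mul_apply, hρ, hXd]
    rw [mul_comm]
  have mG' : MeasurableSet {σ : ι → K | v⁻¹ * σ ∈ Gs} := (mulv_ms v⁻¹) hG
  have e1 : ∫ σ in {σ | v⁻¹ * σ ∈ Gs}, F σ ∂Q =
      ∫ σ, ({σ | v⁻¹ * σ ∈ Gs} : Set (ι → K)).indicator F σ ∂Q := (integral_indicator mG').symm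
  have mI : Measurable (({σ | v⁻¹ * σ ∈ Gs} : Set (ι → K)).indicator F) := mF.indicator mG'
  rw [e1]
  conv_lhs => rw [hmap]
  rw [integral_map (mulv_ms v).aemeasurable mI.aestronglyMeasurable,
    integral_withDensity_eq_integral_toReal_smul mρ (Filter.Eventually.of_forall fun σ => by
      rw [hρ]; exact ENNReal.ofReal_lt_top), ← integral_indicator hG]
  refine integral_congr_ae (Filter.Eventually.of_forall fun σ => ?_)
  have e2 : v⁻¹ * (v * σ) = σ := by rw [← mul_assoc, inv_mul_cancel, one_mul]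
  simp only [hρ, ENNReal.toReal_ofReal (Real.exp_pos _).le, smul_eq_mul]
  by_cases hσ : σ ∈ Gs
  · rw [Set.indicator_of_mem hσ, Set.indicator_of_mem (by
      show v⁻¹ * (v * σ) ∈ Gs; rw [e2]; exact hσ)]
    ring
  · rw [Set.indicator_of_notMem hσ, Set.indicator_of_notMem (by
      show ¬ (v⁻¹ * (v * σ) ∈ Gs); rw [e2]; exact hσ)]
    ring

/-! ### counting -/

lemma sp_card (S : Sys ι τ K W W ν c) {t : τ} (ht : t ∈ S.T) :
    ((S.sp t).card : ℝ) ≤ c.Cg * 2 ^ c.Dg := by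
  rcases (S.sp t).eq_empty_or_nonempty with h | ⟨x, hx⟩
  · rw [h]
    have := c.hCg
    simp only [Finset.card_empty, Nat.cast_zero]; positivity
  · have h1 := S.growth (S.sp t) x 1
    have h2 : (S.sp t).filter (fun y => S.d x y ≤ 1) = S.sp t :=
      Finset.filter_true_of_mem fun y hy => S.diam t ht x hx y hy
    rw [h2] at h1
    norm_num at h1
    exact h1

lemma cA_card (S : Sys ι τ K W W ν c) (A : Finset ι) :
    ((cA S A).card : ℝ) ≤ (c.Cn * (c.Cg * 2 ^ c.Dg) + 1) * A.card := by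
  have hCg := c.hCg
  have hCn := c.hCn
  have h1 : ((cl S.T S.sp A).card : ℝ) ≤ (tch S.T S.sp A).card * (c.Cg * 2 ^ c.Dg) := by
    unfold cl
    calc (((tch S.T S.sp A).biUnion S.sp).card : ℝ) ≤
          ((∑ t ∈ tch S.T S.sp A, (S.sp t).card : ℕ) : ℝ) := by
          exact_mod_cast Finset.card_biUnion_le
      _ = ∑ t ∈ tch S.T S.sp A, ((S.sp t).card : ℝ) := by push_cast; rfl
      _ ≤ ∑ t ∈ tch S.T S.sp A, (c.Cg * 2 ^ c.Dg) :=
          Finset.sum_le_sum fun t ht => sp_card S (S.tch_sub A ht)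
      _ = _ := by rw [Finset.sum_const, nsmul_eq_mul]
  have h2 := S.tcard A
  have h3 : ((cA S A).card : ℝ) ≤ (cl S.T S.sp A).card + A.card := by
    unfold cA
    exact_mod_cast Finset.card_union_le _ _
  have h4 : ((tch S.T S.sp A).card : ℝ) * (c.Cg * 2 ^ c.Dg) ≤
      (c.Cn * A.card) * (c.Cg * 2 ^ c.Dg) := mul_le_mul_of_nonneg_right h2 (by positivity)
  linarith

/-- all the data of the inequality -/
structure Dt (S : Sys ι τ K W W ν c) (Yb Cy β : ℝ) (Q : Measure (ι → K)) (δ t p0 : ℝ)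
    (A : Finset ι) (w : ι → W) : Prop where
  lin : Lin S Yb Cy
  shf : Shf S β Q
  hβ : 0 ≤ β
  ht : 0 < t
  htδ : 4 * t ≤ δ
  hδ : 4 * δ ≤ c.r0
  hA : A ⊆ S.Lam
  w1 : ∀ x, ‖w x‖ ≤ 1
  w0 : ∀ x, x ∉ A → w x = 0
  mb : ∀ y ∈ cA S A, Q.real {σ : ι → K | δ / 2 < S.nrm (σ y)} ≤ p0

/-- the constant -/
def KK (c : Cst) (Yb Cy : ℝ) : ℝ :=
  4 + c.Cn * (3 * c.Cb + c.CT) + (1 + 2 * Cy) + Yb + c.Cn * c.Cb * Yb +
    (c.Cn * (c.Cg * 2 ^ c.Dg) + 1)

namespace Dt

variable {S : Sys ι τ K W W ν c} {Yb Cy β : ℝ} {Q : Measure (ι → K)} {δ t p0 : ℝ}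
  {A : Finset ι} {w : ι → W}

/-- the shift -/
def vv (S : Sys ι τ K W W ν c) (t : ℝ) (w : ι → W) : ι → K := fun x => S.ex (t • w x)

/-- the linear observable of the shift -/
def BB (S : Sys ι τ K W W ν c) (A : Finset ι) (w : ι → W) (σ : ι → K) : ℝ :=
  ∑ s ∈ tch S.T S.sp A, S.b s (fun y => S.yy (σ y)) w

/-- the exponent -/
def XX (S : Sys ι τ K W W ν c) (β : ℝ) (v σ : ι → K) : ℝ := β * (S.H (v * σ) - S.H σ)

lemma yb0 (h : Lin S Yb Cy) : 0 ≤ Yb := (norm_nonneg _).trans (h.yy_bd 1)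

lemma KK_facts (h : Lin S Yb Cy) : 4 ≤ KK c Yb Cy ∧ c.Cn * (3 * c.Cb + c.CT) ≤ KK c Yb Cy ∧
    1 + 2 * Cy ≤ KK c Yb Cy ∧ Yb ≤ KK c Yb Cy ∧ c.Cn * c.Cb * Yb ≤ KK c Yb Cy ∧
    c.Cn * (c.Cg * 2 ^ c.Dg) + 1 ≤ KK c Yb Cy := by
  have h1 := yb0 h
  have h2 := h.Cy0
  have h3 := c.hCn
  have h4 := c.hCb
  have h5 := c.hCT
  have h6 := c.hCg
  have p1 : 0 ≤ c.Cn * (3 * c.Cb + c.CT) := by positivity
  have p2 : 0 ≤ c.Cn * c.Cb * Yb := by positivity
  have p3 : 0 ≤ c.Cn * (c.Cg * 2 ^ c.Dg) := by positivity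
  unfold KK
  refine ⟨?_, ?_, ?_, ?_, ?_, ?_⟩ <;> linarith

lemma δ0 (h : Dt S Yb Cy β Q δ t p0 A w) : 0 < δ := by
  have := h.ht; have := h.htδ; linarith

lemma tw (h : Dt S Yb Cy β Q δ t p0 A w) (x : ι) : ‖t • w x‖ ≤ t := by
  rw [norm_smul, Real.norm_eq_abs, abs_of_pos h.ht]
  have := h.w1 x
  have := h.ht
  nlinarith

lemma tr (h : Dt S Yb Cy β Q δ t p0 A w) : t ≤ c.r0 := by
  have := h.htδ; have := h.hδ; have := h.δ0; linarith

lemma vv_out (h : Dt S Yb Cy β Q δ t p0 A w) {x : ι} (hx : x ∉ A) : vv S t w x = 1 := by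
  unfold vv
  rw [h.w0 x hx, smul_zero, h.lin.ex_zero]

lemma vv_nrm (h : Dt S Yb Cy β Q δ t p0 A w) (x : ι) : S.nrm (vv S t w x) ≤ 2 * t :=
  S.ex_nrm t _ (h.tw x) h.tr

lemma vv_yy (h : Dt S Yb Cy β Q δ t p0 A w) (x : ι) : S.yy (vv S t w x) = t • w x :=
  h.lin.yy_ex _ ((h.tw x).trans h.tr)

lemma sub_cA : A ⊆ cA S A := Finset.subset_union_right

lemma sp_cA {s : τ} (hs : s ∈ tch S.T S.sp A) {x : ι} (hx : x ∈ S.sp s) : x ∈ cA S A :=
  Finset.mem_union_left _ (Finset.mem_biUnion.2 ⟨s, hs, hx⟩)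

/-- only the terms touching `A` change -/
lemma H_diff (h : Dt S Yb Cy β Q δ t p0 A w) (σ : ι → K) :
    S.H (vv S t w * σ) - S.H σ =
      ∑ s ∈ tch S.T S.sp A, (S.h s (vv S t w * σ) - S.h s σ) := by
  rw [S.H_split A, S.H_split A σ, S.Hc_congr (χ := σ) (B := A) (φ := vv S t w * σ)]
  · unfold Sys.HA
    rw [Finset.sum_sub_distrib]; ring
  · intro i hi
    rw [Pi.mul_apply, h.vv_out hi, one_mul]

lemma smul_fun (a : ℝ) (w : ι → W) : (fun x => a • w x) = a • w := rfl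

/-- Taylor expansion of the exponent -/
lemma X_le (h : Dt S Yb Cy β Q δ t p0 A w) {σ : ι → K} (hσ : σ ∈ Gd S δ (cA S A)) :
    |XX S β (vv S t w) σ - (β * t) * BB S A w σ| ≤
      c.Cn * A.card * (β * (c.CT * (t * δ ^ 2) + c.Cb * t ^ 2)) := by
  have ht := h.ht
  have hδ0 := h.δ0
  have hδ := h.hδ
  have hr := c.hr0
  have hCT := c.hCT
  have hCb := c.hCb
  have e1 : XX S β (vv S t w) σ - (β * t) * BB S A w σ =
      β * ∑ s ∈ tch S.T S.sp A, ((S.h s (vv S t w * σ) - S.h s σ -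
        (S.b s (fun y => S.yy (σ y)) (t • w) + S.cc s (t • w))) + S.cc s (t • w)) := by
    unfold XX BB
    rw [h.H_diff, mul_assoc, ← mul_sub, Finset.mul_sum, ← Finset.sum_sub_distrib]
    congr 1
    refine Finset.sum_congr rfl fun s _ => ?_
    rw [h.lin.b_smul_right]; ring
  rw [e1, abs_mul, abs_of_nonneg h.hβ]
  have h2 : |∑ s ∈ tch S.T S.sp A, ((S.h s (vv S t w * σ) - S.h s σ -
        (S.b s (fun y => S.yy (σ y)) (t • w) + S.cc s (t • w))) + S.cc s (t • w))| ≤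
      ∑ s ∈ tch S.T S.sp A, (c.CT * (t * δ ^ 2) + c.Cb * t ^ 2) := by
    refine (Finset.abs_sum_le_sum_abs _ _).trans (Finset.sum_le_sum fun s hs => ?_)
    have hsT := S.tch_sub A hs
    refine (abs_add_le _ _).trans (add_le_add ?_ ?_)
    · refine S.taylor s hsT σ (vv S t w) (t • w) δ t ht.le (by linarith [h.htδ]) (by linarith)
        (fun y hy => hσ y (sp_cA hs hy)) fun y _ => ?_
      exact S.rel_ex δ t (t • w y) (h.tw y) (by linarith [h.htδ]) (by linarith)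
    · exact S.cc_bd s hsT _ t fun y _ => h.tw y
  have h3 : ∑ s ∈ tch S.T S.sp A, (c.CT * (t * δ ^ 2) + c.Cb * t ^ 2) ≤
      c.Cn * A.card * (c.CT * (t * δ ^ 2) + c.Cb * t ^ 2) := by
    rw [Finset.sum_const, nsmul_eq_mul]
    exact mul_le_mul_of_nonneg_right (S.tcard A) (by positivity)
  calc β * _ ≤ β * (c.Cn * A.card * (c.CT * (t * δ ^ 2) + c.Cb * t ^ 2)) :=
        mul_le_mul_of_nonneg_left (h2.trans h3) h.hβ
    _ = _ := by ring

lemma yy_small (h : Dt S Yb Cy β Q δ t p0 A w) {g : K} (hg : S.nrm g ≤ c.r0) :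
    ‖S.yy g‖ ≤ 2 * S.nrm g := S.yy_le g hg

lemma B_le (h : Dt S Yb Cy β Q δ t p0 A w) {σ : ι → K} (hσ : σ ∈ Gd S δ (cA S A)) :
    |BB S A w σ| ≤ c.Cn * A.card * (c.Cb * (2 * δ)) := by
  have hδ0 := h.δ0
  have hδ := h.hδ
  have hCb := c.hCb
  unfold BB
  refine (Finset.abs_sum_le_sum_abs _ _).trans ((Finset.sum_le_sum
    (g := fun _ => c.Cb * (2 * δ) * 1) fun s hs => ?_).trans ?_)
  · refine S.b_bd s (S.tch_sub A hs) _ _ _ _ (fun y hy => ?_) fun y _ => h.w1 y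
    have h1 := hσ y (sp_cA hs hy)
    have h2 := S.yy_le (σ y) (by linarith)
    linarith
  · rw [mul_one, Finset.sum_const, nsmul_eq_mul]
    exact mul_le_mul_of_nonneg_right (S.tcard A) (by positivity)

lemma B_le' (h : Dt S Yb Cy β Q δ t p0 A w) (σ : ι → K) :
    |BB S A w σ| ≤ c.Cn * A.card * (c.Cb * Yb) := by
  have hCb := c.hCb
  have hYb := yb0 h.lin
  unfold BB
  refine (Finset.abs_sum_le_sum_abs _ _).trans ((Finset.sum_le_sum
    (g := fun _ => c.Cb * Yb * 1) fun s hs => ?_).trans ?_)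
  · exact S.b_bd s (S.tch_sub A hs) _ _ _ _ (fun y _ => h.lin.yy_bd _) fun y _ => h.w1 y
  · rw [mul_one, Finset.sum_const, nsmul_eq_mul]
    exact mul_le_mul_of_nonneg_right (S.tcard A) (by positivity)

lemma BB_meas (h : Lin S Yb Cy) (A : Finset ι) (w : ι → W) : Measurable (BB S A w) := by
  unfold BB
  exact Finset.measurable_fun_sum _ fun s hs => h.b_meas s (S.tch_sub A hs) w

lemma prS_meas (h : Lin S Yb Cy) (A : Finset ι) (g : ι → W) :
    Measurable fun σ : ι → K => prS A g fun x => S.yy (σ x) := by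
  unfold prS
  exact Finset.measurable_fun_sum _ fun x _ => (h.yy_meas (g x)).comp (measurable_pi_apply x)

lemma XX_meas [MeasurableMul K] (S : Sys ι τ K W W ν c) (β : ℝ) (v : ι → K) :
    Measurable (XX S β v) :=
  ((S.H_meas.comp (mulv_ms v)).sub S.H_meas).const_mul β

/-- the probability of a large spin -/
lemma bad_le (h : Dt S Yb Cy β Q δ t p0 A w) :
    Q.real {σ : ι → K | ∃ x ∈ cA S A, δ / 2 < S.nrm (σ x)} ≤ (cA S A).card * p0 := by
  haveI := h.shf.prob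
  have e : {σ : ι → K | ∃ x ∈ cA S A, δ / 2 < S.nrm (σ x)} =
      ⋃ x ∈ cA S A, {σ : ι → K | δ / 2 < S.nrm (σ x)} := by
    ext σ; simp
  rw [e]
  refine (measureReal_biUnion_finset_le _ _).trans ?_
  refine (Finset.sum_le_sum (g := fun _ => p0) fun x hx => h.mb x hx).trans ?_
  rw [Finset.sum_const, nsmul_eq_mul]

lemma pr_le {A : Finset ι} {g φ : ι → W} {a b : ℝ} (ha : 0 ≤ a) (hb : 0 ≤ b)
    (hg : ∀ x ∈ A, ‖g x‖ ≤ a) (hφ : ∀ x ∈ A, ‖φ x‖ ≤ b) : |prS A g φ| ≤ A.card * (a * b) := by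
  unfold prS
  refine (Finset.abs_sum_le_sum_abs _ _).trans ((Finset.sum_le_sum
    (g := fun _ => a * b) fun x hx => ?_).trans ?_)
  · exact (abs_real_inner_le_norm _ _).trans (mul_le_mul (hg x hx) (hφ x hx) (norm_nonneg _) ha)
  · rw [Finset.sum_const, nsmul_eq_mul]

/-- the change of the linear observable -/
lemma yy_diff (h : Dt S Yb Cy β Q δ t p0 A w) {σ : ι → K} {x : ι} (hx : S.nrm (σ x) ≤ δ) :
    ‖S.yy ((vv S t w * σ) x) - S.yy (σ x) - t • w x‖ ≤ 2 * Cy * (t * δ) := by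
  have h1 := h.lin.yy_mul (vv S t w x) (σ x)
  rw [h.vv_yy x] at h1
  have e : S.yy ((vv S t w * σ) x) - S.yy (σ x) - t • w x =
      S.yy (vv S t w x * σ x) - t • w x - S.yy (σ x) := by
    rw [Pi.mul_apply]; abel
  rw [e]
  refine h1.trans ?_
  have h2 := h.vv_nrm x
  have h3 : S.nrm (vv S t w x) * S.nrm (σ x) ≤ (2 * t) * δ :=
    mul_le_mul h2 hx (S.nrm_nonneg _) (by linarith [h.ht])
  have := mul_le_mul_of_nonneg_left h3 h.lin.Cy0
  linarith

/-- **Schwinger-Dyson inequality** -/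
theorem main [MeasurableMul K] (h : Dt S Yb Cy β Q δ t p0 A w) {g : ι → W}
    (hg : ∀ x, ‖g x‖ ≤ 1) (hp0 : 0 ≤ p0) (hδ1 : δ ≤ 1) {k : ℝ} (hk : k = KK c Yb Cy)
    (hξ : k * A.card * (β * t * δ) ≤ 1) :
    |(β * t) * ∫ σ, prS A g (fun x => S.yy (σ x)) * BB S A w σ ∂Q - t * prS A g w| ≤
      ((k * A.card * δ) * (k * A.card * (β * t * δ)) ^ 2 + k * A.card * (t * δ) +
        (k * A.card * δ) * (k * A.card * (β * (t ^ 2 + t * δ ^ 2))) +
        (β * t) * ((k * A.card * t) * (k * A.card * δ))) +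
        (k * A.card * p0) * (2 * (k * A.card) + t * (k * A.card) +
          (β * t) * ((k * A.card) * (k * A.card))) := by
  haveI := h.shf.prob
  have hδ0 := h.δ0
  have hδ := h.hδ
  have ht := h.ht
  have htδ : t ≤ δ := by linarith [h.htδ]
  have hβ := h.hβ
  have hCb := c.hCb
  have hCT := c.hCT
  have hCn := c.hCn
  have hYb := yb0 h.lin
  have hCy := h.lin.Cy0
  obtain ⟨k1, k2, k3, k4, k5, k6⟩ := KK_facts h.lin
  rw [← hk] at k1 k2 k3 k4 k5 k6
  obtain ⟨y, hy⟩ : ∃ y : ℝ, y = A.card := ⟨_, rfl⟩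
  have hy0 : 0 ≤ y := by rw [hy]; positivity
  have hk0 : 0 ≤ k := by linarith
  have p1 : 0 ≤ β * t * δ := by positivity
  have hρ : ∀ σ ∈ Gd S δ (cA S A), |XX S β (vv S t w) σ - (β * t) * BB S A w σ| ≤
      k * y * (β * (t ^ 2 + t * δ ^ 2)) := by
    intro σ hσ
    refine (h.X_le hσ).trans ?_
    rw [← hy]
    have h1 : c.CT * (t * δ ^ 2) + c.Cb * t ^ 2 ≤ (3 * c.Cb + c.CT) * (t ^ 2 + t * δ ^ 2) := by
      have a1 : 0 ≤ t ^ 2 := by positivity
      have a2 : 0 ≤ t * δ ^ 2 := by positivity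
      nlinarith [mul_nonneg hCb a1, mul_nonneg hCb a2, mul_nonneg hCT a1]
    calc c.Cn * y * (β * (c.CT * (t * δ ^ 2) + c.Cb * t ^ 2)) ≤
          c.Cn * y * (β * ((3 * c.Cb + c.CT) * (t ^ 2 + t * δ ^ 2))) := by gcongr
      _ = (c.Cn * (3 * c.Cb + c.CT)) * y * (β * (t ^ 2 + t * δ ^ 2)) := by ring
      _ ≤ k * y * (β * (t ^ 2 + t * δ ^ 2)) := by gcongr
  have hξ' : ∀ σ ∈ Gd S δ (cA S A), |XX S β (vv S t w) σ| ≤ k * y * (β * t * δ) := by
    intro σ hσ
    have h1 := h.X_le hσ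
    have h2 := h.B_le hσ
    rw [← hy] at h1 h2
    have hb : 0 ≤ β * t := mul_nonneg hβ ht.le
    have e : XX S β (vv S t w) σ = (β * t) * BB S A w σ +
        (XX S β (vv S t w) σ - (β * t) * BB S A w σ) := by ring
    rw [e]
    refine (abs_add_le _ _).trans ?_
    rw [abs_mul, abs_of_nonneg hb]
    have h3 := mul_le_mul_of_nonneg_left h2 hb
    have h4 : c.CT * (t * δ ^ 2) + c.Cb * t ^ 2 ≤ (c.CT + c.Cb) * (t * δ) := by
      have a1 : t ^ 2 ≤ t * δ := by nlinarith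
      have a2 : t * δ ^ 2 ≤ t * δ := by
        have : δ ^ 2 ≤ δ := by nlinarith
        exact mul_le_mul_of_nonneg_left this ht.le
      nlinarith [mul_le_mul_of_nonneg_left a1 hCb, mul_le_mul_of_nonneg_left a2 hCT]
    have h5 : c.Cn * y * (β * (c.CT * (t * δ ^ 2) + c.Cb * t ^ 2)) ≤
        c.Cn * y * (β * ((c.CT + c.Cb) * (t * δ))) := by gcongr
    calc _ ≤ (β * t) * (c.Cn * y * (c.Cb * (2 * δ))) +
          c.Cn * y * (β * ((c.CT + c.Cb) * (t * δ))) := add_le_add h3 (h1.trans h5)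
      _ = (c.Cn * (3 * c.Cb + c.CT)) * y * (β * t * δ) := by ring
      _ ≤ _ := by gcongr
  have hsm : ∀ σ ∈ Gd S δ (cA S A), ∀ x ∈ A, S.nrm (σ x) ≤ δ := fun σ hσ x hx =>
    hσ x (sub_cA hx)
  have hpr_sub : ∀ φ ψ : ι → W, prS A g φ - prS A g ψ = prS A g (fun x => φ x - ψ x) := by
    intro φ ψ
    unfold prS
    rw [← Finset.sum_sub_distrib]
    exact Finset.sum_congr rfl fun x _ => (inner_sub_right _ _ _).symm
  have hpr_t : t * prS A g w = prS A g (fun x => t • w x) := by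
    unfold prS
    rw [Finset.mul_sum]
    exact Finset.sum_congr rfl fun x _ => by rw [inner_smul_right]
  have hgA : ∀ x ∈ A, ‖g x‖ ≤ 1 := fun x _ => hg x
  have core := sd_core (μ := Q) (F := fun σ => prS A g (fun x => S.yy (σ x)))
    (F' := fun σ => prS A g (fun x => S.yy ((vv S t w * σ) x))) (B := BB S A w)
    (X := XX S β (vv S t w))
    (Gd := Gd S δ (cA S A)) (Gd' := {σ : ι → K | (vv S t w)⁻¹ * σ ∈ Gd S δ (cA S A)})
    (M := k * y) (MB := k * y) (m := k * y * δ)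
    (r1 := k * y * (t * δ)) (r2 := k * y * t) (ρ := k * y * (β * (t ^ 2 + t * δ ^ 2)))
    (ξ := k * y * (β * t * δ)) (bB := k * y * δ) (b := β * t) (t := t)
    (ℓ := prS A g w) (p := k * y * p0)
    (Gd_meas S δ _) ((mulv_ms _) (Gd_meas S δ _)) (prS_meas h.lin A g) (BB_meas h.lin A w)
    ((prS_meas h.lin A g).comp (mulv_ms _)) (XX_meas S β _)
    (h.shf.set (v := vv S t w) (fun x hx => h.vv_out fun hA => hx (h.hA hA))
      (F := fun σ => prS A g (fun x => S.yy (σ x))) (prS_meas h.lin A g) (Gd_meas S δ (cA S A)))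
    (fun σ => by
      refine (pr_le zero_le_one hYb hgA fun x _ => h.lin.yy_bd _).trans ?_
      rw [← hy, one_mul, mul_comm]; gcongr)
    (fun σ => by
      refine (h.B_le' σ).trans ?_
      rw [← hy]
      calc c.Cn * y * (c.Cb * Yb) = (c.Cn * c.Cb * Yb) * y := by ring
        _ ≤ k * y := by gcongr)
    (fun σ hσ => by
      refine (pr_le (b := 4 * δ) zero_le_one (by positivity) hgA fun x hx => ?_).trans ?_
      · have h1 : S.nrm ((vv S t w * σ) x) ≤ 2 * δ := by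
          rw [Pi.mul_apply]
          refine (S.nrm_mul _ _).trans ?_
          have h2 := h.vv_nrm x
          have h3 := hsm σ hσ x hx
          linarith [h.htδ]
        have h4 := S.yy_le _ (h1.trans (by linarith))
        linarith
      · rw [← hy]
        calc y * (1 * (4 * δ)) = 4 * y * δ := by ring
          _ ≤ k * y * δ := by gcongr)
    (fun σ hσ => by
      rw [hpr_sub, hpr_t, hpr_sub]
      refine (pr_le (b := 2 * Cy * (t * δ)) zero_le_one (by positivity) hgA fun x hx =>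
        h.yy_diff (hsm σ hσ x hx)).trans ?_
      rw [← hy]
      calc y * (1 * (2 * Cy * (t * δ))) = (2 * Cy) * y * (t * δ) := by ring
        _ ≤ k * y * (t * δ) := by gcongr; linarith)
    (fun σ hσ => by
      rw [hpr_sub]
      refine (pr_le (b := (1 + 2 * Cy) * t) zero_le_one (by positivity) hgA fun x hx => ?_).trans ?_
      · have h1 := h.yy_diff (hsm σ hσ x hx)
        have h2 : S.yy ((vv S t w * σ) x) - S.yy (σ x) =
            (S.yy ((vv S t w * σ) x) - S.yy (σ x) - t • w x) + t • w x := by abel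
        rw [h2]
        refine (norm_add_le _ _).trans ?_
        have h3 := h.tw x
        have h4 : 2 * Cy * (t * δ) ≤ 2 * Cy * t := by
          have : t * δ ≤ t * 1 := mul_le_mul_of_nonneg_left hδ1 ht.le
          rw [mul_one] at this
          gcongr
        linarith
      · rw [← hy]
        calc y * (1 * ((1 + 2 * Cy) * t)) = (1 + 2 * Cy) * y * t := by ring
          _ ≤ k * y * t := by gcongr)
    hρ hξ' (by rw [← hy] at hξ; exact hξ)
    (fun σ hσ => by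
      refine (h.B_le hσ).trans ?_
      rw [← hy]
      calc c.Cn * y * (c.Cb * (2 * δ)) = (c.Cn * (2 * c.Cb)) * y * δ := by ring
        _ ≤ k * y * δ := by
            have : c.Cn * (2 * c.Cb) ≤ k := by
              refine le_trans ?_ k2
              gcongr
              linarith
            gcongr)
    (mul_nonneg hβ ht.le) ht.le (by positivity) (by positivity) (by positivity) (by positivity)
    (by positivity) (by positivity) (by positivity)
    (by
      refine (measureReal_mono ?_).trans (h.bad_le.trans ?_)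
      · intro σ hσ
        simp only [Gd, Set.mem_compl_iff, Set.mem_ofPred_eq, not_forall, not_le] at hσ
        obtain ⟨x, hx, hxa⟩ := hσ
        exact ⟨x, hx, by linarith⟩
      · refine mul_le_mul_of_nonneg_right ((cA_card S A).trans ?_) hp0
        rw [← hy]; gcongr)
    (by
      refine (measureReal_mono ?_).trans (h.bad_le.trans ?_)
      · intro σ hσ
        simp only [Gd, Set.mem_compl_iff, Set.mem_ofPred_eq, not_forall, not_le] at hσ
        obtain ⟨x, hx, hxa⟩ := hσ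
        refine ⟨x, hx, ?_⟩
        have h1 := S.nrm_mul (((vv S t w)⁻¹) x) (σ x)
        rw [Pi.inv_apply, S.nrm_inv] at h1
        have h2 := h.vv_nrm x
        rw [Pi.mul_apply, Pi.inv_apply] at hxa
        linarith [h.htδ]
      · refine mul_le_mul_of_nonneg_right ((cA_card S A).trans ?_) hp0
        rw [← hy]; gcongr)
  rw [← hy]
  refine core.trans (add_le_add le_rfl ?_)
  have hℓ : |prS A g w| ≤ k * y := by
    refine (pr_le (b := 1) zero_le_one zero_le_one hgA fun x _ => h.w1 x).trans ?_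
    rw [← hy]
    calc y * (1 * 1) = 1 * y := by ring
      _ ≤ k * y := by gcongr; linarith
  refine mul_le_mul_of_nonneg_left ?_ (by positivity)
  have := mul_le_mul_of_nonneg_left hℓ ht.le
  linarith

/-- **Schwinger-Dyson inequality**, the constant observable -/
theorem main1 [MeasurableMul K] (h : Dt S Yb Cy β Q δ t p0 A w) (hp0 : 0 ≤ p0) (hδ1 : δ ≤ 1)
    {k : ℝ} (hk : k = KK c Yb Cy) (hξ : k * A.card * (β * t * δ) ≤ 1) :
    |(β * t) * ∫ σ, BB S A w σ ∂Q| ≤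
      ((k * A.card * (β * t * δ)) ^ 2 + k * A.card * (β * (t ^ 2 + t * δ ^ 2))) +
        (k * A.card * p0) * (2 + (β * t) * (k * A.card)) := by
  haveI := h.shf.prob
  have hδ0 := h.δ0
  have hδ := h.hδ
  have ht := h.ht
  have htδ : t ≤ δ := by linarith [h.htδ]
  have hβ := h.hβ
  have hCb := c.hCb
  have hCT := c.hCT
  have hCn := c.hCn
  have hYb := yb0 h.lin
  have hCy := h.lin.Cy0
  obtain ⟨k1, k2, k3, k4, k5, k6⟩ := KK_facts h.lin
  rw [← hk] at k1 k2 k3 k4 k5 k6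
  obtain ⟨y, hy⟩ : ∃ y : ℝ, y = A.card := ⟨_, rfl⟩
  have hy0 : 0 ≤ y := by rw [hy]; positivity
  have hk0 : 0 ≤ k := by linarith
  have p1 : 0 ≤ β * t * δ := by positivity
  have hρ : ∀ σ ∈ Gd S δ (cA S A), |XX S β (vv S t w) σ - (β * t) * BB S A w σ| ≤
      k * y * (β * (t ^ 2 + t * δ ^ 2)) := by
    intro σ hσ
    refine (h.X_le hσ).trans ?_
    rw [← hy]
    have h1 : c.CT * (t * δ ^ 2) + c.Cb * t ^ 2 ≤ (3 * c.Cb + c.CT) * (t ^ 2 + t * δ ^ 2) := by
      have a1 : 0 ≤ t ^ 2 := by positivity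
      have a2 : 0 ≤ t * δ ^ 2 := by positivity
      nlinarith [mul_nonneg hCb a1, mul_nonneg hCb a2, mul_nonneg hCT a1]
    calc c.Cn * y * (β * (c.CT * (t * δ ^ 2) + c.Cb * t ^ 2)) ≤
          c.Cn * y * (β * ((3 * c.Cb + c.CT) * (t ^ 2 + t * δ ^ 2))) := by gcongr
      _ = (c.Cn * (3 * c.Cb + c.CT)) * y * (β * (t ^ 2 + t * δ ^ 2)) := by ring
      _ ≤ k * y * (β * (t ^ 2 + t * δ ^ 2)) := by gcongr
  have hξ' : ∀ σ ∈ Gd S δ (cA S A), |XX S β (vv S t w) σ| ≤ k * y * (β * t * δ) := by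
    intro σ hσ
    have h1 := h.X_le hσ
    have h2 := h.B_le hσ
    rw [← hy] at h1 h2
    have hb : 0 ≤ β * t := mul_nonneg hβ ht.le
    have e : XX S β (vv S t w) σ = (β * t) * BB S A w σ +
        (XX S β (vv S t w) σ - (β * t) * BB S A w σ) := by ring
    rw [e]
    refine (abs_add_le _ _).trans ?_
    rw [abs_mul, abs_of_nonneg hb]
    have h3 := mul_le_mul_of_nonneg_left h2 hb
    have h4 : c.CT * (t * δ ^ 2) + c.Cb * t ^ 2 ≤ (c.CT + c.Cb) * (t * δ) := by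
      have a1 : t ^ 2 ≤ t * δ := by nlinarith
      have a2 : t * δ ^ 2 ≤ t * δ := by
        have : δ ^ 2 ≤ δ := by nlinarith
        exact mul_le_mul_of_nonneg_left this ht.le
      nlinarith [mul_le_mul_of_nonneg_left a1 hCb, mul_le_mul_of_nonneg_left a2 hCT]
    have h5 : c.Cn * y * (β * (c.CT * (t * δ ^ 2) + c.Cb * t ^ 2)) ≤
        c.Cn * y * (β * ((c.CT + c.Cb) * (t * δ))) := by gcongr
    calc _ ≤ (β * t) * (c.Cn * y * (c.Cb * (2 * δ))) +
          c.Cn * y * (β * ((c.CT + c.Cb) * (t * δ))) := add_le_add h3 (h1.trans h5)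
      _ = (c.Cn * (3 * c.Cb + c.CT)) * y * (β * t * δ) := by ring
      _ ≤ _ := by gcongr
  have core := sd_core (μ := Q) (F := fun _ => (1 : ℝ))
    (F' := fun _ => (1 : ℝ)) (B := BB S A w)
    (X := XX S β (vv S t w))
    (Gd := Gd S δ (cA S A)) (Gd' := {σ : ι → K | (vv S t w)⁻¹ * σ ∈ Gd S δ (cA S A)})
    (M := 1) (MB := k * y) (m := 1)
    (r1 := 0) (r2 := 0) (ρ := k * y * (β * (t ^ 2 + t * δ ^ 2)))
    (ξ := k * y * (β * t * δ)) (bB := k * y * δ) (b := β * t) (t := t)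
    (ℓ := 0) (p := k * y * p0)
    (Gd_meas S δ _) ((mulv_ms _) (Gd_meas S δ _)) measurable_const (BB_meas h.lin A w)
    measurable_const (XX_meas S β _)
    (h.shf.set (v := vv S t w) (fun x hx => h.vv_out fun hA => hx (h.hA hA))
      (F := fun _ => (1 : ℝ)) measurable_const (Gd_meas S δ (cA S A)))
    (fun _ => by simp)
    (fun σ => by
      refine (h.B_le' σ).trans ?_
      rw [← hy]
      calc c.Cn * y * (c.Cb * Yb) = (c.Cn * c.Cb * Yb) * y := by ring
        _ ≤ k * y := by gcongr)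
    (fun _ _ => by simp) (fun _ _ => by simp) (fun _ _ => by simp)
    hρ hξ' (by rw [← hy] at hξ; exact hξ)
    (fun σ hσ => by
      refine (h.B_le hσ).trans ?_
      rw [← hy]
      calc c.Cn * y * (c.Cb * (2 * δ)) = (c.Cn * (2 * c.Cb)) * y * δ := by ring
        _ ≤ k * y * δ := by
            have : c.Cn * (2 * c.Cb) ≤ k := by
              refine le_trans ?_ k2
              gcongr
              linarith
            gcongr)
    (mul_nonneg hβ ht.le) ht.le zero_le_one (by positivity) zero_le_one le_rfl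
    le_rfl (by positivity) (by positivity)
    (by
      refine (measureReal_mono ?_).trans (h.bad_le.trans ?_)
      · intro σ hσ
        simp only [Gd, Set.mem_compl_iff, Set.mem_ofPred_eq, not_forall, not_le] at hσ
        obtain ⟨x, hx, hxa⟩ := hσ
        exact ⟨x, hx, by linarith⟩
      · refine mul_le_mul_of_nonneg_right ((cA_card S A).trans ?_) hp0
        rw [← hy]; gcongr)
    (by
      refine (measureReal_mono ?_).trans (h.bad_le.trans ?_)
      · intro σ hσ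
        simp only [Gd, Set.mem_compl_iff, Set.mem_ofPred_eq, not_forall, not_le] at hσ
        obtain ⟨x, hx, hxa⟩ := hσ
        refine ⟨x, hx, ?_⟩
        have h1 := S.nrm_mul (((vv S t w)⁻¹) x) (σ x)
        rw [Pi.inv_apply, S.nrm_inv] at h1
        have h2 := h.vv_nrm x
        rw [Pi.mul_apply, Pi.inv_apply] at hxa
        linarith [h.htδ]
      · refine mul_le_mul_of_nonneg_right ((cA_card S A).trans ?_) hp0
        rw [← hy]; gcongr)
  rw [← hy]
  simp only [one_mul, mul_zero, abs_zero, sub_zero, zero_mul, add_zero] at core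
  refine core.trans (le_of_eq ?_)
  ring

end Dt

/-- the hypotheses on the state at the coupling `β` -/
structure Stt (S : Sys ι τ K W W ν c) (e β : ℝ) (Q : Measure (ι → K)) : Prop where
  shf : Shf S β Q
  mb : ∀ y, Q.real {σ : ι → K | β ^ (-1 / 2 + e) / 2 < S.nrm (σ y)} ≤ Real.exp (-β ^ (e / 2))

/-- **The Schwinger-Dyson limit for systems.** -/
theorem sd_lim [MeasurableMul K] (c : Cst) (Yb Cy : ℝ) {e : ℝ} (he : 0 < e) (he2 : e ≤ 1 / 10) :
    ∃ β₀ ≥ (1 : ℝ), ∀ β ≥ β₀, ∀ S : Sys ι τ K W W ν c, Lin S Yb Cy → ∀ Q : Measure (ι → K),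
      Stt S e β Q → ∀ (A : Finset ι) (w g : ι → W), A ⊆ S.Lam → (A.card : ℝ) ≤ β ^ (e / 16) →
      (∀ x, ‖w x‖ ≤ 1) → (∀ x, x ∉ A → w x = 0) → (∀ x, ‖g x‖ ≤ 1) →
      |β * ∫ σ, prS A g (fun x => S.yy (σ x)) * Dt.BB S A w σ ∂Q - prS A g w| ≤ β ^ (-(e / 4)) ∧
      |β * ∫ σ, Dt.BB S A w σ ∂Q| ≤ β ^ (1 / 2 - e) := by
  by_cases hex : ∃ S : Sys ι τ K W W ν c, Lin S Yb Cy
  swap
  · refine ⟨1, le_rfl, fun β hβ S hS => absurd ⟨S, hS⟩ hex⟩
  obtain ⟨S0, hS0⟩ := hex
  obtain ⟨k1, -⟩ := Dt.KK_facts hS0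
  have hr0 := c.hr0
  have hr1 := c.hr1
  obtain ⟨β₀, hβ₀, H⟩ := asymG (KK c Yb Cy) (c.r0 / 4) (by linarith) (by positivity) he he2
  refine ⟨β₀, hβ₀, fun β hβ S hS Q hQ A w g hA hcard hw1 hw0 hg => ?_⟩
  obtain ⟨t0, t1, t2, t3, t4, t5⟩ := H β hβ A.card (Nat.cast_nonneg _) hcard _ _ _ rfl rfl rfl
  have hβ1 : 1 ≤ β := hβ₀.trans hβ
  set δ := β ^ (-1 / 2 + e) with hδ
  set t := β ^ (-1 / 2 - 4 * e) with ht
  have hd : Dt S Yb Cy β Q δ t (Real.exp (-β ^ (e / 2))) A w :=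
    ⟨hS, hQ.shf, by linarith, t0, t1, by linarith, hA, hw1, hw0, fun y _ => hQ.mb y⟩
  have m1 := (hd.main hg (Real.exp_pos _).le (by linarith) rfl t3).trans t4
  have m2 := (hd.main1 (Real.exp_pos _).le (by linarith) rfl t3).trans t5
  constructor
  · have e1 : (β * t) * ∫ σ, prS A g (fun x => S.yy (σ x)) * Dt.BB S A w σ ∂Q - t * prS A g w =
        t * (β * ∫ σ, prS A g (fun x => S.yy (σ x)) * Dt.BB S A w σ ∂Q - prS A g w) := by ring
    rw [e1, abs_mul, abs_of_pos t0] at m1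
    exact le_of_mul_le_mul_left m1 t0
  · have e1 : (β * t) * ∫ σ, Dt.BB S A w σ ∂Q = t * (β * ∫ σ, Dt.BB S A w σ ∂Q) := by ring
    rw [e1, abs_mul, abs_of_pos t0] at m2
    exact le_of_mul_le_mul_left m2 t0

end

end Pool.Agent.N109.SDS
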