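import Pool.Agent.N109.SDS.RatioNl
import Pool.Agent.N109.Slab.Bound
import Pool.Agent.N986.PB.SysDecay

/-!
# The Gibbs measures of a system satisfy the hypotheses
-/

set_option autoImplicit false
set_option linter.unusedSectionVars false
set_option linter.unusedVariables false
set_option linter.style.haveILetI false

open MeasureTheory Finset Filter Function
open scoped ENNReal Classical

namespace Pool.Agent.N109.SDS

open Pool.Agent.N990.Mach Pool.Agent.N109.Slab Pool.Agent.N986.PB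

noncomputable section

variable {ι ρ K W : Type} [Group K] [MeasurableSpace K] [NormedAddCommGroup W]
  [InnerProductSpace ℝ W] {ν : Measure K} {c : Cst}

/-- the Gibbs measure in `Lam` with the boundary condition `1` -/
def gib (S : Sys ι ρ K W W ν c) (β : ℝ) : Measure (ι → K) :=
  (In ν S.Lam (S.w β) 1)⁻¹ • (((Measure.pi fun _ : S.Lam => ν).map
    (fun y : S.Lam → K => Function.updateFinset (1 : ι → K) S.Lam y)).withDensity (S.w β))

lemma w_meas (S : Sys ι ρ K W W ν c) (β : ℝ) : Measurable (S.w β) := by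
  unfold Sys.w
  exact ENNReal.measurable_ofReal.comp (Real.measurable_exp.comp ((S.H_meas.const_mul β).neg))

lemma lint_gib [SigmaFinite ν] (S : Sys ι ρ K W W ν c) (β : ℝ) {f : (ι → K) → ℝ≥0∞}
    (hf : Measurable f) : ∫⁻ σ, f σ ∂(gib S β) = ev ν (S.w β) S.Lam f 1 := by
  unfold gib ev
  rw [lintegral_smul_measure, lintegral_withDensity_eq_lintegral_mul _ (w_meas S β) hf,
    lintegral_map ((w_meas S β).mul hf) measurable_updateFinset]
  rw [smul_eq_mul, mul_comm, ← div_eq_mul_inv]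
  rfl

variable [IsProbabilityMeasure ν] [ν.IsMulLeftInvariant] [MeasurableMul K]

lemma gib_prob (S : Sys ι ρ K W W ν c) (β : ℝ) : IsProbabilityMeasure (gib S β) := by
  refine ⟨?_⟩
  have hw := S.good (IsProbabilityMeasure.ne_zero ν) β
  rw [← lintegral_one, lint_gib S β measurable_const]
  exact ev_one hw _ _

/-- the shift identity -/
theorem gib_shf (S : Sys ι ρ K W W ν c) (β : ℝ) : Shf S β (gib S β) := by
  have hw := S.good (IsProbabilityMeasure.ne_zero ν) β
  refine ⟨gib_prob S β, fun v hv F hF => ?_⟩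
  have mX : Measurable fun σ : ι → K =>
      ENNReal.ofReal (Real.exp (-(β * (S.H (v * σ) - S.H σ)))) :=
    ENNReal.measurable_ofReal.comp (Real.measurable_exp.comp
      ((((S.H_meas.comp (mulv_ms v)).sub S.H_meas).const_mul β).neg))
  rw [lint_gib S β hF]
  refine Eq.trans ?_ (lint_gib S β ((hF.comp (mulv_ms v)).mul mX)).symm
  unfold ev
  congr 1
  have e1 : (fun φ : ι → K => S.w β φ * (F (v * φ) *
      ENNReal.ofReal (Real.exp (-(β * (S.H (v * φ) - S.H φ)))))) =
      fun φ => (fun φ' => S.w β φ' * F φ') (v * φ) := by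
    funext φ
    have h1 : S.w β φ * ENNReal.ofReal (Real.exp (-(β * (S.H (v * φ) - S.H φ)))) =
        S.w β (v * φ) := by
      unfold Sys.w
      rw [← ENNReal.ofReal_mul (Real.exp_pos _).le, ← Real.exp_add]
      congr 2; ring
    calc _ = (S.w β φ * ENNReal.ofReal (Real.exp (-(β * (S.H (v * φ) - S.H φ))))) *
          F (v * φ) := by ring
      _ = _ := by rw [h1]
  have e2 : In ν S.Lam (fun φ => (fun φ' => S.w β φ' * F φ') (v * φ)) 1 =
      In ν S.Lam (fun φ => S.w β φ * F φ) (v * 1) :=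
    (In_shift' (ν := ν) S.Lam (fun φ' => S.w β φ' * F φ') v 1).symm
  have e3 : In ν S.Lam (fun φ => S.w β φ * F φ) (v * 1) =
      In ν S.Lam (fun φ => S.w β φ * F φ) 1 := by
    refine In_congr _ fun i hi => ?_
    rw [mul_one, hv i hi]; rfl
  rw [← e3, ← e2]
  congr 1
  exact e1.symm

/-- spins are small -/
theorem gib_stt (c : Cst) {e : ℝ} (he : 0 < e) (he2 : e ≤ 1 / 10) :
    ∃ β₀ ≥ (1 : ℝ), ∀ β ≥ β₀, ∀ (ι ρ : Type) (S : Sys ι ρ K W W ν c), Stt S e β (gib S β) := by
  obtain ⟨k₀, hk₀, H⟩ := small2 (Y := W) (V := W) (ν := ν) (c := c)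
  obtain ⟨β₁, hβ₁, H1⟩ := H (e / 2) (3 * e / 4) (by linarith) (by linarith)
  have B1 := evr (a := e / 4) (b := 0) 2 (by linarith)
  obtain ⟨β₂, hβ₂⟩ := Filter.eventually_atTop.1 B1
  refine ⟨max β₁ β₂, hβ₁.trans (le_max_left _ _), fun β hβ ι ρ S => ⟨gib_shf S β, fun y => ?_⟩⟩
  have hβ1 : 1 ≤ β := hβ₁.trans ((le_max_left _ _).trans hβ)
  have hβ0 : 0 < β := by linarith
  have a1 := hβ₂ β ((le_max_right _ _).trans hβ)
  rw [Real.rpow_zero, mul_one] at a1
  haveI := gib_prob S β
  have hms : MeasurableSet {σ : ι → K | β ^ (-1 / 2 + e) / 2 < S.nrm (σ y)} :=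
    (S.nrm_meas.comp (measurable_pi_apply y)) measurableSet_Ioi
  have mI : Measurable (ind fun φ : ι → K => β ^ (-1 / 2 + e) / 2 < S.nrm (φ y)) := ind_meas hms
  have e1 : gib S β {σ : ι → K | β ^ (-1 / 2 + e) / 2 < S.nrm (σ y)} =
      ev ν (S.w β) S.Lam (ind fun φ => β ^ (-1 / 2 + e) / 2 < S.nrm (φ y)) 1 := by
    rw [← lint_gib S β mI, ← lintegral_indicator_one hms]
    refine lintegral_congr fun σ => ?_
    unfold ind Set.indicator
    simp
  have hw := S.good (IsProbabilityMeasure.ne_zero ν) β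
  have hpow : β ^ (-1 / 2 + 3 * e / 4) ≤ β ^ (-1 / 2 + e) / 2 := by
    have h1 : β ^ (-1 / 2 + e) = β ^ (e / 4) * β ^ (-1 / 2 + 3 * e / 4) := by
      rw [← Real.rpow_add hβ0]; congr 1; ring
    have h2 := Real.rpow_nonneg hβ0.le (-1 / 2 + 3 * e / 4)
    rw [h1, le_div_iff₀ (by norm_num)]
    nlinarith
  have e2 : ev ν (S.w β) S.Lam (ind fun φ => β ^ (-1 / 2 + e) / 2 < S.nrm (φ y)) 1 ≤
      ENNReal.ofReal (Real.exp (-β ^ (e / 2))) := by
    by_cases hy : y ∈ S.Lam
    · have h1 := H1 β ((le_max_left _ _).trans hβ) ι ρ S S.Lam (Finset.Subset.refl _) y hy 1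
        fun x _ _ => by
          show S.nrm 1 ≤ _
          rw [S.nrm_one]; exact Real.rpow_nonneg hβ0.le _
      refine (ev_mono hw fun φ => ?_).trans (h1.trans (ENNReal.ofReal_le_ofReal
        (Real.exp_le_exp.2 (neg_le_neg ?_))))
      · unfold ind
        split_ifs with h2 h3 h3
        · exact le_rfl
        · exact absurd (hpow.trans_lt h2) h3
        · exact zero_le_one
        · exact le_rfl
      · exact Real.rpow_le_rpow_of_exponent_le hβ1 (by linarith)
    · have h1 : ev ν (S.w β) S.Lam (ind fun φ => β ^ (-1 / 2 + e) / 2 < S.nrm (φ y)) 1 = 0 := by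
        refine ev_const hw fun φ hφ => ?_
        unfold ind
        rw [if_neg]
        show ¬ β ^ (-1 / 2 + e) / 2 < S.nrm (φ y)
        rw [hφ y hy]
        show ¬ _ < S.nrm 1
        rw [S.nrm_one, not_lt]
        have := Real.rpow_nonneg hβ0.le (-1 / 2 + e)
        positivity
      rw [h1]; exact bot_le
  rw [measureReal_def, e1]
  have h3 := ENNReal.toReal_mono ENNReal.ofReal_ne_top e2
  rwa [ENNReal.toReal_ofReal (Real.exp_pos _).le] at h3

end

end Pool.Agent.N109.SDS
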