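import Pool.Agent.N109.Slab.Soft
import Pool.Agent.N109.SDS.Core

/-!
# Green functions with exponential decay for systems of the machine
-/

set_option autoImplicit false
set_option linter.unusedSectionVars false
set_option linter.unusedVariables false
set_option linter.style.haveILetI false

open MeasureTheory Finset Filter Function
open scoped ENNReal Classical

namespace Pool.Agent.N109.Soft

open Pool.Agent.N990.Mach

noncomputable section

variable {ι τ V : Type*} [NormedAddCommGroup V] [NormedSpace ℝ V] [FiniteDimensional ℝ V]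
variable {c0 Cb Cn : ℝ}

/-- solvability -/
lemma Dat.exists_sol_gen (S : Dat ι τ V c0 Cb Cn) (h0 : 0 < c0) {A : Finset ι} (hA : A ⊆ S.Lam)
    (ℓ : (ι → V) →ₗ[ℝ] ℝ) : ∃ k : ι → V, (∀ x, x ∉ A → k x = 0) ∧
      ∀ χ : ι → V, (∀ x, x ∉ A → χ x = 0) → S.B A χ k = ℓ χ := by
  let W := A → V
  let Φ : W →ₗ[ℝ] Module.Dual ℝ W := ((S.B A).compl₁₂ (extL V A) (extL V A)).flip
  have hΦ : ∀ u v, Φ u v = S.B A (extL V A v) (extL V A u) := fun u v => rfl
  have hinj : Function.Injective Φ := by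
    rw [← LinearMap.ker_eq_bot, LinearMap.ker_eq_bot']
    intro u hu
    have h1 : S.B A (extL V A u) (extL V A u) = 0 := by rw [← hΦ, hu]; rfl
    have h2 := S.coer A hA (extL V A u) (fun x hx => extL_out u hx)
    rw [← S.B_apply, h1] at h2
    have h3 : ∑ x ∈ A, ‖extL V A u x‖ ^ 2 = 0 := by
      have h4 : 0 ≤ ∑ x ∈ A, ‖extL V A u x‖ ^ 2 := Finset.sum_nonneg fun _ _ => by positivity
      nlinarith
    rw [Finset.sum_eq_zero_iff_of_nonneg (fun _ _ => by positivity)] at h3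
    funext x
    have h5 := h3 x.1 x.2
    rw [extL_mem u x.2] at h5
    have h6 : u x = 0 := by simpa using h5
    exact h6
  have hsurj : Function.Surjective Φ :=
    (LinearMap.injective_iff_surjective_of_finrank_eq_finrank
      (Subspace.dual_finrank_eq).symm).1 hinj
  obtain ⟨u, hu⟩ := hsurj (ℓ ∘ₗ extL V A)
  refine ⟨extL V A u, fun x hx => extL_out u hx, fun χ hχ => ?_⟩
  have h1 : Φ u (fun x => χ x.1) = ℓ χ := by
    rw [hu]
    simp only [LinearMap.coe_comp, Function.comp_apply]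
    rw [extL_restr hχ]
  rw [hΦ, extL_restr hχ] at h1
  exact h1

/-- decay of the response to a source at `x0` -/
lemma Dat.decay_gen (S : Dat ι τ V c0 Cb Cn) (h0 : 0 < c0) (hb : 0 ≤ Cb) (hn : 1 ≤ Cn)
    {A : Finset ι} (hA : A ⊆ S.Lam) (x0 : ι) {C1 : ℝ} (hC1 : 0 ≤ C1) (k : ι → V)
    (hk : ∀ x, x ∉ A → k x = 0)
    (hk2 : ∀ χ : ι → V, (∀ x, x ∉ A → χ x = 0) → |S.B A χ k| ≤ C1 * ‖χ x0‖)
    (y : ι) : ‖k y‖ ≤ 2 * C1 / c0 * Real.exp (-(al c0 Cb Cn * S.d y x0)) := by
  set a := al c0 Cb Cn with ha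
  have ha0 : 0 < a := al_pos h0 hb hn
  set q := Real.exp a with hq
  have hq1 : 1 ≤ q := Real.one_le_exp ha0.le
  have hq0 : 0 < q := Real.exp_pos _
  -- the weight
  set T : ι → ℝ := fun x => Real.exp (a * S.d x0 x) with hT
  have hTpos : ∀ x, 0 < T x := fun x => Real.exp_pos _
  have hTle : ∀ t ∈ S.T, ∀ x ∈ S.sp t, ∀ y ∈ S.sp t, T x ≤ q * T y := by
    intro t ht x hx y hy
    rw [hT, hq]
    simp only
    rw [← Real.exp_add]
    apply Real.exp_le_exp.2
    have h1 : (S.d x0 x : ℝ) ≤ S.d x0 y + 1 := by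
      have := S.dtri x0 y x
      have h2 := S.diam t ht y hy x hx
      exact_mod_cast this.trans (by omega)
    nlinarith
  set u : ι → V := fun x => T x • k x with hu
  have hu0 : ∀ x, x ∉ A → u x = 0 := fun x hx => by rw [hu]; simp [hk x hx]
  set χ : ι → V := fun x => T x • u x with hχ
  have hχ0 : ∀ x, x ∉ A → χ x = 0 := fun x hx => by rw [hχ]; simp [hu0 x hx]
  set Q : ℝ := ∑ x ∈ A, ‖u x‖ ^ 2 with hQ
  have hQ0 : 0 ≤ Q := Finset.sum_nonneg fun _ _ => by positivity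
  set s : ℝ := Real.sqrt Q with hs
  have hs0 : 0 ≤ s := Real.sqrt_nonneg _
  have hsQ : s ^ 2 = Q := Real.sq_sqrt hQ0
  have hle : ∀ x, ‖u x‖ ≤ s := by
    intro x
    by_cases hx : x ∈ A
    · rw [hs]
      apply Real.le_sqrt_of_sq_le
      exact Finset.single_le_sum (f := fun x => ‖u x‖ ^ 2) (fun _ _ => by positivity) hx
    · rw [hu0 x hx]; simpa using hs0
  -- the comparison term by term
  have hterm : ∀ t ∈ tch S.T S.sp A, S.b t u u - 2 * Cb * ((q - 1) * q) * ∑ x ∈ S.sp t, ‖u x‖ ^ 2 ≤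
      S.b t χ k := by
    intro t ht
    have htT : t ∈ S.T := by unfold tch at ht; exact (Finset.mem_filter.1 ht).1
    have hne : ¬Disjoint (S.sp t) A := by unfold tch at ht; exact (Finset.mem_filter.1 ht).2
    obtain ⟨p, hp, -⟩ := Finset.not_disjoint_iff.1 hne
    set m : ℝ := Real.sqrt (∑ x ∈ S.sp t, ‖u x‖ ^ 2) with hm
    have hm0 : 0 ≤ m := Real.sqrt_nonneg _
    have hm2 : m ^ 2 = ∑ x ∈ S.sp t, ‖u x‖ ^ 2 :=
      Real.sq_sqrt (Finset.sum_nonneg fun _ _ => by positivity)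
    have hum : ∀ x ∈ S.sp t, ‖u x‖ ≤ m := by
      intro x hx
      apply Real.le_sqrt_of_sq_le
      exact Finset.single_le_sum (f := fun x => ‖u x‖ ^ 2) (fun _ _ => by positivity) hx
    have hdiff : ∀ x ∈ S.sp t, |T x - T p| ≤ (q - 1) * T p := by
      intro x hx
      have h1 := hTle t htT x hx p hp
      have h2 := hTle t htT p hp x hx
      rw [abs_le]
      constructor
      · -- T p - T x ≤ (q-1) T p
        have h3 : T p ≤ q * T x := h2
        have hpp := hTpos p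
        have hxx := hTpos x
        -- T x ≥ T p / q ≥ (2 - q) T p
        have h4 : (2 - q) * q ≤ 1 := by nlinarith [sq_nonneg (q - 1)]
        by_contra hcon
        push Not at hcon
        have h5 : T x < (2 - q) * T p := by linarith
        have h6 : q * T x < q * ((2 - q) * T p) := mul_lt_mul_of_pos_left h5 hq0
        nlinarith
      · linarith
    have hkx : ∀ x ∈ S.sp t, T p * ‖k x‖ ≤ q * m := by
      intro x hx
      have h2 := hTle t htT p hp x hx
      have h3 : ‖u x‖ = T x * ‖k x‖ := by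
        rw [hu]; simp only; rw [norm_smul, Real.norm_eq_abs, abs_of_pos (hTpos x)]
      calc T p * ‖k x‖ ≤ (q * T x) * ‖k x‖ := mul_le_mul_of_nonneg_right h2 (norm_nonneg _)
        _ = q * ‖u x‖ := by rw [h3]; ring
        _ ≤ q * m := mul_le_mul_of_nonneg_left (hum x hx) hq0.le
    have e1 : S.b t χ k = S.b t u u + S.b t (fun x => (T x - T p) • u x) k +
        S.b t u (fun x => (T p - T x) • k x) := by
      have a1 : χ = (fun x => (T x - T p) • u x) + T p • u := by
        funext x; rw [hχ]; simp only [Pi.add_apply, Pi.smul_apply]; rw [← add_smul]; congr 1; ring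
      have a2 : (fun x => (T p - T x) • k x) = T p • k - u := by
        funext x; rw [hu]; simp only [Pi.sub_apply, Pi.smul_apply]; rw [sub_smul]
      rw [a1, a2]
      simp only [map_add, LinearMap.add_apply, map_smul, LinearMap.smul_apply, map_sub, smul_eq_mul]
      ring
    have hq10 : 0 ≤ q - 1 := by linarith
    have e2 : |S.b t (fun x => (T x - T p) • u x) k| ≤ Cb * ((q - 1) * T p * m) * (q * m / T p) := by
      refine S.b_bd t htT _ _ _ _ (fun x hx => ?_) (fun x hx => ?_)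
      · rw [norm_smul, Real.norm_eq_abs]
        exact mul_le_mul (hdiff x hx) (hum x hx) (norm_nonneg _)
          (mul_nonneg hq10 (hTpos p).le)
      · rw [le_div_iff₀ (hTpos p)]
        linarith [hkx x hx]
    have e3 : |S.b t u (fun x => (T p - T x) • k x)| ≤ Cb * m * ((q - 1) * (q * m)) := by
      refine S.b_bd t htT _ _ _ _ (fun x hx => hum x hx) (fun x hx => ?_)
      rw [norm_smul, Real.norm_eq_abs, abs_sub_comm]
      calc |T x - T p| * ‖k x‖ ≤ ((q - 1) * T p) * ‖k x‖ :=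
            mul_le_mul_of_nonneg_right (hdiff x hx) (norm_nonneg _)
        _ = (q - 1) * (T p * ‖k x‖) := by ring
        _ ≤ (q - 1) * (q * m) := mul_le_mul_of_nonneg_left (hkx x hx) hq10
    have e4 : Cb * ((q - 1) * T p * m) * (q * m / T p) = Cb * ((q - 1) * q) * m ^ 2 := by
      have := (hTpos p).ne'
      field_simp
    have e5 : Cb * m * ((q - 1) * (q * m)) = Cb * ((q - 1) * q) * m ^ 2 := by ring
    rw [e4] at e2
    rw [e5] at e3
    rw [e1, ← hm2]
    have := neg_abs_le (S.b t (fun x => (T x - T p) • u x) k)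
    have := neg_abs_le (S.b t u (fun x => (T p - T x) • k x))
    nlinarith
  -- summation
  have hsum : c0 / 2 * Q ≤ S.B A χ k := by
    rw [S.B_apply]
    have h1 := Finset.sum_le_sum hterm
    rw [Finset.sum_sub_distrib, ← Finset.mul_sum] at h1
    have h2 := S.coer A hA u hu0
    have h3 := S.sum_sq A (fun x => ‖u x‖) (fun x hx => by rw [hu0 x hx, norm_zero])
    have h4 := al_small h0 hb hn
    rw [← ha, ← hq] at h4
    have h5 : 2 * Cb * ((q - 1) * q) * ∑ t ∈ tch S.T S.sp A, ∑ x ∈ S.sp t, ‖u x‖ ^ 2 ≤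
        c0 / 2 * Q := by
      have hc : 0 ≤ 2 * Cb * ((q - 1) * q) := by
        have : 0 ≤ q - 1 := by linarith
        positivity
      calc 2 * Cb * ((q - 1) * q) * ∑ t ∈ tch S.T S.sp A, ∑ x ∈ S.sp t, ‖u x‖ ^ 2 ≤
            2 * Cb * ((q - 1) * q) * (Cn * Q) := mul_le_mul_of_nonneg_left h3 hc
        _ = (2 * Cb * Cn * ((q - 1) * q)) * Q := by ring
        _ ≤ c0 / 2 * Q := mul_le_mul_of_nonneg_right h4 hQ0
    linarith
  -- the right hand side
  have hT0 : T x0 = 1 := by rw [hT]; simp [S.dself]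
  have hrhs : |S.B A χ k| ≤ C1 * s := by
    refine (hk2 χ hχ0).trans (mul_le_mul_of_nonneg_left ?_ hC1)
    rw [hχ]; simp only
    rw [hT0, one_smul]
    exact hle x0
  have h1 : c0 / 2 * s ^ 2 ≤ C1 * s := by
    rw [hsQ]
    exact hsum.trans ((le_abs_self _).trans hrhs)
  have h2 : s ≤ 2 * C1 / c0 := by
    rcases hs0.eq_or_lt with h | h
    · rw [← h]; positivity
    · have h3 : c0 / 2 * s ≤ C1 := by
        refine le_of_mul_le_mul_right ?_ h
        calc c0 / 2 * s * s = c0 / 2 * s ^ 2 := by ring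
          _ ≤ _ := h1
      rw [le_div_iff₀ h0]
      linarith
  have h3 : T y * ‖k y‖ ≤ s := by
    have := hle y
    rw [hu] at this
    simp only at this
    rwa [norm_smul, Real.norm_eq_abs, abs_of_pos (hTpos y)] at this
  have h4 : ‖k y‖ ≤ Real.exp (-(a * S.d y x0)) * s := by
    have h5 : (T y)⁻¹ = Real.exp (-(a * S.d y x0)) := by
      rw [hT]; simp only; rw [← Real.exp_neg, S.dsymm x0 y]
    rw [← h5]
    calc ‖k y‖ = (T y)⁻¹ * (T y * ‖k y‖) := by
          have := (hTpos y).ne'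
          field_simp
      _ ≤ (T y)⁻¹ * s := mul_le_mul_of_nonneg_left h3 (inv_nonneg.2 (hTpos y).le)
  calc ‖k y‖ ≤ Real.exp (-(a * S.d y x0)) * s := h4
    _ ≤ Real.exp (-(a * S.d y x0)) * (2 * C1 / c0) :=
        mul_le_mul_of_nonneg_left h2 (Real.exp_pos _).le
    _ = _ := mul_comm _ _

end

end Pool.Agent.N109.Soft

namespace Pool.Agent.N109.SDS

open Pool.Agent.N990.Mach Pool.Agent.N109.Slab

noncomputable section

variable {ι τ K W : Type*} [Group K] [MeasurableSpace K] [NormedAddCommGroup W]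
  [InnerProductSpace ℝ W] [FiniteDimensional ℝ W] {ν : Measure K} {c : Cst}

/-- coercivity of the quadratic form -/
def Coer (S : Sys ι τ K W W ν c) (cq : ℝ) : Prop :=
  ∀ A ⊆ S.Lam, ∀ φ : ι → W, (∀ y, y ∉ A → φ y = 0) →
    cq * ∑ x ∈ A, ‖φ x‖ ^ 2 ≤ ∑ t ∈ tch S.T S.sp A, S.b t φ φ

/-- the data of the soft decay -/
def toDat {S : Sys ι τ K W W ν c} {Yb Cy cq : ℝ} (h : Lin S Yb Cy) (hc : Coer S cq) :
    Soft.Dat ι τ W cq c.Cb c.Cn where
  d := S.d
  dself := S.dself
  dsymm := S.dsymm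
  dtri := S.dtri
  Lam := S.Lam
  T := S.T
  sp := S.sp
  diam := S.diam
  tcard := S.tcard
  b := fun t => LinearMap.mk₂ ℝ (S.b t) (S.b_add t) (h.b_smul_left t) (h.b_add_right t)
    (h.b_smul_right t)
  b_bd := S.b_bd
  coer := hc

/-- **Green functions**: the solution with source `g` in `A0`. -/
lemma exists_green {S : Sys ι τ K W W ν c} {Yb Cy cq : ℝ} (h : Lin S Yb Cy) (hc : Coer S cq)
    (hcq : 0 < cq) {A0 A : Finset ι} (hA0 : A0 ⊆ A) (hA : A ⊆ S.Lam) {g : ι → W}
    (hg0 : ∀ x, x ∉ A0 → g x = 0) (hg1 : ∀ x, ‖g x‖ ≤ 1) :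
    ∃ ω : ι → W, (∀ x, x ∉ A → ω x = 0) ∧
      (∀ χ : ι → W, (∀ x, x ∉ A → χ x = 0) → ∑ t ∈ tch S.T S.sp A, S.b t χ ω = prS A g χ) ∧
      (∀ (r : ℕ) (x : ι), (∀ y ∈ A0, r ≤ S.d x y) →
        ‖ω x‖ ≤ A0.card * (2 / cq) * Real.exp (-(Soft.al cq c.Cb c.Cn * r))) := by
  have hal := Soft.al_pos hcq c.hCb c.hCn
  have hpt : ∀ y : ι, ∃ k : ι → W, (∀ x, x ∉ A → k x = 0) ∧
      (∀ χ : ι → W, (∀ x, x ∉ A → χ x = 0) → (toDat h hc).B A χ k = inner ℝ (g y) (χ y)) ∧
      ∀ x, ‖k x‖ ≤ 2 * 1 / cq * Real.exp (-(Soft.al cq c.Cb c.Cn * S.d x y)) := by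
    intro y
    obtain ⟨k, hk, hk2⟩ := (toDat h hc).exists_sol_gen hcq hA
      ((innerSL ℝ (g y)).toLinearMap ∘ₗ (LinearMap.proj y : (ι → W) →ₗ[ℝ] W))
    refine ⟨k, hk, hk2, fun x => ?_⟩
    refine (toDat h hc).decay_gen hcq c.hCb c.hCn hA y zero_le_one k hk (fun χ hχ => ?_) x
    rw [hk2 χ hχ]
    show |inner ℝ (g y) (χ y)| ≤ _
    exact (abs_real_inner_le_norm _ _).trans (mul_le_mul_of_nonneg_right (hg1 y) (norm_nonneg _))
  choose k hk1 hk2 hk3 using hpt
  refine ⟨∑ y ∈ A0, k y, fun x hx => ?_, fun χ hχ => ?_, fun r x hr => ?_⟩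
  · rw [Finset.sum_apply]
    exact Finset.sum_eq_zero fun y _ => hk1 y x hx
  · have e1 : ∑ t ∈ tch S.T S.sp A, S.b t χ (∑ y ∈ A0, k y) =
        (toDat h hc).B A χ (∑ y ∈ A0, k y) := ((toDat h hc).B_apply A χ _).symm
    rw [e1, map_sum]
    simp only [hk2 _ χ hχ]
    unfold prS
    exact Finset.sum_subset hA0 fun x _ hx => by rw [hg0 x hx, inner_zero_left]
  · rw [Finset.sum_apply]
    refine (norm_sum_le _ _).trans ((Finset.sum_le_sum (g := fun _ => 2 / cq *
      Real.exp (-(Soft.al cq c.Cb c.Cn * r))) fun y hy => ?_).trans ?_)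
    · refine (hk3 y x).trans ?_
      rw [mul_one]
      refine mul_le_mul_of_nonneg_left ?_ (by positivity)
      apply Real.exp_le_exp.2
      have h1 : (r : ℝ) ≤ S.d x y := by exact_mod_cast hr y hy
      have := mul_le_mul_of_nonneg_left h1 hal.le
      linarith
    · rw [Finset.sum_const, nsmul_eq_mul]
      exact le_of_eq (by ring)

end

end Pool.Agent.N109.SDS
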