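import Pool.Agent.N109.SDS.Ratio

/-!
# From linear to nonlinear observables
-/

set_option autoImplicit false
set_option linter.unusedSectionVars false
set_option linter.unusedVariables false
set_option linter.style.haveILetI false

open MeasureTheory Finset Filter Function
open scoped ENNReal Classical

namespace Pool.Agent.N109.SDS

open Pool.Agent.N990.Mach Pool.Agent.N109.Slab

noncomputable section

/-- integrals of functions which are small on a set of large probability -/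
lemma int_split {Ω : Type*} [MeasurableSpace Ω] {Q : Measure Ω} [IsProbabilityMeasure Q]
    {f : Ω → ℝ} (hf : Measurable f) {Gs : Set Ω} (hG : MeasurableSet Gs) {a b p : ℝ} (ha : 0 ≤ a)
    (hb : 0 ≤ b) (h1 : ∀ σ ∈ Gs, |f σ| ≤ a) (h2 : ∀ σ, |f σ| ≤ b) (hp : Q.real Gsᶜ ≤ p) :
    |∫ σ, f σ ∂Q| ≤ a + b * p := by
  have hi : Integrable f Q :=
    Integrable.of_bound hf.aestronglyMeasurable b (Filter.Eventually.of_forall h2)
  rw [← integral_add_compl hG hi]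
  refine (abs_add_le _ _).trans (add_le_add ?_ ?_)
  · have e1 : ‖∫ σ in Gs, f σ ∂Q‖ ≤ a * Q.real Gs :=
      norm_setIntegral_le_of_norm_le_const (measure_lt_top _ _) fun σ hσ => h1 σ hσ
    have e2 : Q.real Gs ≤ 1 := measureReal_le_one
    calc |∫ σ in Gs, f σ ∂Q| ≤ a * Q.real Gs := e1
      _ ≤ a * 1 := mul_le_mul_of_nonneg_left e2 ha
      _ = a := mul_one a
  · have e1 : ‖∫ σ in Gsᶜ, f σ ∂Q‖ ≤ b * Q.real Gsᶜ :=
      norm_setIntegral_le_of_norm_le_const (measure_lt_top _ _) fun σ _ => h2 σ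
    exact e1.trans (mul_le_mul_of_nonneg_left hp hb)

/-- the difference of the covariances -/
lemma cov_close {Ω : Type*} [MeasurableSpace Ω] {Q : Measure Ω} [IsProbabilityMeasure Q]
    {X1 X2 Y1 Y2 : Ω → ℝ} (mX1 : Measurable X1) (mX2 : Measurable X2) (mY1 : Measurable Y1)
    (mY2 : Measurable Y2) {Gs : Set Ω} (hG : MeasurableSet Gs) {C δ p : ℝ} (hC : 0 ≤ C)
    (hδ : 0 ≤ δ) (hδ1 : δ ≤ 1) (hp0 : 0 ≤ p) (hp1 : p ≤ 1) (hp : Q.real Gsᶜ ≤ p)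
    (gX1 : ∀ σ ∈ Gs, |X1 σ| ≤ C * δ) (gX2 : ∀ σ ∈ Gs, |X2 σ| ≤ C * δ)
    (gY1 : ∀ σ ∈ Gs, |Y1 σ| ≤ C * δ) (gY2 : ∀ σ ∈ Gs, |Y2 σ| ≤ C * δ)
    (g1 : ∀ σ ∈ Gs, |Y1 σ - X1 σ| ≤ C * δ ^ 2) (g2 : ∀ σ ∈ Gs, |Y2 σ - X2 σ| ≤ C * δ ^ 2)
    (bX1 : ∀ σ, |X1 σ| ≤ C) (bX2 : ∀ σ, |X2 σ| ≤ C) (bY1 : ∀ σ, |Y1 σ| ≤ C)
    (bY2 : ∀ σ, |Y2 σ| ≤ C) :
    |(∫ σ, Y1 σ * Y2 σ ∂Q - (∫ σ, Y1 σ ∂Q) * ∫ σ, Y2 σ ∂Q) -
      (∫ σ, X1 σ * X2 σ ∂Q - (∫ σ, X1 σ ∂Q) * ∫ σ, X2 σ ∂Q)| ≤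
      2 * C ^ 2 * (2 * δ ^ 3 + 6 * p) := by
  have ib : ∀ {f : Ω → ℝ}, Measurable f → ∀ {b : ℝ}, (∀ σ, |f σ| ≤ b) → Integrable f Q :=
    fun hf b hb => Integrable.of_bound hf.aestronglyMeasurable b (Filter.Eventually.of_forall hb)
  have mb : ∀ {f g : Ω → ℝ}, (∀ σ, |f σ| ≤ C) → (∀ σ, |g σ| ≤ C) → ∀ σ, |f σ * g σ| ≤ C * C :=
    fun hf hg σ => by rw [abs_mul]; exact mul_le_mul (hf σ) (hg σ) (abs_nonneg _) hC
  -- second moments
  have a1 : |∫ σ, (Y1 σ * Y2 σ - X1 σ * X2 σ) ∂Q| ≤ 2 * C ^ 2 * δ ^ 3 + 2 * C ^ 2 * p := by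
    refine int_split ((mY1.mul mY2).sub (mX1.mul mX2)) hG (by positivity) (by positivity)
      (fun σ hσ => ?_) (fun σ => ?_) hp
    · show |Y1 σ * Y2 σ - X1 σ * X2 σ| ≤ _
      have e : Y1 σ * Y2 σ - X1 σ * X2 σ = (Y1 σ - X1 σ) * Y2 σ + X1 σ * (Y2 σ - X2 σ) := by ring
      rw [e]
      refine (abs_add_le _ _).trans ?_
      rw [abs_mul, abs_mul]
      have h1 : |Y1 σ - X1 σ| * |Y2 σ| ≤ (C * δ ^ 2) * (C * δ) :=
        mul_le_mul (g1 σ hσ) (gY2 σ hσ) (abs_nonneg _) (by positivity)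
      have h2 : |X1 σ| * |Y2 σ - X2 σ| ≤ (C * δ) * (C * δ ^ 2) :=
        mul_le_mul (gX1 σ hσ) (g2 σ hσ) (abs_nonneg _) (by positivity)
      calc _ ≤ (C * δ ^ 2) * (C * δ) + (C * δ) * (C * δ ^ 2) := add_le_add h1 h2
        _ = _ := by ring
    · show |Y1 σ * Y2 σ - X1 σ * X2 σ| ≤ _
      refine (abs_sub _ _).trans ?_
      have h1 := mb bY1 bY2 σ
      have h2 := mb bX1 bX2 σ
      calc _ ≤ C * C + C * C := add_le_add h1 h2
        _ = _ := by ring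
  rw [integral_sub (f := fun σ => Y1 σ * Y2 σ) (g := fun σ => X1 σ * X2 σ)
    (ib (mY1.mul mY2) (mb bY1 bY2)) (ib (mX1.mul mX2) (mb bX1 bX2))] at a1
  -- means
  have a2 : |∫ σ, (Y1 σ - X1 σ) ∂Q| ≤ C * δ ^ 2 + 2 * C * p := by
    refine int_split (mY1.sub mX1) hG (by positivity) (by positivity) g1 (fun σ => ?_) hp
    refine (abs_sub _ _).trans ?_
    linarith [bY1 σ, bX1 σ]
  have a3 : |∫ σ, (Y2 σ - X2 σ) ∂Q| ≤ C * δ ^ 2 + 2 * C * p := by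
    refine int_split (mY2.sub mX2) hG (by positivity) (by positivity) g2 (fun σ => ?_) hp
    refine (abs_sub _ _).trans ?_
    linarith [bY2 σ, bX2 σ]
  rw [integral_sub (ib mY1 bY1) (ib mX1 bX1)] at a2
  rw [integral_sub (ib mY2 bY2) (ib mX2 bX2)] at a3
  have a4 : |∫ σ, X1 σ ∂Q| ≤ C * δ + C * p := int_split mX1 hG (by positivity) hC gX1 bX1 hp
  have a5 : |∫ σ, Y2 σ ∂Q| ≤ C * δ + C * p := int_split mY2 hG (by positivity) hC gY2 bY2 hp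
  obtain ⟨x1, hx1⟩ : ∃ x, x = ∫ σ, X1 σ ∂Q := ⟨_, rfl⟩
  obtain ⟨x2, hx2⟩ : ∃ x, x = ∫ σ, X2 σ ∂Q := ⟨_, rfl⟩
  obtain ⟨y1, hy1⟩ : ∃ x, x = ∫ σ, Y1 σ ∂Q := ⟨_, rfl⟩
  obtain ⟨y2, hy2⟩ : ∃ x, x = ∫ σ, Y2 σ ∂Q := ⟨_, rfl⟩
  rw [← hx1, ← hy1] at a2
  rw [← hx2, ← hy2] at a3
  rw [← hx1] at a4
  rw [← hy2] at a5
  rw [← hx1, ← hy1, ← hx2, ← hy2]
  have e : (∫ σ, Y1 σ * Y2 σ ∂Q - y1 * y2) - (∫ σ, X1 σ * X2 σ ∂Q - x1 * x2) =
      (∫ σ, Y1 σ * Y2 σ ∂Q - ∫ σ, X1 σ * X2 σ ∂Q) - ((y1 - x1) * y2 + x1 * (y2 - x2)) := by ring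
  rw [e]
  have m1 : |(y1 - x1) * y2| ≤ (C * δ ^ 2 + 2 * C * p) * (C * δ + C * p) := by
    rw [abs_mul]; exact mul_le_mul a2 a5 (abs_nonneg _) (by positivity)
  have m2 : |x1 * (y2 - x2)| ≤ (C * δ + C * p) * (C * δ ^ 2 + 2 * C * p) := by
    rw [abs_mul]; exact mul_le_mul a4 a3 (abs_nonneg _) (by positivity)
  have m3 := (abs_add_le _ _).trans (add_le_add m1 m2)
  refine (abs_sub _ _).trans ((add_le_add a1 m3).trans ?_)
  have h1 : δ ^ 2 * p ≤ p := by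
    have : δ ^ 2 ≤ 1 := by nlinarith
    nlinarith
  have h2 : δ * p ≤ p := by nlinarith
  have h3 : p * p ≤ p := by nlinarith
  have e2 : 2 * C ^ 2 * δ ^ 3 + 2 * C ^ 2 * p + ((C * δ ^ 2 + 2 * C * p) * (C * δ + C * p) +
      (C * δ + C * p) * (C * δ ^ 2 + 2 * C * p)) =
      2 * C ^ 2 * (δ ^ 3 + p + (δ ^ 3 + δ ^ 2 * p + 2 * (δ * p) + 2 * (p * p))) := by ring
  rw [e2]
  refine mul_le_mul_of_nonneg_left ?_ (by positivity)
  linarith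

variable {ι ρ K W : Type*} [Group K] [MeasurableSpace K] [NormedAddCommGroup W]
  [InnerProductSpace ℝ W] [FiniteDimensional ℝ W] {ν : Measure K} {c : Cst}

/-- a local observable -/
def loc (A : Finset ι) (P : ι → K → ℝ) (σ : ι → K) : ℝ := ∑ x ∈ A, P x (σ x)

lemma loc_meas {A : Finset ι} {P : ι → K → ℝ} (h : ∀ x ∈ A, Measurable (P x)) :
    Measurable (loc A P) := by
  unfold loc
  exact Finset.measurable_fun_sum _ fun x hx => (h x hx).comp (measurable_pi_apply x)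

/-- **Nonlinear observables have nearly the covariances of their linear parts.** -/
theorem nonlin (c : Cst) (Yb Cy M : ℝ) (hM : 0 ≤ M) {e : ℝ} (he : 0 < e) (he2 : e ≤ 1 / 10)
    (A1 : Finset ι) {η : ℝ} (hη : 0 < η) :
    ∃ β₀ ≥ (1 : ℝ), ∀ β ≥ β₀, ∀ S : Sys ι ρ K W W ν c, Lin S Yb Cy →
      ∀ Q : Measure (ι → K), Stt S e β Q → ∀ (f g : ι → W) (P R : ι → K → ℝ),
      (∀ x ∈ A1, ‖f x‖ ≤ 1) → (∀ x ∈ A1, ‖g x‖ ≤ 1) →
      (∀ x ∈ A1, Measurable (P x)) → (∀ x ∈ A1, Measurable (R x)) →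
      (∀ x ∈ A1, ∀ k, |P x k| ≤ M) → (∀ x ∈ A1, ∀ k, |R x k| ≤ M) →
      (∀ x ∈ A1, ∀ k, |P x k - inner ℝ (f x) (S.yy k)| ≤ M * S.nrm k ^ 2) →
      (∀ x ∈ A1, ∀ k, |R x k - inner ℝ (g x) (S.yy k)| ≤ M * S.nrm k ^ 2) →
      |β * (∫ σ, loc A1 P σ * loc A1 R σ ∂Q - (∫ σ, loc A1 P σ ∂Q) * ∫ σ, loc A1 R σ ∂Q) -
        β * (∫ σ, prS A1 f (fun x => S.yy (σ x)) * prS A1 g (fun x => S.yy (σ x)) ∂Q -
          (∫ σ, prS A1 f (fun x => S.yy (σ x)) ∂Q) *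
            ∫ σ, prS A1 g (fun x => S.yy (σ x)) ∂Q)| ≤ η := by
  by_cases hex : ∃ S : Sys ι ρ K W W ν c, Lin S Yb Cy
  swap
  · exact ⟨1, le_rfl, fun β hβ S hS => absurd ⟨S, hS⟩ hex⟩
  obtain ⟨S0, hS0⟩ := hex
  have hYb := Dt.yb0 hS0
  obtain ⟨n0, hn0⟩ : ∃ n0 : ℝ, n0 = A1.card := ⟨_, rfl⟩
  have hn00 : 0 ≤ n0 := hn0 ▸ Nat.cast_nonneg _
  obtain ⟨C, hC⟩ : ∃ C : ℝ, C = n0 * (M + 2 + Yb) := ⟨_, rfl⟩
  have hC0 : 0 ≤ C := by rw [hC]; positivity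
  -- asymptotics
  have B1 := evr (a := 0) (b := -1 / 2 + e) (1 / min 1 c.r0) (by linarith)
  have B2 := evr (a := 0) (b := -1 / 2 + 3 * e) (8 * C ^ 2 / η) (by linarith)
  have B3 : ∀ᶠ β : ℝ in atTop, (n0 + 1) * Real.exp (-β ^ (e / 2)) ≤ 1 := by
    have h1 : Tendsto (fun β : ℝ => (n0 + 1) * Real.exp (-β ^ (e / 2))) atTop (nhds 0) := by
      have h2 : Tendsto (fun β : ℝ => Real.exp (-β ^ (e / 2))) atTop (nhds 0) :=
        Real.tendsto_exp_neg_atTop_nhds_zero.comp (tendsto_rpow_atTop (by linarith))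
      simpa using h2.const_mul (n0 + 1)
    exact (h1.eventually (gt_mem_nhds one_pos)).mono fun _ h => h.le
  have B4 : ∀ᶠ β : ℝ in atTop, (24 * C ^ 2 * n0 / η) * (β * Real.exp (-β ^ (e / 2))) ≤ 1 := by
    have h1 : Tendsto (fun β : ℝ => (24 * C ^ 2 * n0 / η) * (β * Real.exp (-β ^ (e / 2)))) atTop
        (nhds 0) := by
      have h2 : Tendsto (fun x : ℝ => x ^ (2 / e) * Real.exp (-x)) atTop (nhds 0) := by
        have := tendsto_rpow_mul_exp_neg_mul_atTop_nhds_zero (2 / e) 1 one_pos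
        simpa using this
      have h3 := h2.comp (tendsto_rpow_atTop (y := e / 2) (by linarith))
      have h4 : (fun β : ℝ => β * Real.exp (-β ^ (e / 2))) =ᶠ[atTop]
          (fun x : ℝ => x ^ (2 / e) * Real.exp (-x)) ∘ fun β : ℝ => β ^ (e / 2) := by
        filter_upwards [eventually_ge_atTop 1] with β hβ
        simp only [Function.comp]
        rw [← Real.rpow_mul (by linarith), show e / 2 * (2 / e) = 1 by field_simp, Real.rpow_one]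
      have h5 := (h3.congr' h4.symm).const_mul (24 * C ^ 2 * n0 / η)
      simpa using h5
    exact (h1.eventually (gt_mem_nhds one_pos)).mono fun _ h => h.le
  obtain ⟨β₁, hβ₁⟩ := Filter.eventually_atTop.1 (B1.and (B2.and (B3.and B4)))
  refine ⟨max 1 β₁, le_max_left _ _, fun β hβ S hS Q hQ f g P R nf ng mP mR bP bR lP lR => ?_⟩
  obtain ⟨a1, a2, a3, a4⟩ := hβ₁ β ((le_max_right _ _).trans hβ)
  have hβ1 : 1 ≤ β := (le_max_left _ _).trans hβ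
  have hβ0 : 0 < β := by linarith
  rw [Real.rpow_zero] at a1 a2
  haveI := hQ.shf.prob
  obtain ⟨δ, hδ⟩ : ∃ δ, δ = β ^ (-1 / 2 + e) / 2 := ⟨_, rfl⟩
  have hδ0 : 0 ≤ δ := by rw [hδ]; have := Real.rpow_nonneg hβ0.le (-1 / 2 + e); positivity
  have hmin : 0 < min 1 c.r0 := lt_min one_pos c.hr0
  have hδm : δ ≤ min 1 c.r0 := by
    have h1 : β ^ (-1 / 2 + e) ≤ min 1 c.r0 := by
      rwa [one_div, inv_mul_le_iff₀ hmin, mul_one] at a1
    have h2 := Real.rpow_nonneg hβ0.le (-1 / 2 + e)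
    rw [hδ]; linarith
  have hδ1 : δ ≤ 1 := hδm.trans (min_le_left _ _)
  have hδr : δ ≤ c.r0 := hδm.trans (min_le_right _ _)
  obtain ⟨p, hp⟩ : ∃ p, p = n0 * Real.exp (-β ^ (e / 2)) := ⟨_, rfl⟩
  have hp0 : 0 ≤ p := by rw [hp]; positivity
  have hp1 : p ≤ 1 := by
    rw [hp]
    refine le_trans ?_ a3
    exact mul_le_mul_of_nonneg_right (by linarith) (Real.exp_pos _).le
  have hbad : Q.real (Gd S δ A1)ᶜ ≤ p := by
    have h1 : (Gd S δ A1)ᶜ = ⋃ x ∈ A1, {σ : ι → K | δ < S.nrm (σ x)} := by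
      ext σ; simp [Gd]
    rw [h1, hp, hn0]
    refine (measureReal_biUnion_finset_le _ _).trans ?_
    refine (Finset.sum_le_sum (g := fun _ => Real.exp (-β ^ (e / 2))) fun x hx => ?_).trans ?_
    · rw [hδ]; exact hQ.mb x
    · rw [Finset.sum_const, nsmul_eq_mul]
  -- the bounds
  have key : ∀ (f : ι → W) (P : ι → K → ℝ), (∀ x ∈ A1, ‖f x‖ ≤ 1) → (∀ x ∈ A1, ∀ k, |P x k| ≤ M) →
      (∀ x ∈ A1, ∀ k, |P x k - inner ℝ (f x) (S.yy k)| ≤ M * S.nrm k ^ 2) →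
      (∀ σ ∈ Gd S δ A1, |prS A1 f (fun x => S.yy (σ x))| ≤ C * δ) ∧
      (∀ σ ∈ Gd S δ A1, |loc A1 P σ| ≤ C * δ) ∧
      (∀ σ ∈ Gd S δ A1, |loc A1 P σ - prS A1 f (fun x => S.yy (σ x))| ≤ C * δ ^ 2) ∧
      (∀ σ : ι → K, |prS A1 f (fun x => S.yy (σ x))| ≤ C) ∧ (∀ σ : ι → K, |loc A1 P σ| ≤ C) := by
    intro f P nf bP lP
    have k1 : ∀ σ ∈ Gd S δ A1, |prS A1 f (fun x => S.yy (σ x))| ≤ n0 * (2 * δ) := by
      intro σ hσ
      have h1 := Dt.pr_le (A := A1) (g := f) (φ := fun x => S.yy (σ x)) (a := 1) (b := 2 * δ)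
        zero_le_one (by linarith) nf fun x hx => by
          have h2 := S.yy_le (σ x) ((hσ x hx).trans hδr)
          have h3 := hσ x hx
          linarith
      rw [one_mul, ← hn0] at h1
      exact h1
    have k3 : ∀ σ ∈ Gd S δ A1, |loc A1 P σ - prS A1 f (fun x => S.yy (σ x))| ≤
        n0 * (M * δ ^ 2) := by
      intro σ hσ
      unfold loc prS
      rw [← Finset.sum_sub_distrib]
      refine (Finset.abs_sum_le_sum_abs _ _).trans ((Finset.sum_le_sum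
        (g := fun _ => M * δ ^ 2) fun x hx => ?_).trans ?_)
      · refine (lP x hx _).trans (mul_le_mul_of_nonneg_left ?_ hM)
        exact pow_le_pow_left₀ (S.nrm_nonneg _) (hσ x hx) 2
      · rw [Finset.sum_const, nsmul_eq_mul, hn0]
    have hδ2 : δ ^ 2 ≤ δ := by nlinarith
    refine ⟨fun σ hσ => (k1 σ hσ).trans ?_, fun σ hσ => ?_, fun σ hσ => (k3 σ hσ).trans ?_,
      fun σ => ?_, fun σ => ?_⟩
    · rw [hC]
      have h1 : 0 ≤ n0 * (M + Yb) * δ := by positivity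
      linarith
    · have h1 : loc A1 P σ = prS A1 f (fun x => S.yy (σ x)) +
          (loc A1 P σ - prS A1 f (fun x => S.yy (σ x))) := by ring
      rw [h1]
      refine (abs_add_le _ _).trans ((add_le_add (k1 σ hσ) (k3 σ hσ)).trans ?_)
      have h2 : n0 * (M * δ ^ 2) ≤ n0 * (M * δ) := by gcongr
      have h3 : 0 ≤ n0 * Yb * δ := by positivity
      rw [hC]
      linarith
    · rw [hC]
      have h1 : 0 ≤ n0 * (2 + Yb) * δ ^ 2 := by positivity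
      linarith
    · refine (Dt.pr_le (A := A1) (g := f) (φ := fun x => S.yy (σ x)) (a := 1) (b := Yb)
        zero_le_one hYb nf fun x hx => hS.yy_bd _).trans ?_
      rw [one_mul, ← hn0, hC]
      have h1 : 0 ≤ n0 * (M + 2) := by positivity
      linarith
    · unfold loc
      refine (Finset.abs_sum_le_sum_abs _ _).trans ((Finset.sum_le_sum
        (g := fun _ => M) fun x hx => bP x hx _).trans ?_)
      rw [Finset.sum_const, nsmul_eq_mul, ← hn0, hC]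
      have h1 : 0 ≤ n0 * (2 + Yb) := by positivity
      linarith
  obtain ⟨x1, y1, z1, u1, v1⟩ := key f P nf bP lP
  obtain ⟨x2, y2, z2, u2, v2⟩ := key g R ng bR lR
  have hcc := cov_close (Q := Q) (Dt.prS_meas hS A1 f) (Dt.prS_meas hS A1 g) (loc_meas mP)
    (loc_meas mR) (Gd_meas S δ A1) hC0 hδ0 hδ1 hp0 hp1 hbad x1 x2 y1 y2 z1 z2 u1 u2 v1 v2
  rw [← mul_sub, abs_mul, abs_of_pos hβ0]
  refine (mul_le_mul_of_nonneg_left hcc hβ0.le).trans ?_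
  have q1 : β * δ ^ 3 ≤ β ^ (-1 / 2 + 3 * e) := by
    have h1 : β ^ (-1 / 2 + 3 * e) = β * (β ^ (-1 / 2 + e)) ^ 3 := by
      have h2 : (β ^ (-1 / 2 + e)) ^ 3 = β ^ ((-1 / 2 + e) * 3) := by
        rw [Real.rpow_mul hβ0.le]; norm_cast
      rw [h2]
      nth_rewrite 2 [← Real.rpow_one β]
      rw [← Real.rpow_add hβ0]
      congr 1; ring
    rw [h1]
    refine mul_le_mul_of_nonneg_left (pow_le_pow_left₀ hδ0 ?_ 3) hβ0.le
    rw [hδ]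
    have := Real.rpow_nonneg hβ0.le (-1 / 2 + e)
    linarith
  have q2 : 4 * C ^ 2 * (β * δ ^ 3) ≤ η / 2 := by
    calc 4 * C ^ 2 * (β * δ ^ 3) ≤ 4 * C ^ 2 * β ^ (-1 / 2 + 3 * e) :=
          mul_le_mul_of_nonneg_left q1 (by positivity)
      _ = (8 * C ^ 2 / η * β ^ (-1 / 2 + 3 * e)) * (η / 2) := by field_simp; ring
      _ ≤ 1 * (η / 2) := mul_le_mul_of_nonneg_right a2 (by positivity)
      _ = _ := one_mul _
  have q3 : 12 * C ^ 2 * (β * p) ≤ η / 2 := by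
    calc 12 * C ^ 2 * (β * p) = ((24 * C ^ 2 * n0 / η) * (β * Real.exp (-β ^ (e / 2)))) *
          (η / 2) := by rw [hp]; field_simp; ring
      _ ≤ 1 * (η / 2) := mul_le_mul_of_nonneg_right a4 (by positivity)
      _ = _ := one_mul _
  calc β * (2 * C ^ 2 * (2 * δ ^ 3 + 6 * p)) = 4 * C ^ 2 * (β * δ ^ 3) + 12 * C ^ 2 * (β * p) := by
        ring
    _ ≤ η := by linarith

end

end Pool.Agent.N109.SDS
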