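import Pool.Agent.N109.SDS.Var

/-!
# The arithmetic of the ratio of covariances
-/

set_option autoImplicit false
set_option linter.unusedVariables false

namespace Pool.Agent.N109.SDS

noncomputable section

/-- the arithmetic of the proof of `ratio` -/
lemma num_aux2 {F K s q q' τ β lam sF B I00 I22 Irr I20 I0r I2r m0 m2 NR : ℝ} (hF : 0 < F)
    (hK : K = 1 / lam + 1) (hlam : 0 < lam) (hs0 : 0 < s) (hq'0 : 0 < q') (hτ0 : 0 < τ)
    (hτ1 : τ ≤ 1) (hτ2 : q' * (1 + τ + τ * K) < q - τ * (1 + K + s)) (hq1 : q < 1) (hβ0 : 0 < β)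
    (hsF : sF * sF = F) (hsF0 : 0 ≤ sF) (hB0 : 0 ≤ B) (hB : B * B = β)
    (v0 : β * I00 ≤ F / lam + τ ^ 2 * F) (v2 : β * I22 ≤ F / lam + τ ^ 2 * F)
    (hR1 : NR ≤ τ ^ 2 * F) (vr : β * Irr ≤ NR / lam + τ ^ 2 * F)
    (k0 : |I0r| ≤ τ / 2 * I00 + 1 / (2 * τ) * Irr) (k2 : |I2r| ≤ τ / 2 * I22 + 1 / (2 * τ) * Irr)
    (s0 : |β * (s * I00 + I0r) - F| ≤ τ * F) (s2 : |β * (s * I20 + I2r) - q * F| ≤ τ * F)
    (g0 : |β * m0| ≤ (τ * sF) * B) (g2 : |β * m2| ≤ (τ * sF) * B) :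
    F * (1 - τ * (1 + K + s)) ≤ s * (β * (I00 - m0 ^ 2)) ∧
      F * (q - τ * (1 + K + s)) ≤ s * (β * (I20 - m2 * m0)) ∧
      q' * (I00 - m0 ^ 2) ≤ I20 - m2 * m0 := by
  have hK0 : 0 < K := by rw [hK]; positivity
  have hτs : τ ^ 2 ≤ τ := by nlinarith
  have hτs1 : τ ^ 2 ≤ 1 := by nlinarith
  have hFl : F / lam + τ ^ 2 * F ≤ K * F := by
    have h1 : τ ^ 2 * F ≤ 1 * F := mul_le_mul_of_nonneg_right hτs1 hF.le
    rw [hK]
    have h2 : F / lam = 1 / lam * F := by ring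
    rw [h2]; linarith
  have va0 : β * I00 ≤ K * F := v0.trans hFl
  have va2 : β * I22 ≤ K * F := v2.trans hFl
  have var' : β * Irr ≤ τ ^ 2 * (K * F) := by
    refine vr.trans ?_
    have h2 : NR / lam ≤ τ ^ 2 * F / lam := div_le_div_of_nonneg_right hR1 hlam.le
    rw [hK]
    have h3 : τ ^ 2 * F / lam = τ ^ 2 * (1 / lam * F) := by ring
    rw [h3] at h2
    have h4 : τ ^ 2 * ((1 / lam + 1) * F) = τ ^ 2 * (1 / lam * F) + τ ^ 2 * F := by ring
    rw [h4]; linarith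
  have key : ∀ J A : ℝ, |J| ≤ τ / 2 * A + 1 / (2 * τ) * Irr → β * A ≤ K * F →
      |β * J| ≤ τ * (K * F) := by
    intro J A hJ hA
    have h2 := mul_le_mul_of_nonneg_left hJ hβ0.le
    rw [abs_mul, abs_of_pos hβ0]
    refine h2.trans ?_
    have h4 : β * (τ / 2 * A + 1 / (2 * τ) * Irr) =
        τ / 2 * (β * A) + 1 / (2 * τ) * (β * Irr) := by ring
    rw [h4]
    have h5 : 1 / (2 * τ) * (β * Irr) ≤ 1 / (2 * τ) * (τ ^ 2 * (K * F)) :=
      mul_le_mul_of_nonneg_left var' (by positivity)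
    have h6 : 1 / (2 * τ) * (τ ^ 2 * (K * F)) = τ / 2 * (K * F) := by field_simp
    have h7 : τ / 2 * (β * A) ≤ τ / 2 * (K * F) := mul_le_mul_of_nonneg_left hA (by positivity)
    linarith
  have kx0 := key I0r I00 k0 va0
  have kx2 := key I2r I22 k2 va2
  have sa0 : s * (β * I00) ≤ F + τ * F + τ * (K * F) := by
    have h2 := (abs_le.1 s0).2
    have h3 : β * (s * I00 + I0r) = s * (β * I00) + β * I0r := by ring
    rw [h3] at h2
    have := neg_abs_le (β * I0r)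
    linarith
  have scc : q * F - τ * F - τ * (K * F) ≤ s * (β * I20) := by
    have h2 := (abs_le.1 s2).1
    have h3 : β * (s * I20 + I2r) = s * (β * I20) + β * I2r := by ring
    rw [h3] at h2
    have := le_abs_self (β * I2r)
    linarith
  have hmm : β * |m2 * m0| ≤ τ * F := by
    have g3 : |β * m2| * |β * m0| ≤ ((τ * sF) * B) * ((τ * sF) * B) :=
      mul_le_mul g2 g0 (abs_nonneg _) (by positivity)
    have g4 : ((τ * sF) * B) * ((τ * sF) * B) = β * (τ ^ 2 * F) := by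
      calc _ = τ ^ 2 * (sF * sF) * (B * B) := by ring
        _ = _ := by rw [hsF, hB]; ring
    have g5 : |β * m2| * |β * m0| = β * (β * |m2 * m0|) := by
      rw [abs_mul, abs_mul, abs_mul, abs_of_pos hβ0]; ring
    rw [g4, g5] at g3
    have g6 := le_of_mul_le_mul_left g3 hβ0
    exact g6.trans (mul_le_mul_of_nonneg_right hτs hF.le)
  have main1 : F * (q - τ * (1 + K + s)) ≤ s * (β * (I20 - m2 * m0)) := by
    have h2 : s * (β * (I20 - m2 * m0)) = s * (β * I20) - s * (β * (m2 * m0)) := by ring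
    have h3 : β * (m2 * m0) ≤ τ * F :=
      le_trans (mul_le_mul_of_nonneg_left (le_abs_self _) hβ0.le) hmm
    have h4 := mul_le_mul_of_nonneg_left h3 hs0.le
    have h5 : F * (q - τ * (1 + K + s)) =
      q * F - τ * F - τ * (K * F) - s * (τ * F) := by ring
    rw [h2, h5]; linarith
  have main2 : s * (β * (I00 - m0 ^ 2)) ≤ F * (1 + τ + τ * K) := by
    have h2 : s * (β * (I00 - m0 ^ 2)) = s * (β * I00) - s * (β * m0 ^ 2) := by ring
    have h3 : 0 ≤ s * (β * m0 ^ 2) := by positivity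
    have h5 : F * (1 + τ + τ * K) = F + τ * F + τ * (K * F) := by ring
    rw [h2, h5]; linarith
  have hsβ : 0 < s * β := by positivity
  have hm0 : β * m0 ^ 2 ≤ τ * F := by
    have g3 : |β * m0| * |β * m0| ≤ ((τ * sF) * B) * ((τ * sF) * B) :=
      mul_le_mul g0 g0 (abs_nonneg _) (by positivity)
    have g4 : ((τ * sF) * B) * ((τ * sF) * B) = β * (τ ^ 2 * F) := by
      calc _ = τ ^ 2 * (sF * sF) * (B * B) := by ring
        _ = _ := by rw [hsF, hB]; ring
    have g5 : |β * m0| * |β * m0| = β * (β * m0 ^ 2) := by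
      rw [abs_mul_abs_self]; ring
    rw [g4, g5] at g3
    have g6 := le_of_mul_le_mul_left g3 hβ0
    exact g6.trans (mul_le_mul_of_nonneg_right hτs hF.le)
  have low0 : F * (1 - τ * (1 + K + s)) ≤ s * (β * (I00 - m0 ^ 2)) := by
    have h2 := (abs_le.1 s0).1
    have h3 : β * (s * I00 + I0r) = s * (β * I00) + β * I0r := by ring
    rw [h3] at h2
    have h6 := le_abs_self (β * I0r)
    have h4 := mul_le_mul_of_nonneg_left hm0 hs0.le
    have h7 : s * (β * (I00 - m0 ^ 2)) = s * (β * I00) - s * (β * m0 ^ 2) := by ring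
    have h5 : F * (1 - τ * (1 + K + s)) =
      F - τ * F - τ * (K * F) - s * (τ * F) := by ring
    rw [h7, h5]; linarith
  refine ⟨low0, main1, ?_⟩
  · have h2 : (s * β) * (q' * (I00 - m0 ^ 2)) ≤ (s * β) * (I20 - m2 * m0) := by
      calc (s * β) * (q' * (I00 - m0 ^ 2)) =
            q' * (s * (β * (I00 - m0 ^ 2))) := by ring
        _ ≤ q' * (F * (1 + τ + τ * K)) := mul_le_mul_of_nonneg_left main2 hq'0.le
        _ = F * (q' * (1 + τ + τ * K)) := by ring
        _ ≤ F * (q - τ * (1 + K + s)) := mul_le_mul_of_nonneg_left hτ2.le hF.le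
        _ ≤ s * (β * (I20 - m2 * m0)) := main1
        _ = _ := by ring
    exact le_of_mul_le_mul_left h2 hsβ

/-- the choice of a small parameter -/
lemma exists_tau {q q' K s : ℝ} (hqq : q' < q) (hq'0 : 0 < q') (hK : 0 < K) (hs : 0 < s) :
    ∃ τ : ℝ, 0 < τ ∧ τ ≤ 1 ∧ q' * (1 + τ + τ * K) < q - τ * (1 + K + s) := by
  obtain ⟨Z, hZ⟩ : ∃ Z, Z = q' * (1 + K) + (1 + K + s) := ⟨_, rfl⟩
  have hZ0 : 0 < Z := by rw [hZ]; positivity
  have hd : 0 < q - q' := by linarith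
  obtain ⟨τ, hτ⟩ : ∃ τ, τ = min 1 ((q - q') / (2 * Z)) := ⟨_, rfl⟩
  have h2 : τ * Z ≤ (q - q') / 2 := by
    rw [hτ]
    calc min 1 ((q - q') / (2 * Z)) * Z ≤ (q - q') / (2 * Z) * Z :=
          mul_le_mul_of_nonneg_right (min_le_right _ _) hZ0.le
      _ = (q - q') / 2 := by field_simp
  refine ⟨τ, by rw [hτ]; exact lt_min one_pos (by positivity), by rw [hτ]; exact min_le_left _ _, ?_⟩
  have h3 : q' * (1 + τ + τ * K) + τ * (1 + K + s) = q' + τ * Z := by rw [hZ]; ring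
  linarith


/-- from the linear to the nonlinear observables -/
lemma num_nl {β q' q'' κ η V C V' C' : ℝ} (hβ : 0 < β) (hq' : 0 < q') (hq1 : q' ≤ 1) (hqq : q' ≤ q'')
    (hη : 2 * η ≤ (q'' - q') * κ) (hV : κ ≤ β * V) (h : q'' * V ≤ C) (hV' : |β * V' - β * V| ≤ η)
    (hC' : |β * C' - β * C| ≤ η) (hη0 : 0 ≤ η) : q' * V' ≤ C' := by
  have h1 := (abs_le.1 hV').2
  have h2 := (abs_le.1 hC').1
  have h3 : q'' * (β * V) ≤ β * C := by nlinarith
  have h4 : q' * (β * V') ≤ β * C' := by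
    have h5 : q' * (β * V') ≤ q' * (β * V + η) := mul_le_mul_of_nonneg_left (by linarith) hq'.le
    have h6 : (q'' - q') * κ ≤ (q'' - q') * (β * V) :=
      mul_le_mul_of_nonneg_left hV (by linarith)
    have h7 : q' * η ≤ 1 * η := mul_le_mul_of_nonneg_right hq1 hη0
    nlinarith
  have h5 : β * (q' * V') ≤ β * C' := by linarith [h4, show β * (q' * V') = q' * (β * V') by ring]
  exact le_of_mul_le_mul_left h5 hβ

end

end Pool.Agent.N109.SDS
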