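import Pool.Agent.N109.Slab.Test2

/-!
# The test function in the plane
-/

set_option autoImplicit false
set_option linter.unusedSectionVars false
set_option linter.unusedVariables false

open Finset Filter

namespace Pool.Agent.N109.SDS

open Pool.Agent.N109.Slab

noncomputable section

/-- the square -/
def bx (R : ℕ) : Finset (ℤ × ℤ) :=
  Finset.Icc (-(R : ℤ)) R ×ˢ Finset.Icc (-(R : ℤ)) R

lemma mem_bx {R : ℕ} {x : ℤ × ℤ} : x ∈ bx R ↔ x.1.natAbs ≤ R ∧ x.2.natAbs ≤ R := by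
  unfold bx
  rw [Finset.mem_product, Finset.mem_Icc, Finset.mem_Icc]
  omega

/-- the cut-off exponential profile -/
def aR (m : ℝ) (R : ℕ) (k : ℤ) : ℝ := if k.natAbs ≤ R then hh m k else 0

/-- the indicator of an interval -/
def bR (R : ℕ) (j : ℤ) : ℝ := if j.natAbs ≤ R then 1 else 0

/-- the test function -/
def sR (m : ℝ) (R : ℕ) (x : ℤ × ℤ) : ℝ := aR m R x.1 * bR R x.2

/-- the indicator of a column -/
def gR (R : ℕ) (k : ℤ) (x : ℤ × ℤ) : ℝ := if x.1 = k ∧ x.2.natAbs ≤ R then 1 else 0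

/-- the lattice operator -/
def LR (m : ℝ) (s : ℤ × ℤ → ℝ) (x : ℤ × ℤ) : ℝ :=
  (2 * Real.cosh m + 2) * s x - s (x + (1, 0)) - s (x - (1, 0)) - s (x + (0, 1)) - s (x - (0, 1))

/-- the error -/
def rr (m : ℝ) (R : ℕ) (x : ℤ × ℤ) : ℝ := LR m (sR m R) x - 2 * Real.sinh m * gR R 0 x

/-- one dimensional errors -/
def rho (m : ℝ) (R : ℕ) (k : ℤ) : ℝ :=
  2 * Real.cosh m * aR m R k - aR m R (k + 1) - aR m R (k - 1) -
    if k = 0 then 2 * Real.sinh m else 0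

def dR (R : ℕ) (j : ℤ) : ℝ := 2 * bR R j - bR R (j + 1) - bR R (j - 1)

lemma rr_eq (m : ℝ) (R : ℕ) (x : ℤ × ℤ) :
    rr m R x = rho m R x.1 * bR R x.2 + aR m R x.1 * dR R x.2 := by
  have e1 : sR m R (x + (1, 0)) = aR m R (x.1 + 1) * bR R x.2 := by
    unfold sR; simp
  have e2 : sR m R (x - (1, 0)) = aR m R (x.1 - 1) * bR R x.2 := by
    unfold sR; simp
  have e3 : sR m R (x + (0, 1)) = aR m R x.1 * bR R (x.2 + 1) := by
    unfold sR; simp
  have e4 : sR m R (x - (0, 1)) = aR m R x.1 * bR R (x.2 - 1) := by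
    unfold sR; simp
  have e5 : 2 * Real.sinh m * gR R 0 x = (if x.1 = 0 then 2 * Real.sinh m else 0) * bR R x.2 := by
    unfold gR bR
    by_cases h1 : x.1 = 0 <;> by_cases h2 : x.2.natAbs ≤ R <;> simp [h1, h2]
  unfold rr LR rho dR
  rw [e1, e2, e3, e4, e5]
  unfold sR
  ring

lemma dR_zero {R : ℕ} {j : ℤ} (h : j.natAbs ≠ R) (h' : j.natAbs ≠ R + 1) : dR R j = 0 := by
  unfold dR bR
  by_cases h1 : j.natAbs < R
  · rw [if_pos (by omega), if_pos (by omega), if_pos (by omega)]; norm_num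
  · rw [if_neg (by omega), if_neg (by omega), if_neg (by omega)]; norm_num

lemma dR_sq_le {R : ℕ} (hR : 1 ≤ R) (j : ℤ) : dR R j ^ 2 ≤ 1 := by
  by_cases h : j.natAbs = R
  · unfold dR bR
    rw [if_pos (by omega)]
    by_cases h1 : (j + 1).natAbs ≤ R
    · rw [if_pos h1, if_neg (by omega)]; norm_num
    · rw [if_neg h1, if_pos (by omega)]; norm_num
  · by_cases h' : j.natAbs = R + 1
    · unfold dR bR
      rw [if_neg (by omega)]
      by_cases h1 : (j + 1).natAbs ≤ R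
      · rw [if_pos h1, if_neg (by omega)]; norm_num
      · rw [if_neg h1, if_pos (by omega)]; norm_num
    · rw [dR_zero h h']; norm_num

lemma hh_abs (m : ℝ) (k : ℤ) : hh m k = Real.exp (-(m * (k.natAbs : ℝ))) := by
  unfold hh
  have : |(k : ℝ)| = (k.natAbs : ℝ) := by
    rw [Nat.cast_natAbs]; push_cast; rfl
  rw [this]

lemma rho_full {m : ℝ} (k : ℤ) : 2 * Real.cosh m * hh m k - hh m (k + 1) - hh m (k - 1) =
    if k = 0 then 2 * Real.sinh m else 0 := by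
  rw [← hh_rec (m := m) (lam := 2 * Real.cosh m - 2) rfl k]
  ring

lemma rho_zero {m : ℝ} {R : ℕ} (hR : 1 ≤ R) {k : ℤ} (h : k.natAbs ≠ R) (h' : k.natAbs ≠ R + 1) :
    rho m R k = 0 := by
  unfold rho aR
  by_cases h1 : k.natAbs < R
  · rw [if_pos (by omega), if_pos (by omega), if_pos (by omega), rho_full]; ring
  · rw [if_neg (by omega), if_neg (by omega), if_neg (by omega), if_neg (by
      rintro rfl; simp at h1; omega)]
    ring

lemma rho_sq_le {m : ℝ} (hm : 0 ≤ m) {R : ℕ} (hR : 1 ≤ R) (k : ℤ) :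
    rho m R k ^ 2 ≤ Real.exp (-(m * R)) ^ 2 := by
  have hle : ∀ j : ℤ, R ≤ j.natAbs → hh m j ≤ Real.exp (-(m * R)) := by
    intro j hj
    rw [hh_abs]
    apply Real.exp_le_exp.2
    have : (R : ℝ) ≤ j.natAbs := by exact_mod_cast hj
    nlinarith
  have hpos : ∀ j : ℤ, 0 ≤ hh m j := fun j => (hh_pos m j).le
  by_cases h : k.natAbs = R
  · have hk0 : k ≠ 0 := by rintro rfl; simp at h; omega
    have e := rho_full (m := m) k
    rw [if_neg hk0] at e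
    unfold rho aR
    rw [if_neg hk0, if_pos (by omega : k.natAbs ≤ R)]
    by_cases h1 : (k + 1).natAbs ≤ R
    · rw [if_pos h1, if_neg (by omega)]
      have e2 : 2 * Real.cosh m * hh m k - hh m (k + 1) - 0 - 0 = hh m (k - 1) := by linarith
      rw [e2]
      exact pow_le_pow_left₀ (hpos _) (hle _ (by omega)) 2
    · rw [if_neg h1, if_pos (by omega)]
      have e2 : 2 * Real.cosh m * hh m k - 0 - hh m (k - 1) - 0 = hh m (k + 1) := by linarith
      rw [e2]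
      exact pow_le_pow_left₀ (hpos _) (hle _ (by omega)) 2
  · by_cases h' : k.natAbs = R + 1
    · have hk0 : k ≠ 0 := by rintro rfl; simp at h'
      unfold rho aR
      rw [if_neg hk0, if_neg (by omega : ¬ k.natAbs ≤ R)]
      by_cases h1 : (k + 1).natAbs ≤ R
      · rw [if_pos h1, if_neg (by omega)]
        have e2 : (2 * Real.cosh m * 0 - hh m (k + 1) - 0 - 0) ^ 2 = hh m (k + 1) ^ 2 := by ring
        rw [e2]
        exact pow_le_pow_left₀ (hpos _) (hle _ (by omega)) 2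
      · rw [if_neg h1, if_pos (by omega)]
        have e2 : (2 * Real.cosh m * 0 - 0 - hh m (k - 1) - 0) ^ 2 = hh m (k - 1) ^ 2 := by ring
        rw [e2]
        exact pow_le_pow_left₀ (hpos _) (hle _ (by omega)) 2
    · rw [rho_zero hR h h']
      simpa using sq_nonneg (Real.exp (-(m * R)))

lemma rr_out {m : ℝ} {R : ℕ} (hR : 1 ≤ R) {x : ℤ × ℤ} (hx : x ∉ bx (R + 1)) : rr m R x = 0 := by
  rw [rr_eq]
  rw [mem_bx] at hx
  by_cases h1 : x.1.natAbs ≤ R + 1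
  · have h2 : ¬ x.2.natAbs ≤ R + 1 := fun h => hx ⟨h1, h⟩
    have e1 : bR R x.2 = 0 := by unfold bR; rw [if_neg (by omega)]
    have e2 : dR R x.2 = 0 := dR_zero (by omega) (by omega)
    rw [e1, e2]; ring
  · have e1 : aR m R x.1 = 0 := by unfold aR; rw [if_neg (by omega)]
    have e2 : rho m R x.1 = 0 := rho_zero hR (by omega) (by omega)
    rw [e1, e2]; ring

/-- sums of functions supported at the ends -/
lemma sum_ends {R : ℕ} {f : ℤ → ℝ} {c : ℝ} (hc : 0 ≤ c) (hf : ∀ k, f k ≤ c)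
    (h0 : ∀ k : ℤ, k.natAbs ≠ R → k.natAbs ≠ R + 1 → f k = 0) (n : ℕ) :
    ∑ k ∈ Finset.Icc (-(n : ℤ)) n, f k ≤ 4 * c := by
  have h1 : ∑ k ∈ Finset.Icc (-(n : ℤ)) n, f k ≤
      ∑ k ∈ ({(R : ℤ), -(R : ℤ), (R : ℤ) + 1, -((R : ℤ) + 1)} : Finset ℤ), c := by
    have h2 : ∑ k ∈ Finset.Icc (-(n : ℤ)) n, f k ≤ ∑ k ∈ (Finset.Icc (-(n : ℤ)) n).filter
        fun k => k.natAbs = R ∨ k.natAbs = R + 1, c := by
      rw [Finset.sum_filter]
      refine Finset.sum_le_sum fun k _ => ?_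
      split_ifs with h
      · exact hf k
      · push Not at h
        rw [h0 k h.1 h.2]
    refine h2.trans (Finset.sum_le_sum_of_subset_of_nonneg (fun k hk => ?_) fun _ _ _ => hc)
    have h3 := (Finset.mem_filter.1 hk).2
    simp only [Finset.mem_insert, Finset.mem_singleton]
    omega
  refine h1.trans ?_
  rw [Finset.sum_const, nsmul_eq_mul]
  refine mul_le_mul_of_nonneg_right ?_ hc
  have h4 : (({(R : ℤ), -(R : ℤ), (R : ℤ) + 1, -((R : ℤ) + 1)} : Finset ℤ)).card ≤ 4 :=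
    Finset.card_le_four
  exact_mod_cast h4

lemma sum_aR (m : ℝ) (R n : ℕ) (h : R ≤ n) :
    ∑ k ∈ Finset.Icc (-(n : ℤ)) n, aR m R k ^ 2 = T1 m R := by
  unfold T1
  symm
  have h1 : ∀ k ∈ Finset.Icc (-(R : ℤ)) R, hh m k ^ 2 = aR m R k ^ 2 := by
    intro k hk
    rw [Finset.mem_Icc] at hk
    unfold aR
    rw [if_pos (by omega)]
  rw [Finset.sum_congr rfl h1]
  refine Finset.sum_subset (Finset.Icc_subset_Icc (by omega) (by omega)) fun k _ hk => ?_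
  rw [Finset.mem_Icc] at hk
  unfold aR
  rw [if_neg (by omega)]; norm_num

lemma sum_bR (R n : ℕ) (h : R ≤ n) :
    ∑ k ∈ Finset.Icc (-(n : ℤ)) n, bR R k ^ 2 = 2 * (R : ℝ) + 1 := by
  have h1 : ∑ k ∈ Finset.Icc (-(R : ℤ)) R, bR R k ^ 2 =
      ∑ k ∈ Finset.Icc (-(n : ℤ)) n, bR R k ^ 2 := by
    refine Finset.sum_subset (Finset.Icc_subset_Icc (by omega) (by omega)) fun k _ hk => ?_
    rw [Finset.mem_Icc] at hk
    unfold bR
    rw [if_neg (by omega)]; norm_num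
  rw [← h1]
  have h2 : ∀ k ∈ Finset.Icc (-(R : ℤ)) R, bR R k ^ 2 = 1 := by
    intro k hk
    rw [Finset.mem_Icc] at hk
    unfold bR
    rw [if_pos (by omega)]; norm_num
  rw [Finset.sum_congr rfl h2, Finset.sum_const, Int.card_Icc, nsmul_eq_mul, mul_one]
  have h3 : ((R : ℤ) + 1 - -(R : ℤ)).toNat = 2 * R + 1 := by omega
  rw [h3]; push_cast; ring

lemma rr_nsq {m : ℝ} (hm : 0 ≤ m) {R : ℕ} (hR : 1 ≤ R) :
    ∑ x ∈ bx (R + 1), rr m R x ^ 2 ≤
      8 * (Real.exp (-(m * R)) ^ 2 * (2 * (R : ℝ) + 1)) + 8 * T1 m R := by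
  have h1 : ∑ x ∈ bx (R + 1), rr m R x ^ 2 ≤ ∑ x ∈ bx (R + 1),
      (2 * (rho m R x.1 ^ 2 * bR R x.2 ^ 2) + 2 * (aR m R x.1 ^ 2 * dR R x.2 ^ 2)) := by
    refine Finset.sum_le_sum fun x _ => ?_
    rw [rr_eq]
    nlinarith [sq_nonneg (rho m R x.1 * bR R x.2 - aR m R x.1 * dR R x.2)]
  refine h1.trans ?_
  rw [Finset.sum_add_distrib, ← Finset.mul_sum, ← Finset.mul_sum]
  unfold bx
  rw [Finset.sum_product, Finset.sum_product]
  have e1 : ∑ x ∈ Finset.Icc (-((R + 1 : ℕ) : ℤ)) ((R + 1 : ℕ) : ℤ),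
      ∑ y ∈ Finset.Icc (-((R + 1 : ℕ) : ℤ)) ((R + 1 : ℕ) : ℤ), rho m R x ^ 2 * bR R y ^ 2 =
      (∑ x ∈ Finset.Icc (-((R + 1 : ℕ) : ℤ)) ((R + 1 : ℕ) : ℤ), rho m R x ^ 2) *
        (2 * (R : ℝ) + 1) := by
    rw [← sum_bR R (R + 1) (Nat.le_succ R), Finset.sum_mul_sum]
  have e2 : ∑ x ∈ Finset.Icc (-((R + 1 : ℕ) : ℤ)) ((R + 1 : ℕ) : ℤ),
      ∑ y ∈ Finset.Icc (-((R + 1 : ℕ) : ℤ)) ((R + 1 : ℕ) : ℤ), aR m R x ^ 2 * dR R y ^ 2 =
      T1 m R * ∑ y ∈ Finset.Icc (-((R + 1 : ℕ) : ℤ)) ((R + 1 : ℕ) : ℤ), dR R y ^ 2 := by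
    rw [← sum_aR m R (R + 1) (Nat.le_succ R), Finset.sum_mul_sum]
  have h2 := sum_ends (R := R) (f := fun k => rho m R k ^ 2) (c := Real.exp (-(m * R)) ^ 2)
    (by positivity) (rho_sq_le hm hR) (fun k h h' => by simp only [rho_zero hR h h']; norm_num)
    (R + 1)
  have h3 := sum_ends (R := R) (f := fun k => dR R k ^ 2) (c := 1) zero_le_one (dR_sq_le hR)
    (fun k h h' => by simp only [dR_zero h h']; norm_num) (R + 1)
  have hT : 0 ≤ T1 m R := by unfold T1; exact Finset.sum_nonneg fun _ _ => by positivity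
  rw [e1, e2]
  have h4 : (∑ x ∈ Finset.Icc (-((R + 1 : ℕ) : ℤ)) ((R + 1 : ℕ) : ℤ), rho m R x ^ 2) *
      (2 * (R : ℝ) + 1) ≤ (4 * Real.exp (-(m * R)) ^ 2) * (2 * (R : ℝ) + 1) :=
    mul_le_mul_of_nonneg_right h2 (by positivity)
  have h5 := mul_le_mul_of_nonneg_left h3 hT
  linarith

/-- **The error is small.** -/
theorem rr_small {m : ℝ} (hm : 0 < m) {η : ℝ} (hη : 0 < η) :
    ∃ R : ℕ, 3 ≤ R ∧ ∑ x ∈ bx (R + 1), rr m R x ^ 2 ≤ η * (2 * (R : ℝ) + 1) := by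
  obtain ⟨T, hT⟩ := T1_tendsto hm
  have hR1 : Tendsto (fun R : ℕ => 2 * (R : ℝ) + 1) atTop atTop :=
    Tendsto.atTop_add (Tendsto.const_mul_atTop (by norm_num) tendsto_natCast_atTop_atTop)
      tendsto_const_nhds
  have h1 : Tendsto (fun R : ℕ => 8 * Real.exp (-(m * R)) ^ 2) atTop (nhds 0) := by
    have h2 : Tendsto (fun R : ℕ => m * (R : ℝ)) atTop atTop :=
      Tendsto.const_mul_atTop hm tendsto_natCast_atTop_atTop
    have h3 := (Real.tendsto_exp_neg_atTop_nhds_zero.comp h2).pow 2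
    simpa using h3.const_mul 8
  have h2 : Tendsto (fun R : ℕ => 8 * T1 m R / (2 * (R : ℝ) + 1)) atTop (nhds 0) :=
    (hT.const_mul 8).div_atTop hR1
  have h3 := (h1.add h2).eventually_lt_const (u := η) (by simpa using hη)
  obtain ⟨R, hR, hR3⟩ := (h3.and (eventually_ge_atTop 3)).exists
  refine ⟨R, hR3, (rr_nsq hm.le (by omega)).trans ?_⟩
  have h4 : 0 < 2 * (R : ℝ) + 1 := by positivity
  have h5 : 8 * (Real.exp (-(m * R)) ^ 2 * (2 * (R : ℝ) + 1)) + 8 * T1 m R =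
      (8 * Real.exp (-(m * R)) ^ 2 + 8 * T1 m R / (2 * (R : ℝ) + 1)) * (2 * (R : ℝ) + 1) := by
    field_simp
  rw [h5]
  exact mul_le_mul_of_nonneg_right hR.le h4.le

end

end Pool.Agent.N109.SDS
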