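import Pool.Agent.N109.SDS.Gibbs
import Pool.Agent.N109.SDS.Plane

/-!
# The ratio of the covariances for systems on the plane
-/

set_option autoImplicit false
set_option linter.unusedSectionVars false
set_option linter.unusedVariables false
set_option linter.style.haveILetI false

open MeasureTheory Finset Filter Function
open scoped ENNReal Classical

namespace Pool.Agent.N109.SDS

open Pool.Agent.N990.Mach Pool.Agent.N109.Slab

noncomputable section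

lemma sR_out {m : ℝ} {R : ℕ} {x : ℤ × ℤ} (hx : x ∉ bx R) : sR m R x = 0 := by
  rw [mem_bx] at hx
  unfold sR aR bR
  by_cases h : x.1.natAbs ≤ R
  · rw [if_neg (fun h2 => hx ⟨h, h2⟩), mul_zero]
  · rw [if_neg h, zero_mul]

lemma gR_out {R : ℕ} {k : ℤ} (hk : k.natAbs ≤ R) {x : ℤ × ℤ} (hx : x ∉ bx R) : gR R k x = 0 := by
  rw [mem_bx] at hx
  unfold gR
  rw [if_neg]
  rintro ⟨rfl, h⟩
  exact hx ⟨hk, h⟩

lemma sR_le {m : ℝ} (hm : 0 ≤ m) (R : ℕ) (x : ℤ × ℤ) : |sR m R x| ≤ 1 := by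
  have h1 : |aR m R x.1| ≤ 1 := by
    unfold aR
    split_ifs
    · rw [abs_of_pos (hh_pos _ _)]; exact hh_le hm _
    · simp
  have h2 : |bR R x.2| ≤ 1 := by
    unfold bR
    split_ifs <;> simp
  unfold sR
  rw [abs_mul]
  exact mul_le_one₀ h1 (abs_nonneg _) h2

lemma gR_le (R : ℕ) (k : ℤ) (x : ℤ × ℤ) : |gR R k x| ≤ 1 := by
  unfold gR
  split_ifs <;> simp

/-- sums over a column -/
lemma sum_gR {R n : ℕ} (hn : R ≤ n) {k : ℤ} (hk : k.natAbs ≤ R) (f : ℤ × ℤ → ℝ) :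
    ∑ x ∈ bx n, gR R k x * f x = ∑ j ∈ Finset.Icc (-(R : ℤ)) R, f (k, j) := by
  unfold bx
  rw [Finset.sum_product, Finset.sum_eq_single k]
  · symm
    have h1 : ∀ j ∈ Finset.Icc (-(R : ℤ)) R, f (k, j) = gR R k (k, j) * f (k, j) := by
      intro j hj
      rw [Finset.mem_Icc] at hj
      unfold gR
      rw [if_pos ⟨rfl, by show j.natAbs ≤ R; omega⟩, one_mul]
    rw [Finset.sum_congr rfl h1]
    refine Finset.sum_subset (Finset.Icc_subset_Icc (by omega) (by omega)) fun j _ hj => ?_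
    rw [Finset.mem_Icc] at hj
    unfold gR
    rw [if_neg, zero_mul]
    rintro ⟨-, h⟩
    have h : j.natAbs ≤ R := h
    exact hj (by omega)
  · intro i _ hi
    refine Finset.sum_eq_zero fun j _ => ?_
    unfold gR
    rw [if_neg (fun h => hi h.1), zero_mul]
  · intro h
    exfalso
    apply h
    rw [Finset.mem_Icc]
    omega

lemma gR_sq (R : ℕ) (k : ℤ) (x : ℤ × ℤ) : gR R k x ^ 2 = gR R k x * 1 := by
  unfold gR
  split_ifs <;> norm_num

lemma card_col (R : ℕ) : ∑ j ∈ Finset.Icc (-(R : ℤ)) R, (1 : ℝ) = 2 * (R : ℝ) + 1 := by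
  rw [Finset.sum_const, Int.card_Icc, nsmul_eq_mul, mul_one]
  have h3 : ((R : ℤ) + 1 - -(R : ℤ)).toNat = 2 * R + 1 := by omega
  rw [h3]; push_cast; ring

variable {ρ K W : Type*} [Group K] [MeasurableSpace K] [NormedAddCommGroup W]
  [InnerProductSpace ℝ W] {ν : Measure K} {c : Cst}

lemma nq_smul_u (A : Finset (ℤ × ℤ)) (g : ℤ × ℤ → ℝ) {u : W} (hu : ‖u‖ = 1) :
    nq A (fun x => g x • u) = ∑ x ∈ A, g x ^ 2 := by
  unfold nq
  refine Finset.sum_congr rfl fun x _ => ?_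
  rw [norm_smul, hu, mul_one, Real.norm_eq_abs, sq_abs]

lemma prS_smul_u (A : Finset (ℤ × ℤ)) (g h : ℤ × ℤ → ℝ) {u : W} (hu : ‖u‖ = 1) :
    prS A (fun x => g x • u) (fun x => h x • u) = ∑ x ∈ A, g x * h x := by
  unfold prS
  refine Finset.sum_congr rfl fun x _ => ?_
  rw [real_inner_smul_left, real_inner_smul_right, real_inner_self_eq_norm_sq, hu]; ring

/-- the observable of the column `k` -/
def col (R : ℕ) (k : ℤ) (P : K → ℝ) (σ : ℤ × ℤ → K) : ℝ :=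
  ∑ j ∈ Finset.Icc (-(R : ℤ)) R, P (σ (k, j))

/-- **Systems on the plane.** -/
theorem upper_sys [FiniteDimensional ℝ W] [MeasurableMul K] (c : Cst) {Yb Cy cq M : ℝ}
    (hcq : 0 < cq) (hM : 0 ≤ M) {e : ℝ} (he : 0 < e) (he2 : e ≤ 1 / 10) {u : W} (hu : ‖u‖ = 1)
    {m : ℝ} (hm : 0 < m) {ε : ℝ} (hε : 0 < ε) :
    ∃ R : ℕ, 3 ≤ R ∧ ∃ k₁ > (0 : ℝ), ∃ κ > (0 : ℝ), ∃ β₀ ≥ (1 : ℝ), ∀ β ≥ β₀,
      ∀ S : Sys (ℤ × ℤ) ρ K W W ν c, Lin S Yb Cy → Coer S cq → ∀ Q : Measure (ℤ × ℤ → K),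
      Stt S e β Q → (∀ x ∈ bx (R + 1), ∀ y, S.d x y ≤ rad k₁ β → y ∈ S.Lam) →
      (∀ σ : ℤ × ℤ → K, Dt.BB S (bx R) (fun x => sR m R x • u) σ =
        ∑ x ∈ bx (R + 1), LR m (sR m R) x * inner ℝ u (S.yy (σ x))) → ∀ P : K → ℝ,
      Measurable P → (∀ k, |P k| ≤ M) → (∀ k, |P k - inner ℝ u (S.yy k)| ≤ M * S.nrm k ^ 2) →
      κ ≤ β * (∫ σ, col R 0 P σ * col R 0 P σ ∂Q - (∫ σ, col R 0 P σ ∂Q) *
          ∫ σ, col R 0 P σ ∂Q) ∧
      Real.exp (-(2 * (m + ε))) * (∫ σ, col R 0 P σ * col R 0 P σ ∂Q -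
          (∫ σ, col R 0 P σ ∂Q) * ∫ σ, col R 0 P σ ∂Q) ≤
        ∫ σ, col R 2 P σ * col R 0 P σ ∂Q - (∫ σ, col R 2 P σ ∂Q) * ∫ σ, col R 0 P σ ∂Q := by
  obtain ⟨K', hK⟩ : ∃ K', K' = 1 / cq + 1 := ⟨_, rfl⟩
  have hK0 : 0 < K' := by rw [hK]; positivity
  obtain ⟨s, hs⟩ : ∃ s, s = 2 * Real.sinh m := ⟨_, rfl⟩
  have hs0 : 0 < s := by rw [hs]; have := Real.sinh_pos_iff.2 hm; positivity
  obtain ⟨q, hq⟩ : ∃ q, q = Real.exp (-(2 * m)) := ⟨_, rfl⟩
  obtain ⟨q', hq'⟩ : ∃ q', q' = Real.exp (-(2 * (m + ε))) := ⟨_, rfl⟩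
  obtain ⟨q'', hq''⟩ : ∃ q', q' = Real.exp (-(2 * (m + ε / 2))) := ⟨_, rfl⟩
  have hq0 : 0 < q := by rw [hq]; exact Real.exp_pos _
  have hq'0 : 0 < q' := by rw [hq']; exact Real.exp_pos _
  have hq''0 : 0 < q'' := by rw [hq'']; exact Real.exp_pos _
  have h1 : q' < q'' := by rw [hq', hq'']; exact Real.exp_lt_exp.2 (by linarith)
  have h2 : q'' < q := by rw [hq, hq'']; exact Real.exp_lt_exp.2 (by linarith)
  have hq1 : q < 1 := by
    rw [hq, ← Real.exp_zero]; exact Real.exp_lt_exp.2 (by linarith)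
  obtain ⟨τ, hτ0, hτ1, hτ2⟩ := exists_tau h2 hq''0 hK0 hs0
  obtain ⟨R, hR3, hR⟩ := rr_small hm (η := τ ^ 2) (by positivity)
  have hF : 0 < 2 * (R : ℝ) + 1 := by positivity
  have k0 : (0 : ℤ).natAbs ≤ R := by simp
  have k2 : (2 : ℤ).natAbs ≤ R := by simp; omega
  have hsub : bx R ⊆ bx (R + 1) := by
    intro x hx
    rw [mem_bx] at hx ⊢
    omega
  have hcol : ∀ k : ℤ, k.natAbs ≤ R → nq (bx (R + 1)) (fun x => gR R k x • u) =
      2 * (R : ℝ) + 1 := by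
    intro k hk
    rw [nq_smul_u _ _ hu]
    simp only [gR_sq]
    rw [sum_gR (Nat.le_succ R) hk, card_col]
  have hwk : ∀ k : ℤ, k.natAbs ≤ R → prS (bx R) (fun x => gR R k x • u)
      (fun x => sR m R x • u) = hh m k * (2 * (R : ℝ) + 1) := by
    intro k hk
    rw [prS_smul_u _ _ _ hu, sum_gR le_rfl hk, ← card_col, Finset.mul_sum]
    refine Finset.sum_congr rfl fun j hj => ?_
    rw [Finset.mem_Icc] at hj
    unfold sR aR bR
    rw [if_pos (by exact hk), if_pos (by show j.natAbs ≤ R; omega)]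
  have hh0 : hh m 0 = 1 := by unfold hh; simp
  have hh2 : hh m 2 = q := by
    rw [hq]; unfold hh
    congr 1
    rw [abs_of_pos (by norm_num)]; push_cast; ring
  have ng : ∀ (k : ℤ) (x : ℤ × ℤ), ‖gR R k x • u‖ ≤ 1 := by
    intro k x
    rw [norm_smul, hu, mul_one]; exact gR_le R k x
  obtain ⟨k₁, hk₁, κ, hκ, β₀, hβ₀, H⟩ := ratio_nl (ι := ℤ × ℤ) (ρ := ρ) (W := W) (ν := ν) c
    (Yb := Yb) (Cy := Cy) (M := M) hcq hM he he2 (A := bx R) (A1 := bx (R + 1)) hsub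
    (f0 := fun x => gR R 0 x • u) (f2 := fun x => gR R 2 x • u) (w := fun x => sR m R x • u)
    (r := fun x => rr m R x • u) (fun x hx => by simp only [gR_out k0 hx, zero_smul])
    (fun x hx => by simp only [gR_out k2 hx, zero_smul])
    (fun x hx => by simp only [sR_out hx, zero_smul])
    (fun x hx => by simp only [rr_out (by omega : 1 ≤ R) hx, zero_smul]) (ng 0) (ng 2)
    (fun x => by rw [norm_smul, hu, mul_one]; exact sR_le hm.le R x) hF hK hs0 hq'0 h1 hτ0 hτ1 hτ2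
    hq1 (hcol 0 k0) (hcol 2 k2) (by rw [hwk 0 k0, hh0, one_mul]) (by rw [hwk 2 k2, hh2])
    (by rw [nq_smul_u _ _ hu]; exact hR)
  refine ⟨R, hR3, k₁, hk₁, κ, hκ, β₀, hβ₀, fun β hβ S hS hSc Q hQ hnb hBB P mP bP lP => ?_⟩
  have hloc : ∀ k : ℤ, k.natAbs ≤ R → ∀ σ : ℤ × ℤ → K,
      loc (bx (R + 1)) (fun x g => gR R k x * P g) σ = col R k P σ := by
    intro k hk σ
    unfold loc col
    exact sum_gR (Nat.le_succ R) hk (fun x => P (σ x))
  have hest : ∀ (k : ℤ) (x : ℤ × ℤ) (g : K),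
      |gR R k x * P g - inner ℝ (gR R k x • u) (S.yy g)| ≤ M * S.nrm g ^ 2 := by
    intro k x g
    rw [real_inner_smul_left, ← mul_sub, abs_mul]
    calc _ ≤ 1 * (M * S.nrm g ^ 2) := mul_le_mul (gR_le R k x) (lP g) (abs_nonneg _) zero_le_one
      _ = _ := one_mul _
  have hbd : ∀ (k : ℤ) (x : ℤ × ℤ) (g : K), |gR R k x * P g| ≤ M := by
    intro k x g
    rw [abs_mul]
    calc _ ≤ 1 * M := mul_le_mul (gR_le R k x) (bP g) (abs_nonneg _) zero_le_one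
      _ = _ := one_mul _
  have hfin := H β hβ S hS hSc Q hQ hnb (fun σ => by
      rw [hBB]
      unfold prS
      rw [Finset.mul_sum, ← Finset.sum_add_distrib]
      refine Finset.sum_congr rfl fun x _ => ?_
      rw [real_inner_smul_left, real_inner_smul_left]
      unfold rr
      rw [hs]; ring) (fun x g => gR R 0 x * P g) (fun x g => gR R 2 x * P g)
    (fun x _ => mP.const_mul _) (fun x _ => mP.const_mul _) (fun x _ k => hbd 0 x k)
    (fun x _ k => hbd 2 x k) (fun x _ k => hest 0 x k) (fun x _ k => hest 2 x k)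
  simp only [hloc 0 k0, hloc 2 k2] at hfin
  rw [← hq']
  exact hfin

end

end Pool.Agent.N109.SDS
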