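import Pool.Agent.N109.SDS.Num

/-!
# The covariances of the linear observables of a system
-/

set_option autoImplicit false
set_option linter.unusedSectionVars false
set_option linter.unusedVariables false
set_option linter.style.haveILetI false

open MeasureTheory Finset Filter Function
open scoped ENNReal Classical

namespace Pool.Agent.N109.SDS

open Pool.Agent.N990.Mach Pool.Agent.N109.Slab

noncomputable section

variable {ι ρ K W : Type*} [Group K] [MeasurableSpace K] [NormedAddCommGroup W]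
  [InnerProductSpace ℝ W] [FiniteDimensional ℝ W] {ν : Measure K} {c : Cst}

lemma prS_mono {A A1 : Finset ι} (hA : A ⊆ A1) {f : ι → W} (hf : ∀ x, x ∉ A → f x = 0)
    (φ : ι → W) : prS A f φ = prS A1 f φ := by
  unfold prS
  exact Finset.sum_subset hA fun x _ hx => by rw [hf x hx, inner_zero_left]

lemma prS_bdd {S : Sys ι ρ K W W ν c} {Yb Cy : ℝ} (h : Lin S Yb Cy) (A : Finset ι) (g : ι → W)
    (σ : ι → K) : |prS A g (fun x => S.yy (σ x))| ≤ ∑ x ∈ A, ‖g x‖ * Yb := by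
  unfold prS
  refine (Finset.abs_sum_le_sum_abs _ _).trans (Finset.sum_le_sum fun x _ => ?_)
  exact (abs_real_inner_le_norm _ _).trans
    (mul_le_mul_of_nonneg_left (h.yy_bd _) (norm_nonneg _))

lemma int_bdS {Q : Measure (ι → K)} [IsProbabilityMeasure Q] {f : (ι → K) → ℝ} (hf : Measurable f)
    {C : ℝ} (h : ∀ σ, |f σ| ≤ C) : Integrable f Q :=
  Integrable.of_bound hf.aestronglyMeasurable C (Filter.Eventually.of_forall h)

lemma int_prodS {S : Sys ι ρ K W W ν c} {Yb Cy : ℝ} (h : Lin S Yb Cy) {Q : Measure (ι → K)}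
    [IsProbabilityMeasure Q] (A B : Finset ι) (g g' : ι → W) :
    Integrable (fun σ => prS A g (fun x => S.yy (σ x)) * prS B g' (fun x => S.yy (σ x))) Q := by
  refine int_bdS ((Dt.prS_meas h A g).mul (Dt.prS_meas h B g'))
    (C := (∑ x ∈ A, ‖g x‖ * Yb) * ∑ x ∈ B, ‖g' x‖ * Yb) fun σ => ?_
  rw [abs_mul]
  have hYb := Dt.yb0 h
  exact mul_le_mul (prS_bdd h A g σ) (prS_bdd h B g' σ) (abs_nonneg _)
    (Finset.sum_nonneg fun _ _ => by positivity)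

/-- weighted Cauchy-Schwarz -/
lemma cs_tauS {S : Sys ι ρ K W W ν c} {Yb Cy : ℝ} (hS : Lin S Yb Cy) {Q : Measure (ι → K)}
    [IsProbabilityMeasure Q] (A B : Finset ι) (g h : ι → W) {τ : ℝ} (hτ : 0 < τ) :
    |∫ σ, prS A g (fun x => S.yy (σ x)) * prS B h (fun x => S.yy (σ x)) ∂Q| ≤
      τ / 2 * ∫ σ, prS A g (fun x => S.yy (σ x)) ^ 2 ∂Q +
        1 / (2 * τ) * ∫ σ, prS B h (fun x => S.yy (σ x)) ^ 2 ∂Q := by
  have i1 : Integrable (fun σ => prS A g (fun x => S.yy (σ x)) ^ 2) Q := by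
    simpa [sq] using int_prodS hS (Q := Q) A A g g
  have i2 : Integrable (fun σ => prS B h (fun x => S.yy (σ x)) ^ 2) Q := by
    simpa [sq] using int_prodS hS (Q := Q) B B h h
  have i3 := int_prodS hS (Q := Q) A B g h
  calc |∫ σ, prS A g (fun x => S.yy (σ x)) * prS B h (fun x => S.yy (σ x)) ∂Q| ≤
        ∫ σ, |prS A g (fun x => S.yy (σ x)) * prS B h (fun x => S.yy (σ x))| ∂Q :=
        abs_integral_le_integral_abs
    _ ≤ ∫ σ, (τ / 2 * prS A g (fun x => S.yy (σ x)) ^ 2 +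
        1 / (2 * τ) * prS B h (fun x => S.yy (σ x)) ^ 2) ∂Q := by
        refine integral_mono i3.abs ((i1.const_mul _).add (i2.const_mul _)) fun σ => ?_
        simp only
        set a := prS A g (fun x => S.yy (σ x))
        set b := prS B h (fun x => S.yy (σ x))
        rw [abs_mul]
        have h1 : 0 ≤ (τ * |a| - |b|) ^ 2 / (2 * τ) := by positivity
        have h2 : (τ * |a| - |b|) ^ 2 / (2 * τ) =
            τ / 2 * |a| ^ 2 + 1 / (2 * τ) * |b| ^ 2 - |a| * |b| := by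
          field_simp; ring
        rw [h2, sq_abs, sq_abs] at h1
        linarith
    _ = _ := by
        rw [integral_add (i1.const_mul _) (i2.const_mul _), integral_const_mul, integral_const_mul]

/-- **The covariances of the linear observables.** -/
theorem ratio_lin [MeasurableMul K] (c : Cst) {Yb Cy cq : ℝ} (hcq : 0 < cq) {e : ℝ} (he : 0 < e)
    (he2 : e ≤ 1 / 10) {A A1 : Finset ι} (hA : A ⊆ A1) {f0 f2 w r : ι → W}
    (hf0 : ∀ x, x ∉ A → f0 x = 0) (hf2 : ∀ x, x ∉ A → f2 x = 0) (hw : ∀ x, x ∉ A → w x = 0)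
    (hr : ∀ x, x ∉ A1 → r x = 0) (nf0 : ∀ x, ‖f0 x‖ ≤ 1) (nf2 : ∀ x, ‖f2 x‖ ≤ 1)
    (nw : ∀ x, ‖w x‖ ≤ 1) {F K' s q q' τ : ℝ} (hF : 0 < F) (hK : K' = 1 / cq + 1) (hs0 : 0 < s)
    (hq'0 : 0 < q') (hτ0 : 0 < τ) (hτ1 : τ ≤ 1)
    (hτ2 : q' * (1 + τ + τ * K') < q - τ * (1 + K' + s)) (hq1 : q < 1)
    (hF0 : nq A1 f0 = F) (hF2 : nq A1 f2 = F) (hw0 : prS A f0 w = F) (hw2 : prS A f2 w = q * F)
    (hR : nq A1 r ≤ τ ^ 2 * F) :
    ∃ k₁ > (0 : ℝ), ∃ β₀ ≥ (1 : ℝ), ∀ β ≥ β₀, ∀ S : Sys ι ρ K W W ν c, Lin S Yb Cy → Coer S cq →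
      ∀ Q : Measure (ι → K), Stt S e β Q → (∀ x ∈ A1, ∀ y, S.d x y ≤ rad k₁ β → y ∈ S.Lam) →
      (∀ σ : ι → K, Dt.BB S A w σ = s * prS A1 f0 (fun x => S.yy (σ x)) +
        prS A1 r (fun x => S.yy (σ x))) →
      F * (1 - τ * (1 + K' + s)) ≤
        s * (β * (∫ σ, prS A1 f0 (fun x => S.yy (σ x)) ^ 2 ∂Q -
          (∫ σ, prS A1 f0 (fun x => S.yy (σ x)) ∂Q) ^ 2)) ∧
      F * (q - τ * (1 + K' + s)) ≤
        s * (β * (∫ σ, prS A1 f2 (fun x => S.yy (σ x)) * prS A1 f0 (fun x => S.yy (σ x)) ∂Q -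
          (∫ σ, prS A1 f2 (fun x => S.yy (σ x)) ∂Q) *
            ∫ σ, prS A1 f0 (fun x => S.yy (σ x)) ∂Q)) ∧
      q' * (∫ σ, prS A1 f0 (fun x => S.yy (σ x)) ^ 2 ∂Q -
          (∫ σ, prS A1 f0 (fun x => S.yy (σ x)) ∂Q) ^ 2) ≤
        ∫ σ, prS A1 f2 (fun x => S.yy (σ x)) * prS A1 f0 (fun x => S.yy (σ x)) ∂Q -
          (∫ σ, prS A1 f2 (fun x => S.yy (σ x)) ∂Q) *
            ∫ σ, prS A1 f0 (fun x => S.yy (σ x)) ∂Q := by
  obtain ⟨b1, hb1, H1⟩ := sd_lim (ι := ι) (τ := ρ) (W := W) (ν := ν) c Yb Cy he he2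
  obtain ⟨k₁, hk₁, b2, hb2, H2⟩ := var_bd (ι := ι) (τ := ρ) (W := W) (ν := ν) c (Yb := Yb)
    (Cy := Cy) hcq (n0 := A1.card) (Nat.cast_nonneg _) (G0 := F) hF.le he he2
    (ε := min (τ ^ 2 * F) (τ * Real.sqrt F)) (lt_min (by positivity) (by positivity))
  have A1' := evr (a := e / 16) (b := 0) ((A.card : ℝ)) (by linarith)
  have A2' := evr (a := 0) (b := -(e / 4)) (1 / (τ * F)) (by linarith)
  obtain ⟨b5, hb5⟩ := Filter.eventually_atTop.1 (A1'.and A2')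
  refine ⟨k₁, hk₁, max (max b1 b2) b5, hb1.le.trans ((le_max_left _ _).trans (le_max_left _ _)),
    fun β hβ S hS hSc Q hQ hnb hBB => ?_⟩
  have c1 : b1 ≤ β := ((le_max_left _ _).trans (le_max_left _ _)).trans hβ
  have c2 : b2 ≤ β := ((le_max_right _ _).trans (le_max_left _ _)).trans hβ
  have c5 : b5 ≤ β := (le_max_right _ _).trans hβ
  obtain ⟨d1, d2⟩ := hb5 β c5
  have hβ1 : 1 ≤ β := hb1.le.trans c1
  have hβ0 : 0 < β := by linarith
  rw [Real.rpow_zero, mul_one] at d1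
  rw [Real.rpow_zero] at d2
  haveI := hQ.shf.prob
  have hAL : A ⊆ S.Lam := fun x hx => hnb x (hA hx) x (by rw [S.dself]; exact Nat.zero_le _)
  obtain ⟨s0, -⟩ := H1 β c1 S hS Q hQ A w f0 hAL d1 nw hw nf0
  obtain ⟨s2, -⟩ := H1 β c1 S hS Q hQ A w f2 hAL d1 nw hw nf2
  have hτF : τ ^ 2 * F ≤ F := by
    have h1 : τ ^ 2 ≤ 1 := by nlinarith
    nlinarith
  obtain ⟨v0, e0⟩ := H2 β c2 S hS hSc Q hQ A1 le_rfl hnb f0 (fun x hx => hf0 x fun h => hx (hA h))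
    hF0.le
  obtain ⟨v2, e2⟩ := H2 β c2 S hS hSc Q hQ A1 le_rfl hnb f2 (fun x hx => hf2 x fun h => hx (hA h))
    hF2.le
  obtain ⟨vr, -⟩ := H2 β c2 S hS hSc Q hQ A1 le_rfl hnb r hr (hR.trans hτF)
  rw [hw0] at s0
  rw [hw2] at s2
  rw [hF0] at v0
  rw [hF2] at v2
  set F0 : (ι → K) → ℝ := fun σ => prS A1 f0 (fun x => S.yy (σ x)) with hF0'
  set F2 : (ι → K) → ℝ := fun σ => prS A1 f2 (fun x => S.yy (σ x)) with hF2'
  set Fr : (ι → K) → ℝ := fun σ => prS A1 r (fun x => S.yy (σ x)) with hFr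
  have i00 := int_prodS hS (Q := Q) A1 A1 f0 f0
  have i20 := int_prodS hS (Q := Q) A1 A1 f2 f0
  have i0r := int_prodS hS (Q := Q) A1 A1 f0 r
  have i2r := int_prodS hS (Q := Q) A1 A1 f2 r
  have E0 : ∫ σ, prS A f0 (fun x => S.yy (σ x)) * Dt.BB S A w σ ∂Q =
      s * ∫ σ, F0 σ ^ 2 ∂Q + ∫ σ, F0 σ * Fr σ ∂Q := by
    have : ∀ σ : ι → K, prS A f0 (fun x => S.yy (σ x)) * Dt.BB S A w σ =
        s * (F0 σ * F0 σ) + F0 σ * Fr σ := by
      intro σ; rw [prS_mono hA hf0, hBB]; ring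
    simp only [this]
    rw [integral_add (i00.const_mul s) i0r, integral_const_mul]
    simp only [sq]
    rfl
  have E2 : ∫ σ, prS A f2 (fun x => S.yy (σ x)) * Dt.BB S A w σ ∂Q =
      s * ∫ σ, F2 σ * F0 σ ∂Q + ∫ σ, F2 σ * Fr σ ∂Q := by
    have : ∀ σ : ι → K, prS A f2 (fun x => S.yy (σ x)) * Dt.BB S A w σ =
        s * (F2 σ * F0 σ) + F2 σ * Fr σ := by
      intro σ; rw [prS_mono hA hf2, hBB]; ring
    simp only [this]
    rw [integral_add (i20.const_mul s) i2r, integral_const_mul]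
  rw [E0] at s0
  rw [E2] at s2
  have k0 := cs_tauS hS (Q := Q) A1 A1 f0 r hτ0
  have k2 := cs_tauS hS (Q := Q) A1 A1 f2 r hτ0
  have hsm : β ^ (-(e / 4)) ≤ τ * F := by
    have h2 : β ^ (-(e / 4)) = (1 / (τ * F) * β ^ (-(e / 4))) * (τ * F) := by field_simp
    rw [h2]
    calc _ ≤ 1 * (τ * F) := mul_le_mul_of_nonneg_right d2 (by positivity)
      _ = _ := one_mul _
  have hββ : β ^ (1 / 2 : ℝ) * β ^ (1 / 2 : ℝ) = β := by
    rw [← Real.rpow_add hβ0]; norm_num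
  have hB0 : 0 ≤ β ^ (1 / 2 : ℝ) := Real.rpow_nonneg hβ0.le _
  exact num_aux2 hF hK hcq hs0 hq'0 hτ0 hτ1 hτ2 hq1 hβ0 (Real.mul_self_sqrt hF.le)
    (Real.sqrt_nonneg _) hB0 hββ
    (v0.trans (by gcongr; exact min_le_left _ _)) (v2.trans (by gcongr; exact min_le_left _ _))
    hR (vr.trans (by gcongr; exact min_le_left _ _)) k0 k2 (s0.trans hsm) (s2.trans hsm)
    (e0.trans (mul_le_mul_of_nonneg_right (min_le_right _ _) hB0))
    (e2.trans (mul_le_mul_of_nonneg_right (min_le_right _ _) hB0))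

end

end Pool.Agent.N109.SDS
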