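import Pool.Agent.N109.SDS.Nonlin

/-!
# The covariances of nonlinear local observables of a system
-/

set_option autoImplicit false
set_option linter.unusedSectionVars false
set_option linter.unusedVariables false
set_option linter.style.haveILetI false

open MeasureTheory Finset Filter Function
open scoped ENNReal Classical

namespace Pool.Agent.N109.SDS

open Pool.Agent.N990.Mach Pool.Agent.N109.Slab

noncomputable section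

variable {ι ρ K W : Type*} [Group K] [MeasurableSpace K] [NormedAddCommGroup W]
  [InnerProductSpace ℝ W] [FiniteDimensional ℝ W] {ν : Measure K} {c : Cst}

/-- **The covariances of nonlinear observables.** -/
theorem ratio_nl [MeasurableMul K] (c : Cst) {Yb Cy cq M : ℝ} (hcq : 0 < cq) (hM : 0 ≤ M) {e : ℝ}
    (he : 0 < e)
    (he2 : e ≤ 1 / 10) {A A1 : Finset ι} (hA : A ⊆ A1) {f0 f2 w r : ι → W}
    (hf0 : ∀ x, x ∉ A → f0 x = 0) (hf2 : ∀ x, x ∉ A → f2 x = 0) (hw : ∀ x, x ∉ A → w x = 0)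
    (hr : ∀ x, x ∉ A1 → r x = 0) (nf0 : ∀ x, ‖f0 x‖ ≤ 1) (nf2 : ∀ x, ‖f2 x‖ ≤ 1)
    (nw : ∀ x, ‖w x‖ ≤ 1) {F K' s q q' q'' τ : ℝ} (hF : 0 < F) (hK : K' = 1 / cq + 1) (hs0 : 0 < s)
    (hq'0 : 0 < q') (hq : q' < q'') (hτ0 : 0 < τ) (hτ1 : τ ≤ 1)
    (hτ2 : q'' * (1 + τ + τ * K') < q - τ * (1 + K' + s)) (hq1 : q < 1)
    (hF0 : nq A1 f0 = F) (hF2 : nq A1 f2 = F) (hw0 : prS A f0 w = F) (hw2 : prS A f2 w = q * F)
    (hR : nq A1 r ≤ τ ^ 2 * F) :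
    ∃ k₁ > (0 : ℝ), ∃ κ > (0 : ℝ), ∃ β₀ ≥ (1 : ℝ), ∀ β ≥ β₀, ∀ S : Sys ι ρ K W W ν c, Lin S Yb Cy →
      Coer S cq → ∀ Q : Measure (ι → K), Stt S e β Q →
      (∀ x ∈ A1, ∀ y, S.d x y ≤ rad k₁ β → y ∈ S.Lam) →
      (∀ σ : ι → K, Dt.BB S A w σ = s * prS A1 f0 (fun x => S.yy (σ x)) +
        prS A1 r (fun x => S.yy (σ x))) → ∀ P0 P2 : ι → K → ℝ,
      (∀ x ∈ A1, Measurable (P0 x)) → (∀ x ∈ A1, Measurable (P2 x)) →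
      (∀ x ∈ A1, ∀ k, |P0 x k| ≤ M) → (∀ x ∈ A1, ∀ k, |P2 x k| ≤ M) →
      (∀ x ∈ A1, ∀ k, |P0 x k - inner ℝ (f0 x) (S.yy k)| ≤ M * S.nrm k ^ 2) →
      (∀ x ∈ A1, ∀ k, |P2 x k - inner ℝ (f2 x) (S.yy k)| ≤ M * S.nrm k ^ 2) →
      κ ≤ β * (∫ σ, loc A1 P0 σ * loc A1 P0 σ ∂Q - (∫ σ, loc A1 P0 σ ∂Q) *
          ∫ σ, loc A1 P0 σ ∂Q) ∧
      q' * (∫ σ, loc A1 P0 σ * loc A1 P0 σ ∂Q - (∫ σ, loc A1 P0 σ ∂Q) *
          ∫ σ, loc A1 P0 σ ∂Q) ≤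
        ∫ σ, loc A1 P2 σ * loc A1 P0 σ ∂Q - (∫ σ, loc A1 P2 σ ∂Q) * ∫ σ, loc A1 P0 σ ∂Q := by
  have hq'' : 0 < q'' := hq'0.trans hq
  have hK'0 : 0 < K' := by rw [hK]; positivity
  obtain ⟨k₁, hk₁, b1, hb1, H1⟩ := ratio_lin (ι := ι) (ρ := ρ) (W := W) (ν := ν) c (Yb := Yb)
    (Cy := Cy) hcq he he2 hA hf0 hf2 hw hr nf0 nf2 nw hF hK hs0 hq'' hτ0 hτ1 hτ2 hq1 hF0 hF2
    hw0 hw2 hR
  have h0 : 0 < q - τ * (1 + K' + s) := lt_of_le_of_lt (by positivity) hτ2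
  have h1 : 0 < 1 - τ * (1 + K' + s) := by linarith
  obtain ⟨κ, hκ⟩ : ∃ κ, κ = F * (1 - τ * (1 + K' + s)) / s := ⟨_, rfl⟩
  have hκ0 : 0 < κ := by rw [hκ]; positivity
  obtain ⟨η, hη⟩ : ∃ η, η = min (κ / 2) ((q'' - q') * κ / 2) := ⟨_, rfl⟩
  have hqq : 0 < q'' - q' := by linarith
  have hη0 : 0 < η := by rw [hη]; exact lt_min (by positivity) (by positivity)
  have hη1 : η ≤ κ / 2 := hη ▸ min_le_left _ _
  have hη2 : 2 * η ≤ (q'' - q') * κ := by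
    have := hη ▸ min_le_right (κ / 2) ((q'' - q') * κ / 2)
    linarith
  obtain ⟨b2, hb2, H2⟩ := nonlin (ι := ι) (ρ := ρ) (W := W) (ν := ν) c Yb Cy M hM he he2 A1 hη0
  have hq''1 : q'' < 1 := by
    have h2 : q'' * 1 ≤ q'' * (1 + τ + τ * K') :=
      mul_le_mul_of_nonneg_left (by nlinarith [mul_pos hτ0 hK'0]) hq''.le
    have h3 : 0 < τ * (1 + K' + s) := by positivity
    linarith
  refine ⟨k₁, hk₁, κ / 2, by positivity, max b1 b2, hb1.le.trans (le_max_left _ _),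
    fun β hβ S hS hSc Q hQ hnb hBB P0 P2 m0 m2 u0 u2 l0 l2 => ?_⟩
  have hβ0 : 0 < β := by linarith [hb1.le.trans ((le_max_left _ _).trans hβ)]
  obtain ⟨r1, -, r3⟩ := H1 β ((le_max_left _ _).trans hβ) S hS hSc Q hQ hnb hBB
  have n00 := H2 β ((le_max_right _ _).trans hβ) S hS Q hQ f0 f0 P0 P0 (fun x _ => nf0 x)
    (fun x _ => nf0 x) m0 m0 u0 u0 l0 l0
  have n20 := H2 β ((le_max_right _ _).trans hβ) S hS Q hQ f2 f0 P2 P0 (fun x _ => nf2 x)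
    (fun x _ => nf0 x) m2 m0 u2 u0 l2 l0
  simp only [sq] at r1 r3
  obtain ⟨V, hV⟩ : ∃ V, V = ∫ σ, prS A1 f0 (fun x => S.yy (σ x)) *
      prS A1 f0 (fun x => S.yy (σ x)) ∂Q - (∫ σ, prS A1 f0 (fun x => S.yy (σ x)) ∂Q) *
        ∫ σ, prS A1 f0 (fun x => S.yy (σ x)) ∂Q := ⟨_, rfl⟩
  obtain ⟨C, hC⟩ : ∃ C, C = ∫ σ, prS A1 f2 (fun x => S.yy (σ x)) *
      prS A1 f0 (fun x => S.yy (σ x)) ∂Q - (∫ σ, prS A1 f2 (fun x => S.yy (σ x)) ∂Q) *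
        ∫ σ, prS A1 f0 (fun x => S.yy (σ x)) ∂Q := ⟨_, rfl⟩
  rw [← hV] at r1 r3 n00
  rw [← hC] at r3 n20
  have hVκ : κ ≤ β * V := by
    rw [hκ, div_le_iff₀ hs0]
    linarith
  refine ⟨?_, num_nl hβ0 hq'0 (by linarith) hq.le hη2 hVκ r3 n00 n20 hη0.le⟩
  have := (abs_le.1 n00).1
  linarith

end

end Pool.Agent.N109.SDS
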