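import Pool.Agent.N109.SDS.PlaneSys
import Pool.Agent.N984.TW.SysF
import Pool.Agent.N726.TW.Meas

/-!
# The gauge fixed ensemble satisfies the hypotheses of the Schwinger-Dyson machine
-/

set_option autoImplicit false
set_option linter.unusedSectionVars false
set_option linter.unusedVariables false
set_option linter.style.haveILetI false

open MeasureTheory Matrix Filter
open scoped Matrix.Norms.Frobenius ContDiff Topology ENNReal
open Pool.Agent.H906R3.YM Pool.Agent.W793.YM Pool.Agent.TH618.YM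
open Pool.Agent.N990.Mach (tch cl Sys Cst)
open Pool.Agent.N109.SDS

namespace Pool.Agent.N984.TW

noncomputable section

section spin

variable {N n : ℕ} {G : Subgroup (UN N)} (B : Frame G n) (hG : IsClosed (G : Set (UN N)))
  {J : Type*} [Fintype J] {Z : Type*} [Group Z]

/-- the coordinates of a product -/
lemma pp_mul (g g' : (J → G) × Z) : ‖pp B (g * g') - pp B g - pp B g'‖ ≤ nrm g * nrm g' := by
  have h0 : 0 ≤ nrm g * nrm g' := mul_nonneg (nrm_nonneg _) (nrm_nonneg _)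
  refine abs_le_of_sq_le_sq' ?_ h0 |>.2
  rw [norm_sq_E, mul_pow, nrm_sq, nrm_sq]
  have h1 : ∀ (j : J) (a : Fin n), (pp B (g * g') - pp B g - pp B g') (j, a) =
      pc B ((mt (g.1 j) - 1) * (mt (g'.1 j) - 1)) a := by
    intro j a
    have e1 : (pp B (g * g') - pp B g - pp B g') (j, a) = pc B (mt (g.1 j * g'.1 j) - 1) a -
        pc B (mt (g.1 j) - 1) a - pc B (mt (g'.1 j) - 1) a := rfl
    have e2 : (mt (g.1 j) - 1) * (mt (g'.1 j) - 1) = (mt (g.1 j * g'.1 j) - 1) -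
        (mt (g.1 j) - 1) - (mt (g'.1 j) - 1) := by
      rw [mt_mul]; noncomm_ring
    rw [e1, e2, pc_sub B (mt (g.1 j * g'.1 j) - 1 - (mt (g.1 j) - 1)) (mt (g'.1 j) - 1),
      pc_sub B (mt (g.1 j * g'.1 j) - 1) (mt (g.1 j) - 1)]
    rfl
  simp only [h1]
  have h2 : ∑ j : J, ∑ a : Fin n, pc B ((mt (g.1 j) - 1) * (mt (g'.1 j) - 1)) a ^ 2 ≤
      ∑ j : J, nsq g * ‖mt (g'.1 j) - 1‖ ^ 2 := by
    refine Finset.sum_le_sum fun j _ => (pc_sq_le B _).trans ?_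
    have h3 : ‖(mt (g.1 j) - 1) * (mt (g'.1 j) - 1)‖ ≤ ‖mt (g.1 j) - 1‖ * ‖mt (g'.1 j) - 1‖ :=
      norm_mul_le _ _
    have h4 : ‖mt (g.1 j) - 1‖ ^ 2 ≤ nsq g := by
      rw [← nrm_sq]
      exact pow_le_pow_left₀ (norm_nonneg _) (norm_j_le g j) 2
    calc ‖(mt (g.1 j) - 1) * (mt (g'.1 j) - 1)‖ ^ 2 ≤
          (‖mt (g.1 j) - 1‖ * ‖mt (g'.1 j) - 1‖) ^ 2 := pow_le_pow_left₀ (norm_nonneg _) h3 2
      _ = ‖mt (g.1 j) - 1‖ ^ 2 * ‖mt (g'.1 j) - 1‖ ^ 2 := mul_pow _ _ _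
      _ ≤ _ := mul_le_mul_of_nonneg_right h4 (sq_nonneg _)
  refine h2.trans ?_
  rw [← Finset.mul_sum]
  refine mul_le_mul_of_nonneg_left ?_ (nsq_nonneg g)
  exact le_add_of_nonneg_right (dz_nonneg g'.2)

lemma exx_zero : (exx B hG 0 : (J → G) × Z) = 1 := by
  unfold exx
  refine Prod.ext ?_ rfl
  funext j
  exact Ek_zero B hG

end spin

variable {N l n : ℕ} [NeZero N] [NeZero l]

section meas

variable [MeasurableSpace (SU N)] [BorelSpace (SU N)]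

lemma pp_meas_apply (𝔇 : Dat N l n) (q : (Tor l × Fin 4) × Fin n) :
    Measurable fun g : 𝔇.KK => pp 𝔇.B g q := by
  have h1 : Continuous fun U : SU N => pc 𝔇.B (mt U - 1) q.2 := by
    have h2 : Continuous fun U : SU N => mt U :=
      continuous_subtype_val.comp continuous_subtype_val
    have h4 : Continuous fun U : SU N => mt U - 1 := h2.sub continuous_const
    have h3 := ((pc_contDiff 𝔇.B).continuous).comp h4
    exact (continuous_apply q.2).comp h3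
  exact h1.measurable.comp ((measurable_pi_apply q.1).comp measurable_fst)

lemma pp_meas (𝔇 : Dat N l n) (u : EV l n) : Measurable fun g : 𝔇.KK => inner ℝ u (pp 𝔇.B g) := by
  have h1 : ∀ g : 𝔇.KK, inner ℝ u (pp 𝔇.B g) = ∑ q, u q * pp 𝔇.B g q := by
    intro g
    rw [PiLp.inner_apply]
    refine Finset.sum_congr rfl fun q _ => ?_
    simp [mul_comm]
  simp only [h1]
  exact Finset.measurable_fun_sum _ fun q _ => (pp_meas_apply 𝔇 q).const_mul _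

lemma bS_meas (𝔇 : Dat N l n) {δ : ℝ} (hδ : 0 < δ) (hδ₀ : δ ≤ 𝔇.δ₀) (Λ : Finset Pl) (t : Pl)
    (w : Pl → EV l n) : Measurable fun σ : Pl → 𝔇.KK =>
      𝔇.bS hδ hδ₀ Λ t (fun y => pp 𝔇.B (σ y)) w := by
  unfold Dat.bS
  have h1 : Continuous fun ξ : Dat.II l → Fin n → ℝ =>
      𝔇.hs hδ hδ₀ (Dat.flg Λ t) ξ (Dat.xw (Dat.flg Λ t) t w) :=
    ((𝔇.hs hδ hδ₀ (Dat.flg Λ t)).flip (Dat.xw (Dat.flg Λ t) t w)).continuous
  refine h1.measurable.comp ?_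
  refine measurable_pi_lambda _ fun p => measurable_pi_lambda _ fun a => ?_
  simp only [Dat.xw_apply]
  split_ifs
  · exact (pp_meas_apply 𝔇 (p.2, a)).comp (measurable_pi_apply _)
  · exact measurable_const

end meas

namespace Dat

variable (𝔇 : Dat N l n) [MeasurableSpace (SU N)] [BorelSpace (SU N)] (μ : Measure (SU N))
  [IsProbabilityMeasure μ] [μ.IsMulLeftInvariant] [μ.IsMulRightInvariant]

/-- the properties of the system of the rectangle which are used -/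
structure SysP {c : Cst} {δ r : ℝ} (hδ : 0 < δ) (hδ₀ : δ ≤ 𝔇.δ₀) (β : ℝ) (a b : Pl)
    (S : Sys Pl Pl 𝔇.KK (EV l n) (EV l n) (𝔇.nu μ) c) : Prop where
  L : S.Lam = Finset.Icc a b
  d : S.d = dP
  T : S.T = TT a b
  sp : S.sp = spt (Finset.Icc a b)
  h : ∀ t g, S.h t g = 𝔇.hT μ δ r β (Finset.Icc a b) t g
  nrm : S.nrm = nrm
  yy : S.yy = pp 𝔇.B
  ex : S.ex = exx 𝔇.B 𝔇.hG
  b : S.b = 𝔇.bS hδ hδ₀ (Finset.Icc a b)
  yx : ∀ w : EV l n, ‖w‖ ≤ c.r0 → pp 𝔇.B (exx 𝔇.B 𝔇.hG w : 𝔇.KK) = w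

/-- **The gauge fixed ensemble is a system of the machine.** As `exists_sys_gen`. -/
theorem exists_sysP {δ r : ℝ} (hδ : 0 < δ) (hδ₀ : δ ≤ 𝔇.δ₀) (hr : 0 < r) (hr₀ : 16 * r ≤ 𝔇.c₀) :
    ∃ c : Cst, ∀ β : ℝ, 1 ≤ β → ∀ a b : Pl, a ≤ b →
      ∃ S : Sys Pl Pl 𝔇.KK (EV l n) (EV l n) (𝔇.nu μ) c, 𝔇.SysP μ (r := r) hδ hδ₀ β a b S := by
  obtain ⟨Ch, al, hCh, hal, hH⟩ := 𝔇.harm_ex μ hδ hδ₀ hr hr₀
  have hnm := nrm_meas 𝔇
  obtain ⟨C0, hC0, hup⟩ := 𝔇.hT_sys_upper μ hδ hδ₀ hr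
  obtain ⟨c0, hc0, hco⟩ := 𝔇.hT_sys_coer μ hδ hδ₀ hr hr₀
  obtain ⟨CT, ρT, hCT, hρT, hTy⟩ := 𝔇.taylor μ hδ hδ₀ hr
  obtain ⟨cv, hcv, nv, hnv, hvol⟩ := vol_nu 𝔇 μ
  obtain ⟨ρE, hρE, hE⟩ := exx_spec 𝔇.B 𝔇.hG (J := Tor l × Fin 4) 𝔇.Zc
  obtain ⟨nm, hnm1, hnmle⟩ := nrm_le_const (N := N) (G := SU N) (J := Tor l × Fin 4) (Z := 𝔇.Zc)
  obtain ⟨r0, hr0⟩ : ∃ r0 : ℝ, r0 = min 1 (min ρT ρE) := ⟨_, rfl⟩
  have hr00 : 0 < r0 := by rw [hr0]; positivity
  have hr01 : r0 ≤ 1 := hr0 ▸ min_le_left _ _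
  have hr0T : r0 ≤ ρT := hr0 ▸ (min_le_right _ _).trans (min_le_left _ _)
  have hr0E : r0 ≤ ρE := hr0 ▸ (min_le_right _ _).trans (min_le_right _ _)
  have hCb := 𝔇.CbS_nonneg hδ hδ₀
  let c : Cst :=
    { Cg := 4, Dg := 2, C0 := C0, c0 := c0, Cn := 4, CT := CT, Cb := 𝔇.CbS hδ hδ₀
      Ch := Ch
      al := al
      cv := cv, nv := nv, r0 := r0, nm := nm
      hCg := by norm_num, hC0 := hC0, hc0 := hc0, hCn := by norm_num, hCT := hCT, hCb := hCb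
      hCh := hCh
      hal := hal
      hcv := hcv, hnv := hnv, hr0 := hr00, hr1 := hr01, hnm := hnm1 }
  refine ⟨c, fun β hβ a b hab => ?_⟩
  have hccle : ∀ (t : Pl) (w : Pl → EV l n), 𝔇.ccS hδ hδ₀ (Finset.Icc a b) t w =
      1 / 2 * 𝔇.bS hδ hδ₀ (Finset.Icc a b) t w w := fun _ _ => rfl
  refine ⟨{ d := dP, dself := dP_self, dsymm := dP_symm, dtri := fun x y z => dP_tri x y z
            growth := dP_growth
            Lam := Finset.Icc a b, T := TT a b, sp := spt (Finset.Icc a b)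
            diam := fun t _ => spt_diam _ t
            tcard := TT_card a b
            h := 𝔇.hT μ δ r β (Finset.Icc a b)
            hloc := fun t _ φ φ' h => 𝔇.hT_loc μ δ r β _ t φ φ' h
            hmeas := fun t _ => 𝔇.hT_meas μ hδ hδ₀ r β _ t
            hbd := fun t _ => 𝔇.hT_bd μ hδ hδ₀ hr _ t hβ
            nrm := nrm, nrm_meas := hnm, nrm_nonneg := nrm_nonneg, nrm_one := nrm_one
            nrm_mul := nrm_mul, nrm_inv := nrm_inv, nrm_le := hnmle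
            vol := hvol
            upper := fun A _ φ => by
              refine (hup β hβ a b A φ).trans (le_of_eq ?_)
              refine congrArg (C0 * ·) (Finset.sum_congr ?_ fun _ _ => rfl)
              ext x
              simp only [Finset.mem_union]
            coer := fun A hA φ => hco β hβ a b A hA φ
            yy := pp 𝔇.B
            yy_le := fun g _ => (pp_le 𝔇.B g).trans (by linarith [nrm_nonneg g])
            p := pp 𝔇.B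
            ex := exx 𝔇.B 𝔇.hG
            Rel := fun _ om v w => 𝔇.RelT om v w
            rel_p := fun d om g h1 h2 h3 => ⟨rfl, by linarith [nrm_nonneg g]⟩
            p_le := fun om g h1 _ => (pp_le 𝔇.B g).trans h1
            rel_ex := fun d om w h1 h2 h3 => ?_
            ex_nrm := fun om w h1 h2 => ?_
            rel_one := fun d om h1 h2 => ⟨pp_one 𝔇.B, ?_⟩
            b := 𝔇.bS hδ hδ₀ (Finset.Icc a b)
            cc := 𝔇.ccS hδ hδ₀ (Finset.Icc a b)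
            b_add := fun t φ φ' w => 𝔇.bS_add_left hδ hδ₀ _ t φ φ' w
            b_bd := fun t ht φ w x y hx hy => 𝔇.bS_bd hδ hδ₀ (flg_ne hab ht) φ w x y hx hy
            cc_bd := fun t ht w y hy => ?_
            taylor := fun t _ φ v w d om h1 h2 h3 h4 h5 => ?_
            harm := fun A hA z => ?_ }, ⟨rfl, rfl, rfl, rfl, fun t g => rfl, rfl, rfl, rfl, rfl,
              fun w hw => (hE w (hw.trans hr0E)).1⟩⟩
  · have h4 := hE w ((h1.trans (h2.trans h3)).trans hr0E)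
    exact ⟨h4.1, h4.2.trans (by linarith)⟩
  · have h4 := hE w ((h1.trans h2).trans hr0E)
    exact h4.2.trans (by linarith)
  · have h4 : TW.nrm (1 : 𝔇.KK) = 0 := nrm_one
    rw [h4]; positivity
  · have h1 := 𝔇.bS_bd hδ hδ₀ (flg_ne hab ht) w w y y hy hy
    rw [hccle, abs_mul, abs_of_pos (by norm_num : (0 : ℝ) < 1 / 2)]
    have h2 : 0 ≤ |𝔇.bS hδ hδ₀ (Finset.Icc a b) t w w| := abs_nonneg _
    calc 1 / 2 * |𝔇.bS hδ hδ₀ (Finset.Icc a b) t w w| ≤ |𝔇.bS hδ hδ₀ (Finset.Icc a b) t w w| := by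
          linarith
      _ ≤ 𝔇.CbS hδ hδ₀ * y * y := h1
      _ = 𝔇.CbS hδ hδ₀ * y ^ 2 := by ring
  · exact hTy β _ t φ v w d om h1 h2 (h3.trans hr0T) h4 h5
  · exact hH a b hab A hA z

variable {𝔇 μ}

/-- the linearisation properties -/
theorem SysP.lin {c : Cst} {δ r : ℝ} {hδ : 0 < δ} {hδ₀ : δ ≤ 𝔇.δ₀} {β : ℝ} {a b : Pl}
    {S : Sys Pl Pl 𝔇.KK (EV l n) (EV l n) (𝔇.nu μ) c} (h : 𝔇.SysP μ (r := r) hδ hδ₀ β a b S)
    : Lin S c.nm 1 where
  yy_bd g := by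
    rw [h.yy]
    refine (pp_le 𝔇.B g).trans ?_
    rw [← h.nrm]
    exact S.nrm_le g
  Cy0 := zero_le_one
  yy_mul g g' := by
    rw [h.yy, h.nrm, one_mul]
    exact pp_mul 𝔇.B g g'
  yy_ex w hw := by
    rw [h.yy, h.ex]; exact h.yx w hw
  ex_zero := by rw [h.ex]; exact exx_zero 𝔇.B 𝔇.hG
  yy_meas u := by rw [h.yy]; exact pp_meas 𝔇 u
  b_meas t _ w := by
    rw [h.yy, h.b]; exact bS_meas 𝔇 hδ hδ₀ _ t w
  b_smul_left t a φ w := by rw [h.b]; exact 𝔇.bS_smul_left hδ hδ₀ _ t a φ w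
  b_add_right t φ w w' := by rw [h.b]; exact 𝔇.bS_add_right hδ hδ₀ _ t φ w w'
  b_smul_right t a φ w := by rw [h.b]; exact 𝔇.bS_smul_right hδ hδ₀ _ t a φ w

variable (𝔇 μ)

/-- coercivity -/
theorem exists_coer {δ r : ℝ} (hδ : 0 < δ) (hδ₀ : δ ≤ 𝔇.δ₀) (hr : 0 < r) (hr₀ : 16 * r ≤ 𝔇.c₀) :
    ∃ cq : ℝ, 0 < cq ∧ ∀ (c : Cst) (β : ℝ) (a b : Pl)
      (S : Sys Pl Pl 𝔇.KK (EV l n) (EV l n) (𝔇.nu μ) c), 𝔇.SysP μ (r := r) hδ hδ₀ β a b S →
      Coer S cq := by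
  obtain ⟨cq, hcq, H⟩ := 𝔇.bS_coer μ hδ hδ₀ hr hr₀
  refine ⟨cq, hcq, fun c β a b S hS A hA φ _ => ?_⟩
  rw [hS.L] at hA
  rw [hS.T, hS.sp, hS.b]
  exact H a b A hA φ

end Dat

end

end Pool.Agent.N984.TW
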