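import Pool.Agent.N109.SDS.TWLin
import Pool.Agent.N726.TW.Fin

/-!
# The observable: sums of a class function of the torus links along a column
-/

set_option autoImplicit false
set_option linter.unusedSectionVars false
set_option linter.unusedVariables false
set_option linter.style.haveILetI false

open MeasureTheory Matrix Filter
open scoped Matrix.Norms.Frobenius ContDiff Topology ENNReal
open Pool.Agent.H906R3.YM Pool.Agent.W793.YM Pool.Agent.TH618.YM
open Pool.Agent.N990.Mach (tch cl Sys Cst)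
open Pool.Agent.N109.SDS Pool.Agent.N986.PB Pool.Agent.N726.TW

namespace Pool.Agent.N984.TW

noncomputable section

variable {N l n : ℕ} [NeZero N] [NeZero l]

/-- the observable of the column `k` -/
def oC (Φ : (Tor l × Fin 2 → SU N) → ℝ) (R : ℕ) (k : ℤ) (U : Pl → Fib N l) : ℝ :=
  ∑ j ∈ Finset.Icc (-(R : ℤ)) R, Φ (phi (U (k, j)))

section

variable {Φ : (Tor l × Fin 2 → SU N) → ℝ}

lemma oC_inv (hΦ : ∀ (h : Tor l → SU N) (φ : Tor l × Fin 2 → SU N), Φ (act sE tE h φ) = Φ φ)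
    (R : ℕ) (k : ℤ) : GaugeInv (oC Φ R k) := by
  intro h U
  unfold oC
  refine Finset.sum_congr rfl fun j _ => ?_
  rw [phi_gt, hΦ]

lemma phi_congr {u v : Fib N l} (h : ∀ p : Tor l × Fin 4, eP p.2 = 0 → u p = v p) :
    phi u = phi v := by
  funext e
  refine h _ ?_
  show eP (Fin.natAdd 2 e.2) = 0
  obtain ⟨y, j⟩ := e
  fin_cases j <;> rfl

lemma oC_dep (R : ℕ) (k : ℤ) {D : Finset Pl}
    (hD : ∀ j ∈ Finset.Icc (-(R : ℤ)) R, (k, j) ∈ D) : DepOn (oC Φ R k) D := by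
  intro U U' h
  unfold oC
  refine Finset.sum_congr rfl fun j hj => ?_
  congr 1
  refine phi_congr fun p hp => h _ p (hD j hj) ?_
  rw [hp, add_zero]
  exact hD j hj

lemma oC_refl (R : ℕ) (U : Pl → Fib N l) : oC Φ R 0 (refl U) = oC Φ R 0 U := by
  unfold oC
  refine Finset.sum_congr rfl fun j _ => ?_
  congr 1
  refine phi_congr fun p hp => ?_
  unfold refl
  rw [if_neg]
  · simp
  · intro h
    rw [h] at hp
    have : (eP 0).1 = (0 : Pl).1 := by rw [hp]
    exact absurd this (by decide)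

lemma oC_shift (R : ℕ) (k : ℤ) (U : Pl → Fib N l) : oC Φ R 0 (shift (k, 0) U) = oC Φ R k U := by
  unfold oC shift
  refine Finset.sum_congr rfl fun j _ => ?_
  simp

lemma oC_le {C : ℝ} (hC : ∀ φ, |Φ φ| ≤ C) (R : ℕ) (k : ℤ) (U : Pl → Fib N l) :
    |oC Φ R k U| ≤ (2 * (R : ℝ) + 1) * C := by
  unfold oC
  refine (Finset.abs_sum_le_sum_abs _ _).trans ((Finset.sum_le_sum
    (g := fun _ => 1 * C) fun j _ => by rw [one_mul]; exact hC _).trans ?_)
  rw [← Finset.sum_mul, card_col]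

lemma oC_meas [MeasurableSpace (SU N)] [BorelSpace (SU N)] (hΦ : Continuous Φ) (R : ℕ) (k : ℤ) :
    Measurable (oC Φ R k) := by
  unfold oC
  refine Finset.measurable_fun_sum _ fun j _ => ?_
  refine hΦ.measurable.comp ?_
  unfold phi
  exact measurable_pi_lambda _ fun e =>
    (measurable_pi_apply (e.1, Fin.natAdd 2 e.2)).comp (measurable_pi_apply ((k, j) : Pl))

/-- the observable in the gauge fixed ensemble -/
lemma oC_lift (𝔇 : Dat N l n) (s : ℤ) (R : ℕ) (k : ℤ) (g : Pl → 𝔇.KK) :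
    oC Φ R k (𝔇.lift s g) = ∑ j ∈ Finset.Icc (-(R : ℤ)) R, Φ (phi (g (k, j)).1 * 𝔇.φ₀) := by
  unfold oC
  refine Finset.sum_congr rfl fun j _ => ?_
  congr 1
  rw [← 𝔇.phi_mul_u0]
  refine phi_congr fun p hp => ?_
  unfold Dat.lift
  rw [if_neg, one_mul]
  · rfl
  · intro h
    rw [h] at hp
    have : (eP 0).1 = (0 : Pl).1 := by rw [hp]
    exact absurd this (by decide)

end

variable (𝔇 : Dat N l n) [MeasurableSpace (SU N)] [BorelSpace (SU N)] (μ : Measure (SU N))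
  [IsProbabilityMeasure μ] [μ.IsMulLeftInvariant] [μ.IsMulRightInvariant]

variable {𝔇 μ}

/-- expectations of gauge invariant functions in the ensemble -/
theorem expect_gib {δ r β : ℝ} (hδ : 0 < δ) (hδ₀ : δ ≤ 𝔇.δ₀) (hr : 0 < r) (hr₀ : 16 * r ≤ 𝔇.c₀)
    (hβ : 0 < β) {a b : Pl} {c : Cst} {S : Sys Pl Pl 𝔇.KK (EV l n) (EV l n) (𝔇.nu μ) c}
    (hS : 𝔇.SysP μ (r := r) hδ hδ₀ β a b S) {F : (Pl → Fib N l) → ℝ} (hm : Measurable F) {B : ℝ}
    (hB : ∀ U, |F U| ≤ B) (hi : GaugeInv F) (hD : DepOn F (Finset.Icc a b)) :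
    expect μ 𝔇.z β (Finset.Icc a b) F = ∫ g, F (𝔇.lift a.2 g) ∂(gib S β) := by
  haveI := nu_probability 𝔇 μ
  haveI := gib_prob S β
  have hS' : SysFor (𝔇 := 𝔇) (μ := μ) S δ r β a b := ⟨hS.L, hS.d, hS.T, hS.sp, hS.h⟩
  have hw := good_dec S β
  have h0 : ∀ U, 0 ≤ F U + B := fun U => by have := (abs_le.1 (hB U)).1; linarith
  have e1 := expect_avg hδ hδ₀ hr hr₀ hβ hw hS'.w_eq (F := fun U => F U + B) (hm.add_const B) h0
    (fun h U => by simp only [hi h U]) (fun U U' h => by simp only [hD U U' h])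
  have hz : ∀ U : Pl → Fib N l, |(0 : ℝ)| ≤ |B| + |B| := fun U => by
    rw [abs_zero]; positivity
  have hB' : ∀ U, |F U| ≤ |B| + |B| := fun U =>
    (hB U).trans ((le_abs_self B).trans (le_add_of_nonneg_right (abs_nonneg _)))
  have e2 := expect_lin hδ hδ₀ hr hr₀ hβ hw hS'.w_eq (F := F) (G := fun _ => 0) (H := fun _ => 0)
    hm measurable_const measurable_const hB' hz hz 1 0 0 B
  simp only [one_mul, zero_mul, add_zero] at e2
  rw [e1] at e2
  have ml : Measurable fun g : Pl → 𝔇.KK => F (𝔇.lift a.2 g) := hm.comp (lift_meas 𝔇 a.2)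
  have hf : Measurable fun g : Pl → 𝔇.KK => ENNReal.ofReal (F (𝔇.lift a.2 g) + B) :=
    ENNReal.measurable_ofReal.comp (ml.add_const B)
  have e3 := lint_gib S β hf
  have e4 : ev (𝔇.nu μ) (S.w β) (Finset.Icc a b)
      (fun g => ENNReal.ofReal (F (𝔇.lift a.2 g) + B)) 1 =
      ∫⁻ g, ENNReal.ofReal (F (𝔇.lift a.2 g) + B) ∂(gib S β) := by
    rw [e3, hS.L]
    exact congrArg (fun d : DecidableEq Pl => @ev Pl d 𝔇.KK _ (𝔇.nu μ) (S.w β) (Finset.Icc a b)
      (fun g => ENNReal.ofReal (F (𝔇.lift a.2 g) + B)) 1) (Subsingleton.elim _ _)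
  have e5 : ∫ g, (F (𝔇.lift a.2 g) + B) ∂(gib S β) =
      (∫⁻ g, ENNReal.ofReal (F (𝔇.lift a.2 g) + B) ∂(gib S β)).toReal :=
    integral_eq_lintegral_of_nonneg_ae (ae_of_all _ fun g => h0 _)
      (ml.add_const B).aestronglyMeasurable
  have e6 : ∫ g, (F (𝔇.lift a.2 g) + B) ∂(gib S β) = ∫ g, F (𝔇.lift a.2 g) ∂(gib S β) + B := by
    rw [integral_add (Integrable.of_bound ml.aestronglyMeasurable B (ae_of_all _ fun g => hB _))
      (integrable_const _), integral_const, probReal_univ, one_smul]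
  have e7 := e2
  rw [e4, ← e5, e6] at e7
  linarith

end

end Pool.Agent.N984.TW
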