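import Pool.Agent.N109.SDS.TWObs
import Pool.Agent.N838.TW.Wave
import Pool.Agent.N726.TW.DatEx

/-!
# The upper bound of the mass of the twisted theory
-/

set_option autoImplicit false
set_option linter.unusedSectionVars false
set_option linter.unusedVariables false
set_option linter.style.haveILetI false

open MeasureTheory Matrix Filter
open scoped Matrix.Norms.Frobenius Topology ENNReal
open Pool.Agent.H906R3.YM Pool.Agent.W793.YM Pool.Agent.TH618.YM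
open Pool.Agent.N990.Mach (tch cl Sys Cst rad)
open Pool.Agent.N109.SDS Pool.Agent.N986.PB Pool.Agent.N726.TW

namespace Pool.Agent.N984.TW

noncomputable section

/-! ### the wave -/

lemma LR_out {m : ℝ} {R : ℕ} (hR : 1 ≤ R) {x : ℤ × ℤ} (hx : x ∉ bx (R + 1)) :
    LR m (sR m R) x = 0 := by
  have h1 := rr_out (m := m) hR hx
  have h2 : gR R 0 x = 0 := gR_out (by simp) fun h => hx (by
    rw [mem_bx] at h ⊢; omega)
  unfold N109.SDS.rr at h1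
  rw [h2, mul_zero, sub_zero] at h1
  exact h1

/-- the square box -/
def sb (n : ℕ) : Finset Pl := Finset.Icc ((-(n : ℤ), -(n : ℤ)) : Pl) ((n : ℤ), (n : ℤ))

lemma mem_sb {n : ℕ} {x : Pl} : x ∈ sb n ↔ x.1.natAbs ≤ n ∧ x.2.natAbs ≤ n := by
  unfold sb
  rw [Finset.mem_Icc, Prod.le_def, Prod.le_def]
  show (-(n : ℤ) ≤ x.1 ∧ -(n : ℤ) ≤ x.2) ∧ x.1 ≤ (n : ℤ) ∧ x.2 ≤ (n : ℤ) ↔ _
  omega

variable {N l n : ℕ} [NeZero N] [NeZero l]

lemma inner_E (u v : EV l n) : inner ℝ u v = ∑ p, u p * v p := by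
  rw [PiLp.inner_apply]
  refine Finset.sum_congr rfl fun q _ => ?_
  simp [mul_comm]

variable {𝔇 : Dat N l n} [MeasurableSpace (SU N)] [BorelSpace (SU N)] {μ : Measure (SU N)}
  [IsProbabilityMeasure μ] [μ.IsMulLeftInvariant] [μ.IsMulRightInvariant]

/-- the terms which do not touch the support do not contribute -/
lemma BB_T {c : Cst} (S : Sys Pl Pl 𝔇.KK (EV l n) (EV l n) (𝔇.nu μ) c) {A : Finset Pl}
    {w : Pl → EV l n} (hw : ∀ x, x ∉ A → w x = 0) (σ : Pl → 𝔇.KK) :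
    Dt.BB S A w σ = ∑ t ∈ S.T, S.b t (fun y => S.yy (σ y)) w := by
  unfold Dt.BB
  refine Finset.sum_subset (S.tch_sub A) fun t ht hn => ?_
  have h1 : ∀ i ∈ S.sp t, ‖w i‖ ≤ 0 := by
    intro i hi
    rw [hw i, norm_zero]
    intro hiA
    apply hn
    exact mem_tchG.2 ⟨ht, Finset.not_disjoint_iff.2 ⟨i, hi, hiA⟩⟩
  have h2 := S.b_bd t ht (fun y => S.yy (σ y)) w (∑ i ∈ S.sp t, ‖S.yy (σ i)‖) 0
    (fun i hi => Finset.single_le_sum (f := fun i => ‖S.yy (σ i)‖) (fun _ _ => norm_nonneg _) hi) h1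
  rw [mul_zero] at h2
  exact abs_nonpos_iff.1 h2

/-- the wave equation in the form of the machine -/
lemma wave_BB (hz : IsPrimitiveRoot 𝔇.z N) {u : Tor l × Fin 2 → Fin n → ℝ}
    (hJ : Jst 𝔇.B 𝔇.φ₀ u = 0) (hP : 𝔇.P u = 0)
    (hM : ∀ al, in2 (J1c 𝔇.B 𝔇.φ₀ u) (J1c 𝔇.B 𝔇.φ₀ al) = M2 N l * in2 u al) {δ r : ℝ}
    {hδ : 0 < δ} {hδ₀ : δ ≤ 𝔇.δ₀} {β : ℝ} {k : ℕ} {c : Cst}
    {S : Sys Pl Pl 𝔇.KK (EV l n) (EV l n) (𝔇.nu μ) c}
    (hS : 𝔇.SysP μ (r := r) hδ hδ₀ β (-(k : ℤ), -(k : ℤ)) ((k : ℤ), (k : ℤ)) S) {m : ℝ}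
    (hm2 : 2 * Real.cosh m - 2 = M2 N l) {R : ℕ} (hR : 1 ≤ R) (hk : R + 1 ≤ k) (a : ℝ)
    (σ : Pl → 𝔇.KK) :
    Dt.BB S (bx R) (fun x => sR m R x • (a • UV u)) σ =
      ∑ x ∈ bx (R + 1), LR m (sR m R) x * inner ℝ (a • UV u) (S.yy (σ x)) := by
  rw [BB_T S (fun x hx => by simp only [sR_out hx, zero_smul])]
  have e1 : (fun x => sR m R x • (a • UV u)) = a • fun x => sR m R x • (UV u : EV l n) := by
    funext x
    simp only [Pi.smul_apply]
    rw [smul_comm]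
  rw [e1, hS.T, hS.b]
  simp only [𝔇.bS_smul_right]
  rw [← Finset.mul_sum]
  have hs : ∀ x : Pl, sR m R x ≠ 0 → x ∈ Finset.Icc ((-(k : ℤ), -(k : ℤ)) : Pl) ((k : ℤ), (k : ℤ)) ∧
      (∀ j : Fin 2, x + uP j ∈ Finset.Icc ((-(k : ℤ), -(k : ℤ)) : Pl) ((k : ℤ), (k : ℤ))) ∧
      ∀ j : Fin 2, x - uP j ∈ Finset.Icc ((-(k : ℤ), -(k : ℤ)) : Pl) ((k : ℤ), (k : ℤ)) := by
    intro x hx
    have h1 : x ∈ bx R := by
      by_contra h
      exact hx (sR_out h)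
    rw [mem_bx] at h1
    have key : ∀ y : Pl, (y.1 - x.1).natAbs ≤ 1 → (y.2 - x.2).natAbs ≤ 1 →
        y ∈ Finset.Icc ((-(k : ℤ), -(k : ℤ)) : Pl) ((k : ℤ), (k : ℤ)) := by
      intro y h2 h3
      exact mem_sb.2 (by omega)
    refine ⟨key x (by simp) (by simp), fun j => key _ ?_ ?_, fun j => key _ ?_ ?_⟩ <;>
      fin_cases j <;> simp [uP]
  rw [wave 𝔇 hJ hP hM hz hδ hδ₀ _ _ hs, Finset.mul_sum]
  have hsub : bx (R + 1) ⊆ Finset.Icc ((-(k : ℤ), -(k : ℤ)) : Pl) ((k : ℤ), (k : ℤ)) := by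
    intro x hx
    rw [mem_bx] at hx
    exact mem_sb.2 (by omega)
  have u0 : (uP 0 : Pl) = (1, 0) := rfl
  have u1 : (uP 1 : Pl) = (0, 1) := rfl
  symm
  refine Finset.sum_subset_zero_on_sdiff hsub (fun x hx => ?_) fun x hx => ?_
  · have h1 := LR_out (m := m) hR (Finset.mem_sdiff.1 hx).2
    have h2 : (4 + M2 N l) * sR m R x - sR m R (x + uP 0) - sR m R (x - uP 0) -
        sR m R (x + uP 1) - sR m R (x - uP 1) = LR m (sR m R) x := by
      rw [u0, u1]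
      unfold LR
      rw [← hm2]; ring
    rw [h2, h1, zero_mul, mul_zero]
  · have h2 : (4 + M2 N l) * sR m R x - sR m R (x + uP 0) - sR m R (x - uP 0) -
        sR m R (x + uP 1) - sR m R (x - uP 1) = LR m (sR m R) x := by
      rw [u0, u1]
      unfold LR
      rw [← hm2]; ring
    rw [h2, real_inner_smul_left, inner_E]
    ring

/-! ### the limit -/

/-- convergence along the square boxes -/
lemma conv_box {z : ℂ} {β : ℝ} {ω : ((Pl → Fib N l) → ℝ) → ℝ} {m' C : ℝ} (hm' : 0 < m')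
    (hω : ∀ (a b a₁ b₁ : Pl) (F : (Pl → Fib N l) → ℝ) (R : ℕ), Obs F a₁ b₁ →
      Finset.Icc a₁ b₁ ⊆ Finset.Icc a b → (∀ X ∈ Finset.Icc a₁ b₁, ∀ Y ∉ Finset.Icc a b, R < dP X Y) →
      |expect μ z β (Finset.Icc a b) F - ω F| ≤ C * (Finset.Icc a₁ b₁).card * Real.exp (-(m' * R)))
    {F : (Pl → Fib N l) → ℝ} {a₁ b₁ : Pl} (hF : Obs F a₁ b₁) :
    Tendsto (fun k : ℕ => expect μ z β (sb k) F) atTop (𝓝 (ω F)) := by
  obtain ⟨r0, hr0⟩ : ∃ r0, r0 = a₁.1.natAbs + a₁.2.natAbs + b₁.1.natAbs + b₁.2.natAbs := ⟨_, rfl⟩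
  rw [tendsto_iff_norm_sub_tendsto_zero]
  have hb : Tendsto (fun k : ℕ => C * (Finset.Icc a₁ b₁).card * Real.exp (-(m' * ((k - r0 : ℕ) : ℝ))))
      atTop (𝓝 0) := by
    have h1 : Tendsto (fun k : ℕ => m' * ((k - r0 : ℕ) : ℝ)) atTop atTop :=
      Tendsto.const_mul_atTop hm' (tendsto_natCast_atTop_atTop.comp (tendsto_sub_atTop_nat r0))
    have h2 := Real.tendsto_exp_neg_atTop_nhds_zero.comp h1
    simpa using h2.const_mul (C * ((Finset.Icc a₁ b₁).card : ℝ))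
  refine squeeze_zero' (Eventually.of_forall fun _ => norm_nonneg _) ?_ hb
  filter_upwards [eventually_ge_atTop (r0 + 1)] with k hk
  rw [Real.norm_eq_abs]
  have hmem : ∀ X ∈ Finset.Icc a₁ b₁, X.1.natAbs ≤ r0 ∧ X.2.natAbs ≤ r0 := by
    intro X hX
    rw [Finset.mem_Icc, Prod.le_def, Prod.le_def] at hX
    omega
  refine hω _ _ a₁ b₁ F (k - r0) hF (fun X hX => ?_) fun X hX Y hY => ?_
  · have := hmem X hX
    exact mem_sb.2 (by omega)
  · have h1 := hmem X hX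
    have h2 : ¬ (Y.1.natAbs ≤ k ∧ Y.2.natAbs ≤ k) := fun h => hY (mem_sb.2 h)
    unfold dP
    omega

/-! ### the theorem -/

/-- **The upper bound of the mass.** There is a gauge invariant observable of the torus links over
a column of the plane whose time correlations decay at least as slowly as `exp(-(m+ε)t)` at
distance two, for all large `β`. -/
theorem upper_tw (N l : ℕ) [NeZero N] [NeZero l] (hN : 2 ≤ N) {z : ℂ} (hz : IsPrimitiveRoot z N)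
    [MeasurableSpace (SU N)] [BorelSpace (SU N)] (μ : Measure (SU N)) [IsProbabilityMeasure μ]
    [μ.IsMulLeftInvariant] [μ.IsMulRightInvariant] {m : ℝ} (hm : 0 < m)
    (hm2 : 2 * Real.cosh m - 2 = M2 N l) {ε : ℝ} (hε : 0 < ε) :
    ∃ (F : (Pl → Fib N l) → ℝ) (R : ℕ), Obs F (0, -(R : ℤ)) (0, (R : ℤ)) ∧
      (∀ U, F (refl U) = F U) ∧ ∃ κ > (0 : ℝ), ∃ β₀ ≥ (1 : ℝ), ∀ β ≥ β₀,
      ∀ (ω : ((Pl → Fib N l) → ℝ) → ℝ) (m' C : ℝ), 0 < m' →
      (∀ (a b a₁ b₁ : Pl) (G : (Pl → Fib N l) → ℝ) (R : ℕ), Obs G a₁ b₁ →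
        Finset.Icc a₁ b₁ ⊆ Finset.Icc a b →
        (∀ X ∈ Finset.Icc a₁ b₁, ∀ Y ∉ Finset.Icc a b, R < dP X Y) →
        |expect μ z β (Finset.Icc a b) G - ω G| ≤
          C * (Finset.Icc a₁ b₁).card * Real.exp (-(m' * R))) →
      κ ≤ β * (ω (fun U => F U * F U) - ω F * ω F) ∧
      Real.exp (-(2 * (m + ε))) * (ω (fun U => F U * F U) - ω F * ω F) ≤
        ω (fun U => F U * F (shift (2, 0) U)) - ω F * ω (fun U => F (shift (2, 0) U)) := by
  obtain ⟨n, W, 𝔇, hDz, -, hφ, -, -, -, -, -, hPJ, -⟩ := exists_dat_orth (l := l) hz one_pos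
  obtain ⟨Φ, u, C₁, -, hC₁, -, Φc, Φb, Φi, -, hu0, hJ, hM, hlin, -⟩ :=
    exists_obs (l := l) hN hz W 𝔇.B 𝔇.hG 𝔇.Zc
  rw [← hφ] at hJ hM hlin
  have hPu : 𝔇.P u = 0 := (hPJ u).2 hJ
  have hzD : IsPrimitiveRoot 𝔇.z N := by rw [hDz]; exact hz
  -- the direction
  have hUV : (UV u : EV l n) ≠ 0 := by
    intro h
    apply hu0
    funext e a
    obtain ⟨y, i⟩ := e
    have h1 := congrArg (fun v : EV l n => v ((y, Fin.natAdd 2 i), a)) h
    simpa [UV_nat] using h1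
  obtain ⟨nU, hnU⟩ : ∃ nU, nU = ‖(UV u : EV l n)‖ := ⟨_, rfl⟩
  have hnU0 : 0 < nU := by rw [hnU]; exact norm_pos_iff.2 hUV
  have huu : ‖nU⁻¹ • (UV u : EV l n)‖ = 1 := by
    rw [norm_smul, norm_inv, Real.norm_eq_abs, abs_of_pos hnU0, ← hnU, inv_mul_cancel₀ hnU0.ne']
  have hδ := 𝔇.D.pos
  have hc₀ := 𝔇.D.cpos
  have hr : 0 < 𝔇.c₀ / 16 := by positivity
  have hr₀ : 16 * (𝔇.c₀ / 16) ≤ 𝔇.c₀ := le_of_eq (by ring)
  haveI := nu_probability 𝔇 μ
  haveI := nu_inv 𝔇 μ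
  obtain ⟨c, hc⟩ := 𝔇.exists_sysP μ hδ le_rfl hr hr₀
  obtain ⟨cq, hcq, hcoer⟩ := 𝔇.exists_coer μ hδ le_rfl hr hr₀
  have hM0 : 0 ≤ C₁ / nU := by positivity
  obtain ⟨R, hR3, k₁, hk₁, κ, hκ, b1, hb1, H⟩ := upper_sys (ρ := Pl) (K := 𝔇.KK) (W := EV l n)
    (ν := 𝔇.nu μ) c (Yb := c.nm) (Cy := 1) (cq := cq) (M := C₁ / nU) hcq hM0 (e := 1 / 20)
    (by norm_num) (by norm_num) huu hm hε
  obtain ⟨b2, hb2, H2⟩ := gib_stt (K := 𝔇.KK) (W := EV l n) (ν := 𝔇.nu μ) c (e := 1 / 20)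
    (by norm_num) (by norm_num)
  obtain ⟨c0, hc0⟩ : ∃ c0 : ℝ, c0 = ((2 * (R : ℝ) + 1) * C₁)⁻¹ := ⟨_, rfl⟩
  have hc00 : 0 < c0 := by rw [hc0]; positivity
  have hbd : ∀ (k : ℤ) (U : Pl → Fib N l), |c0 * oC Φ R k U| ≤ 1 := by
    intro k U
    rw [abs_mul, abs_of_pos hc00]
    calc c0 * |oC Φ R k U| ≤ c0 * ((2 * (R : ℝ) + 1) * C₁) :=
          mul_le_mul_of_nonneg_left (oC_le Φb R k U) hc00.le
      _ = 1 := by rw [hc0]; exact inv_mul_cancel₀ (by positivity)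
  have hOk : ∀ (k : ℤ) {a₁ b₁ : Pl}, (∀ j ∈ Finset.Icc (-(R : ℤ)) R, ((k, j) : Pl) ∈
      Finset.Icc a₁ b₁) → Obs (fun U => c0 * oC Φ R k U) a₁ b₁ := by
    intro k a₁ b₁ hk
    exact ⟨(oC_meas Φc R k).const_mul _, hbd k, fun h U => by simp only [oC_inv Φi R k h U],
      fun U U' hU => by simp only [oC_dep (Φ := Φ) R k hk U U' hU]⟩
  have hcol : ∀ k : ℤ, 0 ≤ k → k ≤ 2 → ∀ j ∈ Finset.Icc (-(R : ℤ)) R, ((k, j) : Pl) ∈
      Finset.Icc ((0, -(R : ℤ)) : Pl) ((2, (R : ℤ)) : Pl) := by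
    intro k h1 h2 j hj
    rw [Finset.mem_Icc] at hj
    rw [Finset.mem_Icc, Prod.le_def, Prod.le_def]
    exact ⟨⟨h1, hj.1⟩, h2, hj.2⟩
  refine ⟨fun U => c0 * oC Φ R 0 U, R, hOk 0 fun j hj => by
    rw [Finset.mem_Icc] at hj
    rw [Finset.mem_Icc, Prod.le_def, Prod.le_def]
    exact ⟨⟨le_rfl, hj.1⟩, le_rfl, hj.2⟩, fun U => by simp only [oC_refl],
    (c0 * nU) ^ 2 * κ, by positivity, max b1 b2, hb1.le.trans (le_max_left _ _),
    fun β hβ ω m' C hm' hω => ?_⟩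
  have hβ1 : 1 ≤ β := hb1.le.trans ((le_max_left _ _).trans hβ)
  have hβ0 : 0 < β := by linarith
  simp only [oC_shift]
  -- the observable of a spin
  obtain ⟨P, hP⟩ : ∃ P : 𝔇.KK → ℝ, P = fun g => nU⁻¹ * Φ (phi g.1 * 𝔇.φ₀) := ⟨_, rfl⟩
  have mP : Measurable P := by
    rw [hP]
    have h1 : Continuous fun φ : Tor l × Fin 2 → SU N => Φ (φ * 𝔇.φ₀) :=
      Φc.comp (continuous_pi fun e => (continuous_apply e).mul continuous_const)
    refine (h1.measurable.comp ?_).const_mul _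
    unfold phi
    exact measurable_pi_lambda _ fun e => (measurable_pi_apply (e.1, Fin.natAdd 2 e.2)).comp
      measurable_fst
  have bP : ∀ g, |P g| ≤ C₁ / nU := by
    intro g
    rw [hP]
    simp only
    rw [abs_mul, abs_of_pos (by positivity : 0 < nU⁻¹), div_eq_inv_mul]
    exact mul_le_mul_of_nonneg_left (Φb _) (by positivity)
  have lP : ∀ g : 𝔇.KK, |P g - inner ℝ (nU⁻¹ • (UV u : EV l n)) (pp 𝔇.B g)| ≤
      C₁ / nU * nrm g ^ 2 := by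
    intro g
    have h1 := hlin g
    have h2 : inner ℝ (UV u : EV l n) (pp 𝔇.B g) = ∑ e : Tor l × Fin 2, ∑ a, u e a *
        pp 𝔇.B g ((e.1, Fin.natAdd 2 e.2), a) := by
      rw [inner_E, sum_UV]
      rfl
    rw [← h2] at h1
    rw [hP, real_inner_smul_left]
    simp only
    rw [← mul_sub, abs_mul, abs_of_pos (by positivity : 0 < nU⁻¹), div_eq_inv_mul, mul_assoc]
    exact mul_le_mul_of_nonneg_left h1 (by positivity)
  have hoC : ∀ (k : ℤ) (s : ℤ) (g : Pl → 𝔇.KK), c0 * oC Φ R k (𝔇.lift s g) =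
      (c0 * nU) * N109.SDS.col R k P g := by
    intro k s g
    rw [oC_lift]
    unfold N109.SDS.col
    rw [mul_assoc, Finset.mul_sum (a := nU)]
    congr 1
    refine Finset.sum_congr rfl fun j _ => ?_
    rw [hP]
    simp only
    rw [← mul_assoc, mul_inv_cancel₀ hnU0.ne', one_mul]
  -- finite volume
  have hfin : ∀ k : ℕ, R + 3 + rad k₁ β ≤ k →
      (c0 * nU) ^ 2 * κ ≤ β * (expect μ z β (sb k) (fun U => c0 * oC Φ R 0 U * (c0 * oC Φ R 0 U)) -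
        expect μ z β (sb k) (fun U => c0 * oC Φ R 0 U) *
          expect μ z β (sb k) (fun U => c0 * oC Φ R 0 U)) ∧
      Real.exp (-(2 * (m + ε))) *
        (expect μ z β (sb k) (fun U => c0 * oC Φ R 0 U * (c0 * oC Φ R 0 U)) -
        expect μ z β (sb k) (fun U => c0 * oC Φ R 0 U) *
          expect μ z β (sb k) (fun U => c0 * oC Φ R 0 U)) ≤
        expect μ z β (sb k) (fun U => c0 * oC Φ R 0 U * (c0 * oC Φ R 2 U)) -
        expect μ z β (sb k) (fun U => c0 * oC Φ R 0 U) *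
          expect μ z β (sb k) (fun U => c0 * oC Φ R 2 U) := by
    intro k hk
    have hab : ((-(k : ℤ), -(k : ℤ)) : Pl) ≤ ((k : ℤ), (k : ℤ)) :=
      ⟨by show -(k : ℤ) ≤ k; omega, by show -(k : ℤ) ≤ k; omega⟩
    obtain ⟨S, hS⟩ := hc β hβ1 _ _ hab
    haveI := gib_prob S β
    have h1 := H β ((le_max_left _ _).trans hβ) S hS.lin (hcoer c β _ _ S hS) (gib S β)
      (H2 β ((le_max_right _ _).trans hβ) Pl Pl S) (fun x hx y hy => by
        rw [hS.d] at hy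
        rw [hS.L]
        rw [mem_bx] at hx
        refine mem_sb.2 ?_
        unfold dP at hy
        omega)
      (fun σ => wave_BB hzD hJ hPu hM hS hm2 (by omega) (by omega) _ σ) P mP bP
      (fun g => by rw [hS.yy, hS.nrm]; exact lP g)
    have hsubk : Finset.Icc ((0, -(R : ℤ)) : Pl) ((2, (R : ℤ)) : Pl) ⊆ sb k := by
      intro x hx
      rw [Finset.mem_Icc, Prod.le_def, Prod.le_def] at hx
      refine mem_sb.2 ?_
      obtain ⟨⟨h2, h3⟩, h4, h5⟩ := hx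
      have h2 : 0 ≤ x.1 := h2
      have h3 : -(R : ℤ) ≤ x.2 := h3
      have h4 : x.1 ≤ 2 := h4
      have h5 : x.2 ≤ (R : ℤ) := h5
      omega
    have O0 := hOk 0 (hcol 0 le_rfl (by norm_num))
    have O2 := hOk 2 (hcol 2 (by norm_num) le_rfl)
    have e1 : ∀ {F : (Pl → Fib N l) → ℝ}, Obs F ((0, -(R : ℤ)) : Pl) ((2, (R : ℤ)) : Pl) →
        expect μ z β (sb k) F = ∫ g, F (𝔇.lift (-(k : ℤ)) g) ∂(gib S β) := by
      intro F hF
      rw [← hDz]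
      exact expect_gib hδ le_rfl hr hr₀ hβ0 hS hF.meas hF.bdd hF.inv (hF.dep.mono hsubk)
    have Omul : ∀ {F G : (Pl → Fib N l) → ℝ}, Obs F ((0, -(R : ℤ)) : Pl) ((2, (R : ℤ)) : Pl) →
        Obs G ((0, -(R : ℤ)) : Pl) ((2, (R : ℤ)) : Pl) →
        Obs (fun U => F U * G U) ((0, -(R : ℤ)) : Pl) ((2, (R : ℤ)) : Pl) := by
      intro F G hF hG
      exact ⟨hF.meas.mul hG.meas, fun U => by
        rw [abs_mul]; exact mul_le_one₀ (hF.bdd U) (abs_nonneg _) (hG.bdd U),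
        fun h U => by simp only [hF.inv h U, hG.inv h U],
        fun U U' hU => by simp only [hF.dep U U' hU, hG.dep U U' hU]⟩
    rw [e1 O0, e1 O2, e1 (Omul O0 O0), e1 (Omul O0 O2)]
    simp only [hoC]
    have f1 : ∀ k : ℤ, ∫ g, c0 * nU * N109.SDS.col R k P g ∂(gib S β) =
        (c0 * nU) * ∫ g, N109.SDS.col R k P g ∂(gib S β) := fun k => integral_const_mul _ _
    have f2 : ∀ k : ℤ, ∫ g, c0 * nU * N109.SDS.col R 0 P g * (c0 * nU * N109.SDS.col R k P g) ∂(gib S β) =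
        (c0 * nU) ^ 2 * ∫ g, N109.SDS.col R k P g * N109.SDS.col R 0 P g ∂(gib S β) := by
      intro k
      rw [← integral_const_mul]
      refine integral_congr_ae (ae_of_all _ fun g => ?_)
      simp only
      ring
    rw [f1, f1, f2, f2]
    obtain ⟨g1, g2⟩ := h1
    have hs2 : 0 ≤ (c0 * nU) ^ 2 := sq_nonneg _
    constructor
    · have h3 := mul_le_mul_of_nonneg_left g1 hs2
      refine h3.trans (le_of_eq ?_)
      ring
    · have h3 := mul_le_mul_of_nonneg_left g2 hs2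
      refine le_trans (le_of_eq ?_) (h3.trans (le_of_eq ?_)) <;> ring
  -- the limit
  have O0 := hOk 0 (hcol 0 le_rfl (by norm_num))
  have O2 := hOk 2 (hcol 2 (by norm_num) le_rfl)
  have Omul : ∀ {F G : (Pl → Fib N l) → ℝ}, Obs F ((0, -(R : ℤ)) : Pl) ((2, (R : ℤ)) : Pl) →
      Obs G ((0, -(R : ℤ)) : Pl) ((2, (R : ℤ)) : Pl) →
      Obs (fun U => F U * G U) ((0, -(R : ℤ)) : Pl) ((2, (R : ℤ)) : Pl) := by
    intro F G hF hG
    exact ⟨hF.meas.mul hG.meas, fun U => by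
      rw [abs_mul]; exact mul_le_one₀ (hF.bdd U) (abs_nonneg _) (hG.bdd U),
      fun h U => by simp only [hF.inv h U, hG.inv h U],
      fun U U' hU => by simp only [hF.dep U U' hU, hG.dep U U' hU]⟩
  have t0 := conv_box (μ := μ) hm' hω O0
  have t2 := conv_box (μ := μ) hm' hω O2
  have t00 := conv_box (μ := μ) hm' hω (Omul O0 O0)
  have t02 := conv_box (μ := μ) hm' hω (Omul O0 O2)
  have tV := t00.sub (t0.mul t0)
  have tC := t02.sub (t0.mul t2)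
  constructor
  · refine ge_of_tendsto (tV.const_mul β) ?_
    filter_upwards [eventually_ge_atTop (R + 3 + rad k₁ β)] with k hk
    exact (hfin k hk).1
  · refine le_of_tendsto_of_tendsto (tV.const_mul _) tC ?_
    filter_upwards [eventually_ge_atTop (R + 3 + rad k₁ β)] with k hk
    exact (hfin k hk).2

end

end Pool.Agent.N984.TW
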