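import Pool.Agent.N109.SDS.Green

/-!
# Variances for systems of the machine
-/

set_option autoImplicit false
set_option linter.unusedSectionVars false
set_option linter.unusedVariables false
set_option linter.style.haveILetI false

open MeasureTheory Finset Filter Function
open scoped ENNReal Classical

namespace Pool.Agent.N109.SDS

open Pool.Agent.N990.Mach Pool.Agent.N109.Slab

noncomputable section

variable {ι τ K W : Type*} [Group K] [MeasurableSpace K] [NormedAddCommGroup W]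
  [InnerProductSpace ℝ W] [FiniteDimensional ℝ W] {ν : Measure K} {c : Cst}

/-- the squared norm -/
def nq (A : Finset ι) (g : ι → W) : ℝ := ∑ x ∈ A, ‖g x‖ ^ 2

lemma nq_nonneg (A : Finset ι) (g : ι → W) : 0 ≤ nq A g := Finset.sum_nonneg fun _ _ => by positivity

lemma prS_sq_le (A : Finset ι) (g h : ι → W) : prS A g h ^ 2 ≤ nq A g * nq A h := by
  have h1 : |prS A g h| ≤ ∑ x ∈ A, ‖g x‖ * ‖h x‖ :=
    (Finset.abs_sum_le_sum_abs _ _).trans (Finset.sum_le_sum fun x _ => abs_real_inner_le_norm _ _)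
  have h2 : prS A g h ^ 2 ≤ (∑ x ∈ A, ‖g x‖ * ‖h x‖) ^ 2 := by
    rw [← sq_abs]
    exact pow_le_pow_left₀ (abs_nonneg _) h1 2
  exact h2.trans (Finset.sum_mul_sq_le_sq_mul_sq _ _ _)

/-- the sites near `A0` -/
def nb (S : Sys ι τ K W W ν c) (A0 : Finset ι) (R : ℕ) : Finset ι :=
  S.Lam.filter fun y => ∃ x ∈ A0, S.d x y ≤ R

lemma nb_card (S : Sys ι τ K W W ν c) (A0 : Finset ι) (R : ℕ) :
    ((nb S A0 R).card : ℝ) ≤ A0.card * (c.Cg * ((R : ℝ) + 1) ^ c.Dg) := by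
  have h1 : nb S A0 R ⊆ A0.biUnion fun x => S.Lam.filter fun y => S.d x y ≤ R := by
    intro y hy
    unfold nb at hy
    obtain ⟨h2, x, hx, h3⟩ := Finset.mem_filter.1 hy
    exact Finset.mem_biUnion.2 ⟨x, hx, Finset.mem_filter.2 ⟨h2, h3⟩⟩
  have h2 : (nb S A0 R).card ≤ ∑ x ∈ A0, (S.Lam.filter fun y => S.d x y ≤ R).card :=
    (Finset.card_le_card h1).trans Finset.card_biUnion_le
  have h3 : ((nb S A0 R).card : ℝ) ≤ ∑ x ∈ A0, ((S.Lam.filter fun y => S.d x y ≤ R).card : ℝ) := by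
    exact_mod_cast h2
  refine h3.trans ((Finset.sum_le_sum (g := fun _ => c.Cg * ((R : ℝ) + 1) ^ c.Dg)
    fun x _ => S.growth _ x R).trans ?_)
  rw [Finset.sum_const, nsmul_eq_mul]

/-- energy of the solution -/
lemma sol_energy {S : Sys ι τ K W W ν c} {cq : ℝ} (hc : Coer S cq) (hcq : 0 < cq)
    {A : Finset ι} (hA : A ⊆ S.Lam) {g ω : ι → W} (hω : ∀ x, x ∉ A → ω x = 0)
    (h : ∑ t ∈ tch S.T S.sp A, S.b t ω ω = prS A g ω) :
    prS A g ω ≤ nq A g / cq ∧ nq A ω ≤ nq A g / cq ^ 2 := by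
  have h1 := hc A hA ω hω
  rw [h] at h1
  have h2 := prS_sq_le A g ω
  obtain ⟨p, hp⟩ : ∃ p, p = prS A g ω := ⟨_, rfl⟩
  obtain ⟨a, ha⟩ : ∃ a, a = nq A g := ⟨_, rfl⟩
  obtain ⟨b, hb⟩ : ∃ b, b = nq A ω := ⟨_, rfl⟩
  have ha0 : 0 ≤ a := ha ▸ nq_nonneg A g
  have hb0 : 0 ≤ b := hb ▸ nq_nonneg A ω
  have h1' : cq * b ≤ p := by rw [hb, hp]; exact h1
  rw [← hp, ← ha, ← hb] at h2
  rw [← hp, ← ha, ← hb]
  have hp0 : 0 ≤ p := le_trans (by positivity) h1'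
  have h3 : p ≤ a / cq := by
    rw [le_div_iff₀ hcq]
    rcases hp0.eq_or_lt with h0 | h0
    · rw [← h0, zero_mul]; exact ha0
    · have h4 : p * (p * cq) ≤ p * a := by
        calc p * (p * cq) = cq * p ^ 2 := by ring
          _ ≤ cq * (a * b) := mul_le_mul_of_nonneg_left h2 hcq.le
          _ = a * (cq * b) := by ring
          _ ≤ a * p := mul_le_mul_of_nonneg_left h1' ha0
          _ = p * a := mul_comm _ _
      exact le_of_mul_le_mul_left h4 h0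
  refine ⟨h3, ?_⟩
  rw [le_div_iff₀ (by positivity)]
  rw [le_div_iff₀ hcq] at h3
  nlinarith

/-- the boundary term -/
lemma bd_le {S : Sys ι τ K W W ν c} {Yb Cy : ℝ} (h : Lin S Yb Cy) {A0 : Finset ι} {R : ℕ}
    (hR : ∀ x ∈ A0, ∀ y, S.d x y ≤ R → y ∈ S.Lam) {g ω : ι → W} {q : ℝ}
    (hg0 : ∀ x, x ∉ A0 → g x = 0) (hA0 : A0 ⊆ nb S A0 R)
    (hsol : ∀ χ : ι → W, (∀ x, x ∉ nb S A0 R → χ x = 0) →
      ∑ t ∈ tch S.T S.sp (nb S A0 R), S.b t χ ω = prS (nb S A0 R) g χ)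
    (hq : ∀ x, (∀ y ∈ A0, R ≤ S.d x y) → ‖ω x‖ ≤ q) (hq0 : 0 ≤ q) (σ : ι → K) :
    |Dt.BB S (nb S A0 R) ω σ - prS A0 g (fun x => S.yy (σ x))| ≤
      c.Cn * (nb S A0 R).card * (c.Cb * Yb * q) := by
  obtain ⟨A, hAd⟩ : ∃ A, A = nb S A0 R := ⟨_, rfl⟩
  rw [← hAd] at hA0 hsol ⊢
  have hYb := Dt.yb0 h
  have hCb := c.hCb
  set χ1 : ι → W := fun x => if x ∈ A then S.yy (σ x) else 0 with hχ1
  set χ2 : ι → W := fun x => if x ∈ A then 0 else S.yy (σ x) with hχ2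
  have e1 : (fun x => S.yy (σ x)) = χ1 + χ2 := by
    funext x
    rw [Pi.add_apply, hχ1, hχ2]
    simp only
    split_ifs <;> simp
  have e2 : Dt.BB S A ω σ = prS A g χ1 + ∑ t ∈ tch S.T S.sp A, S.b t χ2 ω := by
    unfold Dt.BB
    rw [e1]
    simp only [S.b_add]
    rw [Finset.sum_add_distrib, hsol χ1 fun x hx => by rw [hχ1]; simp only [if_neg hx]]
  have e3 : prS A g χ1 = prS A0 g (fun x => S.yy (σ x)) := by
    unfold prS
    symm
    refine Finset.sum_subset_zero_on_sdiff hA0 (fun x hx => ?_) fun x hx => ?_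
    · rw [hg0 x (Finset.mem_sdiff.1 hx).2, inner_zero_left]
    · rw [hχ1]; simp only [if_pos (hA0 hx)]
  rw [e2, e3, add_sub_cancel_left]
  refine (Finset.abs_sum_le_sum_abs _ _).trans ((Finset.sum_le_sum
    (g := fun _ => c.Cb * Yb * q) fun t ht => ?_).trans ?_)
  · have htT := S.tch_sub A ht
    by_cases hsub : S.sp t ⊆ A
    · have h1 := S.b_bd t htT χ2 ω 0 (∑ i ∈ S.sp t, ‖ω i‖) (fun i hi => by
        rw [hχ2]; simp only [if_pos (hsub hi), norm_zero]; exact le_rfl) fun i hi =>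
        Finset.single_le_sum (f := fun i => ‖ω i‖) (fun _ _ => norm_nonneg _) hi
      rw [mul_zero, zero_mul] at h1
      exact h1.trans (by positivity)
    · obtain ⟨z, hz, hzA⟩ := Finset.not_subset.1 hsub
      refine S.b_bd t htT χ2 ω Yb q (fun i _ => ?_) fun i hi => hq i fun y hy => ?_
      · rw [hχ2]; simp only
        split_ifs
        · rw [norm_zero]; exact hYb
        · exact h.yy_bd _
      · have h1 : R < S.d y z := by
          by_contra hlt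
          push Not at hlt
          apply hzA
          rw [hAd]
          unfold nb
          exact Finset.mem_filter.2 ⟨hR y hy z hlt, y, hy, hlt⟩
        have h2 := S.dtri y i z
        have h3 := S.diam t htT i hi z hz
        have h4 := S.dsymm y i
        omega
  · rw [Finset.sum_const, nsmul_eq_mul]
    exact mul_le_mul_of_nonneg_right (S.tcard A) (by positivity)

/-- the bound for normalised observables -/
lemma var_bd1 [MeasurableMul K] (c : Cst) {Yb Cy cq n0 : ℝ} (hcq : 0 < cq) (hn0 : 0 ≤ n0) {e : ℝ}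
    (he : 0 < e) (he2 : e ≤ 1 / 10) {ε : ℝ} (hε : 0 < ε) :
    ∃ k₁ > (0 : ℝ), ∃ β₀ ≥ (1 : ℝ), ∀ β ≥ β₀, ∀ S : Sys ι τ K W W ν c, Lin S Yb Cy → Coer S cq →
      ∀ Q : Measure (ι → K), Stt S e β Q → ∀ (A0 : Finset ι), (A0.card : ℝ) ≤ n0 →
      (∀ x ∈ A0, ∀ y, S.d x y ≤ rad k₁ β → y ∈ S.Lam) → ∀ g : ι → W,
      (∀ x, x ∉ A0 → g x = 0) → (∀ x, ‖g x‖ ≤ 1) → nq A0 g ≤ cq ^ 2 →
      β * ∫ σ, prS A0 g (fun x => S.yy (σ x)) ^ 2 ∂Q ≤ nq A0 g / cq + ε ∧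
      |β * ∫ σ, prS A0 g (fun x => S.yy (σ x)) ∂Q| ≤ ε * β ^ (1 / 2 : ℝ) := by
  by_cases hex : ∃ S : Sys ι τ K W W ν c, Lin S Yb Cy
  swap
  · exact ⟨1, one_pos, 1, le_rfl, fun β hβ S hS => absurd ⟨S, hS⟩ hex⟩
  obtain ⟨S0, hS0⟩ := hex
  have hYb := Dt.yb0 hS0
  have hCb := c.hCb
  have hCn := c.hCn
  have hCg := c.hCg
  obtain ⟨α, hαd⟩ : ∃ α, α = Soft.al cq c.Cb c.Cn := ⟨_, rfl⟩
  have hα : 0 < α := hαd ▸ Soft.al_pos hcq hCb hCn
  obtain ⟨β₁, hβ₁, H⟩ := sd_lim (ι := ι) (τ := τ) (W := W) (ν := ν) c Yb Cy he he2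
  obtain ⟨k, hk⟩ : ∃ k, k = 2 / α := ⟨_, rfl⟩
  have hk0 : 0 < k := by rw [hk]; positivity
  obtain ⟨m0, hm0⟩ : ∃ m0 : ℝ, m0 = n0 * Yb := ⟨_, rfl⟩
  have hm00 : 0 ≤ m0 := by rw [hm0]; positivity
  obtain ⟨K', hK⟩ : ∃ K' : ℝ, K' = c.Cn * (c.Cb * Yb * (n0 * (2 / cq))) := ⟨_, rfl⟩
  have hK0 : 0 ≤ K' := by rw [hK]; positivity
  have A1 := ev_rad k hk0.le (n0 * c.Cg) c.Dg (a := e / 16) (by linarith)
  have A2 := ev_rad k hk0.le (n0 * c.Cg) c.Dg (a := 1 / 2) (by norm_num)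
  have A3 := evr (a := 0) (b := -(e / 4)) (2 / ε) (by linarith)
  have A4 := evr (a := 0) (b := -1 / 2) (2 * (m0 * K') / ε) (by norm_num)
  have A5 := evr (a := 0) (b := -1) (2 * K' / ε) (by norm_num)
  have A6 := evr (a := 0) (b := -e) (2 / ε) (by linarith)
  obtain ⟨β₂, hβ₂⟩ := Filter.eventually_atTop.1
    (A1.and (A2.and (A3.and (A4.and (A5.and A6)))))
  refine ⟨k, hk0, max β₁ β₂, hβ₁.le.trans (le_max_left _ _),
    fun β hβ S hS hSc Q hQ A0 hA0c hA0 g hg0 hg1 hg2 => ?_⟩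
  obtain ⟨a1, a2, a3, a4, a5, a6⟩ := hβ₂ β ((le_max_right _ _).trans hβ)
  have hβ1' : β₁ ≤ β := (le_max_left _ _).trans hβ
  have hβ1 : 1 ≤ β := hβ₁.le.trans hβ1'
  have hβ0 : 0 < β := by linarith
  rw [Real.rpow_zero] at a3 a4 a5 a6
  haveI := hQ.shf.prob
  set R : ℕ := rad k β with hR
  obtain ⟨A, hAd⟩ : ∃ A, A = nb S A0 R := ⟨_, rfl⟩
  have hAL : A ⊆ S.Lam := by rw [hAd]; exact Finset.filter_subset _ _
  have hA0A : A0 ⊆ A := by
    intro x hx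
    rw [hAd]
    exact Finset.mem_filter.2 ⟨hA0 x hx x (by rw [S.dself]; exact Nat.zero_le _), x, hx, by
      rw [S.dself]; exact Nat.zero_le _⟩
  obtain ⟨ω, hω0, hω2, hω3⟩ := exists_green hS hSc hcq hA0A hAL hg0 hg1
  have hcardA : (A.card : ℝ) ≤ n0 * c.Cg * ((R : ℝ) + 2) ^ c.Dg := by
    rw [hAd]
    refine (nb_card S A0 R).trans ?_
    have h1 : ((R : ℝ) + 1) ^ c.Dg ≤ ((R : ℝ) + 2) ^ c.Dg :=
      pow_le_pow_left₀ (by positivity) (by linarith) _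
    calc (A0.card : ℝ) * (c.Cg * ((R : ℝ) + 1) ^ c.Dg) ≤ n0 * (c.Cg * ((R : ℝ) + 2) ^ c.Dg) := by
          gcongr
      _ = _ := by ring
  have hVc : (A.card : ℝ) ≤ β ^ (e / 16) := hcardA.trans a1
  have hVc2 : (A.card : ℝ) ≤ β ^ (1 / 2 : ℝ) := hcardA.trans a2
  have hprg : ∀ φ : ι → W, prS A g φ = prS A0 g φ := fun φ => by
    unfold prS
    symm
    exact Finset.sum_subset hA0A fun x _ hx => by rw [hg0 x hx, inner_zero_left]
  have hnq : nq A g = nq A0 g := by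
    unfold nq
    symm
    exact Finset.sum_subset hA0A fun x _ hx => by rw [hg0 x hx, norm_zero]; norm_num
  obtain ⟨en1, en2⟩ := sol_energy hSc hcq hAL hω0 (hω2 ω hω0)
  rw [hnq] at en1 en2
  have hω1 : ∀ x, ‖ω x‖ ≤ 1 := by
    intro x
    by_cases hx : x ∈ A
    · have h2 : ‖ω x‖ ^ 2 ≤ 1 := by
        calc ‖ω x‖ ^ 2 ≤ nq A ω := Finset.single_le_sum (f := fun x => ‖ω x‖ ^ 2)
              (fun _ _ => by positivity) hx
          _ ≤ nq A0 g / cq ^ 2 := en2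
          _ ≤ 1 := by rw [div_le_one (by positivity)]; exact hg2
      nlinarith [norm_nonneg (ω x)]
    · rw [hω0 x hx, norm_zero]; exact zero_le_one
  obtain ⟨s1, s2⟩ := H β hβ1' S hS Q hQ A ω g hAL hVc hω1 hω0 hg1
  -- the boundary term
  have hRle : Real.exp (-(α * R)) ≤ β ^ (-2 : ℝ) := by
    have h1 : k * Real.log β ≤ R := Nat.le_ceil _
    have e : β ^ (-2 : ℝ) = Real.exp (Real.log β * (-2)) := Real.rpow_def_of_pos hβ0 _
    rw [e]
    apply Real.exp_le_exp.2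
    have h2 := mul_le_mul_of_nonneg_left h1 hα.le
    have h3 : α * (k * Real.log β) = 2 * Real.log β := by rw [hk]; field_simp
    linarith
  set F0 : (ι → K) → ℝ := fun σ => prS A0 g (fun x => S.yy (σ x)) with hF0
  set bd : (ι → K) → ℝ := fun σ => Dt.BB S A ω σ - F0 σ with hbd
  have hbdle : ∀ σ, |bd σ| ≤ K' * β ^ (-3 / 2 : ℝ) := by
    intro σ
    have h2 := bd_le hS (A0 := A0) (R := R) hA0 (g := g) (ω := ω)
      (q := n0 * (2 / cq) * Real.exp (-(α * R))) hg0 (by rw [← hAd]; exact hA0A)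
      (by rw [← hAd]; exact hω2) (fun x hx => by
        refine (hω3 R x hx).trans ?_
        rw [← hαd]
        gcongr) (by positivity) σ
    rw [← hAd] at h2
    refine h2.trans ?_
    calc c.Cn * A.card * (c.Cb * Yb * (n0 * (2 / cq) * Real.exp (-(α * R)))) ≤
          c.Cn * β ^ (1 / 2 : ℝ) * (c.Cb * Yb * (n0 * (2 / cq) * β ^ (-2 : ℝ))) := by
          gcongr
      _ = K' * (β ^ (1 / 2 : ℝ) * β ^ (-2 : ℝ)) := by rw [hK]; ring
      _ = _ := by rw [← Real.rpow_add hβ0]; norm_num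
  have hΦle : ∀ σ : ι → K, |F0 σ| ≤ m0 := by
    intro σ
    refine (Dt.pr_le (A := A0) (g := g) (φ := fun x => S.yy (σ x)) zero_le_one hYb
      (fun x _ => hg1 x) fun x _ => hS.yy_bd _).trans ?_
    rw [hm0, one_mul]
    gcongr
  have mΦ : Measurable F0 := Dt.prS_meas hS A0 g
  have mBB := Dt.BB_meas hS A ω
  have mbd : Measurable bd := mBB.sub mΦ
  have iΦ : Integrable F0 Q :=
    Integrable.of_bound mΦ.aestronglyMeasurable m0 (Filter.Eventually.of_forall hΦle)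
  have ibd : Integrable bd Q :=
    Integrable.of_bound mbd.aestronglyMeasurable _ (Filter.Eventually.of_forall hbdle)
  have iΦ2 : Integrable (fun σ => F0 σ ^ 2) Q := by
    refine Integrable.of_bound (mΦ.pow_const 2).aestronglyMeasurable (m0 ^ 2)
      (Filter.Eventually.of_forall fun σ => ?_)
    rw [Real.norm_eq_abs, abs_pow]
    exact pow_le_pow_left₀ (abs_nonneg _) (hΦle σ) 2
  have iΦb : Integrable (fun σ => F0 σ * bd σ) Q := by
    refine Integrable.of_bound (mΦ.mul mbd).aestronglyMeasurable (m0 * (K' * β ^ (-3 / 2 : ℝ)))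
      (Filter.Eventually.of_forall fun σ => ?_)
    rw [Real.norm_eq_abs, abs_mul]
    exact mul_le_mul (hΦle σ) (hbdle σ) (abs_nonneg _) hm00
  have hint : ∀ f : (ι → K) → ℝ, ∀ M : ℝ, (∀ σ, |f σ| ≤ M) → |∫ σ, f σ ∂Q| ≤ M := by
    intro f M hM
    have := norm_integral_le_of_norm_le_const (μ := Q) (C := M) (f := f)
      (Filter.Eventually.of_forall hM)
    simpa using this
  have hββ : β * β ^ (-3 / 2 : ℝ) = β ^ (-1 / 2 : ℝ) := by
    nth_rewrite 1 [← Real.rpow_one β]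
    rw [← Real.rpow_add hβ0]; norm_num
  constructor
  · have e1 : ∫ σ, prS A g (fun x => S.yy (σ x)) * Dt.BB S A ω σ ∂Q =
        ∫ σ, F0 σ ^ 2 ∂Q + ∫ σ, F0 σ * bd σ ∂Q := by
      rw [← integral_add iΦ2 iΦb]
      refine integral_congr_ae (Filter.Eventually.of_forall fun σ => ?_)
      simp only
      rw [hprg, hbd, hF0]; ring
    rw [e1] at s1
    have b1 : |∫ σ, F0 σ * bd σ ∂Q| ≤ m0 * (K' * β ^ (-3 / 2 : ℝ)) :=
      hint _ _ fun σ => by
        rw [abs_mul]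
        exact mul_le_mul (hΦle σ) (hbdle σ) (abs_nonneg _) hm00
    have b2 : β * |∫ σ, F0 σ * bd σ ∂Q| ≤ ε / 2 := by
      calc β * |∫ σ, F0 σ * bd σ ∂Q| ≤ β * (m0 * (K' * β ^ (-3 / 2 : ℝ))) :=
            mul_le_mul_of_nonneg_left b1 hβ0.le
        _ = (2 * (m0 * K') / ε * β ^ (-1 / 2 : ℝ)) * (ε / 2) := by
            rw [← hββ]; field_simp
        _ ≤ 1 * (ε / 2) := mul_le_mul_of_nonneg_right a4 (by positivity)
        _ = _ := one_mul _
    have b3 : β ^ (-(e / 4)) ≤ ε / 2 := by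
      calc β ^ (-(e / 4)) = (2 / ε * β ^ (-(e / 4))) * (ε / 2) := by field_simp
        _ ≤ 1 * (ε / 2) := mul_le_mul_of_nonneg_right a3 (by positivity)
        _ = _ := one_mul _
    have b4 := (abs_le.1 s1).2
    have b5 := neg_abs_le (∫ σ, F0 σ * bd σ ∂Q)
    have b6 := mul_le_mul_of_nonneg_left b5 hβ0.le
    rw [mul_add] at b4
    linarith
  · have e1 : ∫ σ, Dt.BB S A ω σ ∂Q = ∫ σ, F0 σ ∂Q + ∫ σ, bd σ ∂Q := by
      rw [← integral_add iΦ ibd]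
      refine integral_congr_ae (Filter.Eventually.of_forall fun σ => ?_)
      simp only [hbd]; ring
    rw [e1] at s2
    have b1 := hint bd _ hbdle
    have b2 : β * |∫ σ, bd σ ∂Q| ≤ ε / 2 * β ^ (1 / 2 : ℝ) := by
      calc β * |∫ σ, bd σ ∂Q| ≤ β * (K' * β ^ (-3 / 2 : ℝ)) :=
            mul_le_mul_of_nonneg_left b1 hβ0.le
        _ = (2 * K' / ε * β ^ (-1 : ℝ)) * (ε / 2) * β ^ (1 / 2 : ℝ) := by
            have : β ^ (-1 : ℝ) * β ^ (1 / 2 : ℝ) = β * β ^ (-3 / 2 : ℝ) := by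
              rw [hββ, ← Real.rpow_add hβ0]; norm_num
            calc β * (K' * β ^ (-3 / 2 : ℝ)) = K' * (β * β ^ (-3 / 2 : ℝ)) := by ring
              _ = K' * (β ^ (-1 : ℝ) * β ^ (1 / 2 : ℝ)) := by rw [this]
              _ = _ := by field_simp
        _ ≤ 1 * (ε / 2) * β ^ (1 / 2 : ℝ) := by
            refine mul_le_mul_of_nonneg_right ?_ (by positivity)
            exact mul_le_mul_of_nonneg_right a5 (by positivity)
        _ = _ := by ring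
    have b3 : β ^ (1 / 2 - e) ≤ ε / 2 * β ^ (1 / 2 : ℝ) := by
      have : β ^ (1 / 2 - e) = β ^ (-e) * β ^ (1 / 2 : ℝ) := by
        rw [← Real.rpow_add hβ0]; congr 1; ring
      rw [this]
      refine mul_le_mul_of_nonneg_right ?_ (by positivity)
      calc β ^ (-e) = (2 / ε * β ^ (-e)) * (ε / 2) := by field_simp
        _ ≤ 1 * (ε / 2) := mul_le_mul_of_nonneg_right a6 (by positivity)
        _ = _ := one_mul _
    have e2 : β * ∫ σ, F0 σ ∂Q = β * (∫ σ, F0 σ ∂Q + ∫ σ, bd σ ∂Q) - β * ∫ σ, bd σ ∂Q := by ring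
    rw [e2]
    refine (abs_sub _ _).trans ?_
    rw [abs_mul β (∫ σ, bd σ ∂Q), abs_of_pos hβ0]
    linarith

lemma prS_smul (A : Finset ι) (s : ℝ) (g φ : ι → W) :
    prS A (fun x => s • g x) φ = s * prS A g φ := by
  unfold prS
  rw [Finset.mul_sum]
  exact Finset.sum_congr rfl fun x _ => by rw [real_inner_smul_left]

lemma nq_smul (A : Finset ι) (s : ℝ) (g : ι → W) :
    nq A (fun x => s • g x) = s ^ 2 * nq A g := by
  unfold nq
  rw [Finset.mul_sum]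
  refine Finset.sum_congr rfl fun x _ => ?_
  rw [norm_smul, mul_pow, Real.norm_eq_abs, sq_abs]

/-- **The bound of the variances.** -/
theorem var_bd [MeasurableMul K] (c : Cst) {Yb Cy cq n0 G0 : ℝ} (hcq : 0 < cq) (hn0 : 0 ≤ n0)
    (hG0 : 0 ≤ G0) {e : ℝ} (he : 0 < e) (he2 : e ≤ 1 / 10) {ε : ℝ} (hε : 0 < ε) :
    ∃ k₁ > (0 : ℝ), ∃ β₀ ≥ (1 : ℝ), ∀ β ≥ β₀, ∀ S : Sys ι τ K W W ν c, Lin S Yb Cy → Coer S cq →
      ∀ Q : Measure (ι → K), Stt S e β Q → ∀ (A0 : Finset ι), (A0.card : ℝ) ≤ n0 →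
      (∀ x ∈ A0, ∀ y, S.d x y ≤ rad k₁ β → y ∈ S.Lam) → ∀ g : ι → W,
      (∀ x, x ∉ A0 → g x = 0) → nq A0 g ≤ G0 →
      β * ∫ σ, prS A0 g (fun x => S.yy (σ x)) ^ 2 ∂Q ≤ nq A0 g / cq + ε ∧
      |β * ∫ σ, prS A0 g (fun x => S.yy (σ x)) ∂Q| ≤ ε * β ^ (1 / 2 : ℝ) := by
  obtain ⟨s, hs0, hs1, hs2⟩ : ∃ s : ℝ, 0 < s ∧ s ^ 2 * G0 ≤ 1 ∧ s ^ 2 * G0 ≤ cq ^ 2 := by
    have hl2 : 0 < min 1 (cq ^ 2) := lt_min one_pos (by positivity)
    refine ⟨Real.sqrt (min 1 (cq ^ 2) / (G0 + 1)), by positivity, ?_, ?_⟩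
    · rw [Real.sq_sqrt (by positivity), div_mul_eq_mul_div, div_le_one (by positivity)]
      have := min_le_left 1 (cq ^ 2)
      nlinarith
    · rw [Real.sq_sqrt (by positivity), div_mul_eq_mul_div, div_le_iff₀ (by positivity)]
      have := min_le_right 1 (cq ^ 2)
      have h2 : 0 ≤ cq ^ 2 := by positivity
      nlinarith
  obtain ⟨k₁, hk₁, β₀, hβ₀, H⟩ := var_bd1 (ι := ι) (τ := τ) (W := W) (ν := ν) c (Yb := Yb)
    (Cy := Cy) hcq hn0 he he2 (ε := min (s ^ 2 * ε) (s * ε)) (lt_min (by positivity) (by positivity))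
  refine ⟨k₁, hk₁, β₀, hβ₀, fun β hβ S hS hSc Q hQ A0 hA0c hA0 g hg0 hgG => ?_⟩
  have hsg : ∀ x, ‖s • g x‖ ≤ 1 := by
    intro x
    by_cases hx : x ∈ A0
    · have h3 : ‖s • g x‖ ^ 2 ≤ 1 := by
        rw [norm_smul, mul_pow, Real.norm_eq_abs, sq_abs]
        calc s ^ 2 * ‖g x‖ ^ 2 ≤ s ^ 2 * nq A0 g := by
              refine mul_le_mul_of_nonneg_left ?_ (by positivity)
              exact Finset.single_le_sum (f := fun x => ‖g x‖ ^ 2) (fun _ _ => by positivity) hx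
          _ ≤ s ^ 2 * G0 := mul_le_mul_of_nonneg_left hgG (by positivity)
          _ ≤ 1 := hs1
      nlinarith [norm_nonneg (s • g x)]
    · rw [hg0 x hx, smul_zero, norm_zero]; exact zero_le_one
  obtain ⟨a1, a2⟩ := H β hβ S hS hSc Q hQ A0 hA0c hA0 (fun x => s • g x)
    (fun x hx => by rw [hg0 x hx, smul_zero]) hsg (by
      rw [nq_smul]
      exact (mul_le_mul_of_nonneg_left hgG (by positivity)).trans hs2)
  have hβ0 : 0 < β := by linarith
  simp only [prS_smul, nq_smul, mul_pow] at a1 a2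
  rw [integral_const_mul] at a1 a2
  constructor
  · have h3 : s ^ 2 * (β * ∫ σ, prS A0 g (fun x => S.yy (σ x)) ^ 2 ∂Q) ≤
        s ^ 2 * (nq A0 g / cq + ε) := by
      calc s ^ 2 * (β * ∫ σ, prS A0 g (fun x => S.yy (σ x)) ^ 2 ∂Q) =
            β * (s ^ 2 * ∫ σ, prS A0 g (fun x => S.yy (σ x)) ^ 2 ∂Q) := by ring
        _ ≤ s ^ 2 * nq A0 g / cq + min (s ^ 2 * ε) (s * ε) := a1
        _ ≤ s ^ 2 * nq A0 g / cq + s ^ 2 * ε := by
            have := min_le_left (s ^ 2 * ε) (s * ε); linarith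
        _ = _ := by ring
    exact le_of_mul_le_mul_left h3 (by positivity)
  · have h3 : s * |β * ∫ σ, prS A0 g (fun x => S.yy (σ x)) ∂Q| ≤ s * (ε * β ^ (1 / 2 : ℝ)) := by
      calc s * |β * ∫ σ, prS A0 g (fun x => S.yy (σ x)) ∂Q| =
            |β * (s * ∫ σ, prS A0 g (fun x => S.yy (σ x)) ∂Q)| := by
            rw [show β * (s * ∫ σ, prS A0 g (fun x => S.yy (σ x)) ∂Q) =
              s * (β * ∫ σ, prS A0 g (fun x => S.yy (σ x)) ∂Q) by ring, abs_mul s,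
              abs_of_pos hs0]
        _ ≤ min (s ^ 2 * ε) (s * ε) * β ^ (1 / 2 : ℝ) := a2
        _ ≤ (s * ε) * β ^ (1 / 2 : ℝ) := by
            have := min_le_right (s ^ 2 * ε) (s * ε)
            exact mul_le_mul_of_nonneg_right this (Real.rpow_nonneg hβ0.le _)
        _ = _ := by ring
    exact le_of_mul_le_mul_left h3 hs0

end

end Pool.Agent.N109.SDS
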